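import Pool.Agent.Lib.MP_de485e_gt.Hi.R8

/-! Evolution of the shape operator in the direction of the mean curvature vector. -/

namespace Pool.Agent.Lib.MP_de485e_gt.Hi

variable {ι : Type} [Fintype ι] {R : Type} [CommRing R] [Algebra ℝ R]

namespace Arr

variable (X : Arr ι R)

def twL (a b c : ι) : R :=
  -(X.n * X.T a b c) + 2 * ∑ e, X.G c e * X.T a b e + 2 * ∑ d, X.M a d * X.T d b c +
    2 * ∑ d, X.M b d * X.T a d c - 2 * ∑ d, ∑ f, (∑ e, X.T a d e * X.T b f e) * X.T d f c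

noncomputable def twXi : R := ∑ a, ∑ b, X.AH a b * X.AH a b

noncomputable def twCross : R := ∑ k, ∑ c, (∑ a, ∑ b, X.AH a b * X.B k a b c) * X.Bt k c

noncomputable def twRz : R :=
  ∑ a, ∑ b, ∑ c, X.AH a b * X.HH c * X.twL a b c - X.n * X.twXi -
    2 * (((X.n : ℝ)⁻¹ • X.W) * ∑ a, ∑ b, X.AH a b * X.M a b) -
    2 * ∑ e, ∑ f, X.M e f * ∑ b, X.AH e b * X.AH f b

section map

variable {R' : Type} [CommRing R'] [Algebra ℝ R'] (φ : R →ₐ[ℝ] R')

theorem tw_map_L (a b c : ι) : (X.map φ).twL a b c = φ (X.twL a b c) := by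
  simp only [twL, map_G, map_M, map_sum, map_mul, map_sub, map_add, map_neg, map_natCast,
    map_ofNat, A1_map_n]
  rfl

theorem tw_map_Xi : (X.map φ).twXi = φ X.twXi := by
  simp only [twXi, A1_map_AH, map_sum, map_mul]

theorem tw_map_Cross : (X.map φ).twCross = φ X.twCross := by
  simp only [twCross, A1_map_AH, map_Bt, map_sum, map_mul]
  rfl

theorem tw_map_Rz : (X.map φ).twRz = φ X.twRz := by
  simp only [twRz, tw_map_L, tw_map_Xi, A1_map_AH, map_HH, map_M, map_W, map_sum, map_mul,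
    map_sub, map_smul, map_natCast, map_ofNat, A1_map_n]

end map

variable {X} (h : X.Good)
include h

theorem Good.tw_symm (a b : ι) : X.AH a b = X.AH b a := by
  simp only [AH, h.T0_symm a b]

theorem Good.tw_tan (b : ι) : X.Tan fun a => X.AH a b :=
  A1_tan_sum (f := fun c a => X.T0 a b c * X.HH c) fun c => A1_tan_mul (h.T0_tan b c) _

theorem Good.tw_tan' (a : ι) : X.Tan (X.AH a) := by
  have : X.AH a = fun b => X.AH b a := funext fun b => h.tw_symm a b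
  rw [this]
  exact h.tw_tan a

theorem Good.tw_tr : ∑ a, X.AH a a = 0 := by
  simp only [AH]
  rw [Finset.sum_comm]
  exact Finset.sum_eq_zero fun c _ => by rw [← Finset.sum_mul, h.T0_tr, zero_mul]

theorem Good.tw_P : ∑ a, ∑ b, X.AH a b * X.P a b = 0 := by
  rw [← h.tw_tr]
  refine Finset.sum_congr rfl fun a _ => ?_
  rw [← h.tw_tan' a a]
  exact Finset.sum_congr rfl fun b _ => mul_comm _ _

omit h in
theorem tw_AH (a b : ι) :
    X.AH a b = ∑ c, X.T a b c * X.HH c - X.P a b * ((X.n : ℝ)⁻¹ • X.W) := by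
  simp only [AH, A1_T0, W, Algebra.smul_def, Finset.mul_sum, ← Finset.sum_sub_distrib]
  exact Finset.sum_congr rfl fun c _ => by ring

end Arr

namespace QA

variable (S : QA ι R)

/-- The tangential part of the derivative of `AH`. -/
noncomputable def twN (k a b : ι) : R :=
  S.D k (S.arr.AH a b) - ∑ e, S.T k e a * S.arr.AH e b - ∑ e, S.T k e b * S.arr.AH a e

noncomputable def twNN : R := ∑ k, ∑ a, ∑ b, S.twN k a b * S.twN k a b

theorem twN_symm (k a b : ι) : S.twN k a b = S.twN k b a := by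
  simp only [twN, S.good.tw_symm a, S.good.tw_symm _ b]
  ring

theorem twN_tan (k b : ι) : S.arr.Tan fun a => S.twN k a b := by
  have e : (fun a => S.twN k a b) = fun a => ∑ e, S.P a e * S.D k (S.arr.AH e b) -
      ∑ e, S.T k e b * S.arr.AH a e := by
    funext a
    rw [twN, S.D_of_tan (S.good.tw_tan b) k a]
    ring
  rw [e]
  refine Arr.A1_tan_sub ?_ (S.R5_tan_sum _ _ S.good.tw_tan)
  exact Arr.A1_tan_sum (f := fun e a => S.P a e * S.D k (S.arr.AH e b)) fun e =>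
    Arr.A1_tan_mul (S.good.Ptan e) _

theorem tw_U_nrm (k : ι) (f : ι → R) : S.arr.Nrm fun a => ∑ e, S.T k e a * f e :=
  R2_nrm_l (f := fun e a => S.T k e a) (fun e => S.T_nrm k e) _

/-- Pairing with a tangential array kills both normal parts. -/
theorem tw_kill {f : ι → ι → R} (h1 : ∀ b, S.arr.Tan fun a => f a b) (h2 : ∀ a, S.arr.Tan (f a))
    (k : ι) (g g' : ι → ι → R) : ∑ a, ∑ b, f a b * ∑ e, S.T k e a * g e b = 0 ∧
      ∑ a, ∑ b, f a b * ∑ e, S.T k e b * g' a e = 0 :=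
  ⟨Finset.sum_comm.trans (Finset.sum_eq_zero fun b _ =>
    S.good.tn (h1 b) (S.tw_U_nrm k fun e => g e b)),
    Finset.sum_eq_zero fun a _ => S.good.tn (h2 a) (S.tw_U_nrm k (g' a))⟩

theorem tw_D (k a b : ι) : S.D k (S.arr.AH a b) =
    S.twN k a b + ∑ e, S.T k e a * S.arr.AH e b + ∑ e, S.T k e b * S.arr.AH a e := by
  rw [twN]
  ring

theorem D_twXi (k : ι) : S.D k S.arr.twXi = 2 * ∑ a, ∑ b, S.arr.AH a b * S.twN k a b := by
  obtain ⟨h1, h2⟩ := S.tw_kill S.good.tw_tan S.good.tw_tan' k S.arr.AH S.arr.AH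
  simp only [Arr.twXi, map_sum, S.R2_D_sq, S.tw_D, mul_add, Finset.sum_add_distrib,
    ← Finset.mul_sum _ _ (2 : R)]
  rw [h1, h2]
  ring

theorem tw_UU : ∑ k, ∑ a, ∑ b, (∑ e, S.T k e a * S.arr.AH e b) * ∑ e, S.T k e a * S.arr.AH e b =
    ∑ e, ∑ f, S.arr.M e f * ∑ b, S.arr.AH e b * S.arr.AH f b := by
  simp only [← S.R2_M, Finset.sum_mul_sum]
  simp only [Finset.sum_mul]
  rw [Arr.Good.A2_s5, Arr.Good.A2_s5]
  refine Finset.sum_congr rfl fun f _ => Finset.sum_congr rfl fun e _ => ?_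
  refine Finset.sum_congr rfl fun k _ => Finset.sum_comm.trans (Finset.sum_congr rfl fun a _ =>
    Finset.sum_congr rfl fun b _ => by ring)

theorem tw_DD : ∑ a, ∑ b, ∑ k, S.D k (S.arr.AH a b) * S.D k (S.arr.AH a b) =
    S.twNN + 2 * ∑ e, ∑ f, S.arr.M e f * ∑ b, S.arr.AH e b * S.arr.AH f b := by
  have hN' : ∀ k a, S.arr.Tan (S.twN k a) := fun k a => by
    have : S.twN k a = fun b => S.twN k b a := funext fun b => S.twN_symm k a b
    rw [this]
    exact S.twN_tan k a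
  have hV : ∑ k, ∑ a, ∑ b, (∑ e, S.T k e b * S.arr.AH a e) * ∑ e, S.T k e b * S.arr.AH a e =
      ∑ e, ∑ f, S.arr.M e f * ∑ b, S.arr.AH e b * S.arr.AH f b := by
    rw [← S.tw_UU]
    refine Finset.sum_congr rfl fun k _ => Finset.sum_comm.trans ?_
    simp only [S.good.tw_symm _ _]
  have e1 : ∀ k, ∑ a, ∑ b, S.D k (S.arr.AH a b) * S.D k (S.arr.AH a b) =
      ∑ a, ∑ b, S.twN k a b * S.twN k a b +
      ∑ a, ∑ b, (∑ e, S.T k e a * S.arr.AH e b) * ∑ e, S.T k e a * S.arr.AH e b +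
      ∑ a, ∑ b, (∑ e, S.T k e b * S.arr.AH a e) * ∑ e, S.T k e b * S.arr.AH a e := by
    intro k
    obtain ⟨h1, h2⟩ := S.tw_kill (S.twN_tan k) (hN' k) k S.arr.AH S.arr.AH
    have h3 : ∑ a, ∑ b, (∑ e, S.T k e b * S.arr.AH a e) * ∑ e, S.T k e a * S.arr.AH e b = 0 :=
      Finset.sum_comm.trans (Finset.sum_eq_zero fun b _ =>
        S.good.tn (S.R5_tan_sum _ _ S.good.tw_tan) (S.tw_U_nrm k fun e => S.arr.AH e b))
    have h4 : ∀ x y z : R, (x + y + z) * (x + y + z) =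
        x * x + y * y + z * z + 2 * (x * y) + 2 * (x * z) + 2 * (z * y) := fun x y z => by ring
    simp only [S.tw_D, h4, Finset.sum_add_distrib, ← Finset.mul_sum _ _ (2 : R)]
    rw [h1, h2, h3]
    ring
  rw [Arr.Good.A2_s3]
  simp only [e1, Finset.sum_add_distrib]
  rw [hV, S.tw_UU, twNN]
  ring

/-- The contraction of `AH` with `T`. -/
noncomputable def twQ (c : ι) : R := ∑ a, ∑ b, S.arr.AH a b * S.T a b c

theorem twQ_nrm : S.arr.Nrm S.twQ :=
  Arr.A1_nrm_sum (f := fun a c => ∑ b, S.arr.AH a b * S.T a b c) fun a =>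
    Arr.A1_nrm_sum (f := fun b c => S.arr.AH a b * S.T a b c) fun b =>
      Arr.A1_nrm_mul (S.T_nrm a b) _

theorem tw_Q (g : ι → R) :
    ∑ a, ∑ b, S.arr.AH a b * ∑ c, S.T a b c * g c = ∑ c, S.twQ c * g c := by
  simp only [twQ, Finset.sum_mul, Finset.mul_sum, mul_assoc]
  exact Arr.Good.A2_s3 _

theorem tw_QH : ∑ c, S.twQ c * S.arr.HH c = S.arr.twXi := by
  have e : ∀ a b, ∑ c, S.T a b c * S.arr.HH c =
      S.arr.AH a b + S.arr.P a b * ((S.arr.n : ℝ)⁻¹ • S.arr.W) := fun a b => by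
    rw [Arr.tw_AH, sub_add_cancel]
    rfl
  rw [← S.tw_Q]
  simp only [e, mul_add, Finset.sum_add_distrib, ← mul_assoc, ← Finset.sum_mul]
  rw [S.good.tw_P, zero_mul, add_zero]
  rfl

theorem tw_2 : ∑ c, S.twQ c * S.L (S.arr.HH c) =
    -(S.n * S.arr.twXi) + 2 * ∑ c, S.twQ c * ∑ e, S.arr.G c e * S.arr.HH e := by
  have z : ∑ c, S.twQ c * ∑ k, ∑ e, S.T k c e * S.arr.Bt k e = 0 :=
    S.R2_nt S.twQ_nrm (S.R5_tan2 _)
  have e : ∀ c, S.twQ c * S.L (S.arr.HH c) = -(S.n * (S.twQ c * S.arr.HH c)) +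
      2 * (S.twQ c * ∑ e, S.arr.G c e * S.arr.HH e) +
      2 * (S.twQ c * ∑ k, ∑ e, S.T k c e * S.arr.Bt k e) := fun c => by
    rw [S.L_HH]
    ring
  simp only [e, Finset.sum_add_distrib, Finset.sum_neg_distrib, ← Finset.mul_sum _ _ (2 : R),
    ← Finset.mul_sum _ _ (S.n : R)]
  rw [z, S.tw_QH]
  ring

theorem tw_3 : ∑ a, ∑ b, S.arr.AH a b * ∑ c, S.grad (S.T a b c) (S.arr.HH c) =
    S.arr.twCross + ∑ c, S.twQ c * ∑ e, S.arr.G c e * S.arr.HH e := by
  have e1 : ∀ k c, ∑ a, ∑ b, S.arr.AH a b * S.D k (S.T a b c) =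
      ∑ a, ∑ b, S.arr.AH a b * S.B k a b c - ∑ e, S.T k c e * S.twQ e := fun k c => by
    obtain ⟨h1, h2⟩ := S.tw_kill S.good.tw_tan S.good.tw_tan' k (fun e b => S.T e b c)
      fun a e => S.T a e c
    have h3 := S.tw_Q fun e => S.T k c e
    simp only [mul_comm _ (S.T k c _)] at h3
    simp only [S.D_T, mul_add, mul_sub, Finset.sum_add_distrib, Finset.sum_sub_distrib]
    rw [h1, h2, h3]
    ring
  have e2 : ∑ a, ∑ b, S.arr.AH a b * ∑ c, S.grad (S.T a b c) (S.arr.HH c) =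
      ∑ k, ∑ c, (∑ a, ∑ b, S.arr.AH a b * S.D k (S.T a b c)) * S.D k (S.arr.HH c) := by
    simp only [grad, Finset.sum_mul, Finset.mul_sum, mul_assoc]
    rw [Arr.Good.A2_s4]
    exact Finset.sum_congr rfl fun k _ => Arr.Good.A2_s3 _
  have e3 : ∀ k, ∑ c, (∑ a, ∑ b, S.arr.AH a b * S.D k (S.T a b c)) * S.D k (S.arr.HH c) =
      ∑ c, (∑ a, ∑ b, S.arr.AH a b * S.B k a b c) * S.arr.Bt k c +
        ∑ c, (∑ e, S.T k c e * S.twQ e) * ∑ e, S.T k c e * S.arr.HH e := fun k => by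
    have n1 : S.arr.Nrm fun c => ∑ a, ∑ b, S.arr.AH a b * S.B k a b c :=
      Arr.A1_nrm_sum (f := fun a c => ∑ b, S.arr.AH a b * S.B k a b c) fun a =>
        Arr.A1_nrm_sum (f := fun b c => S.arr.AH a b * S.B k a b c) fun b =>
          Arr.A1_nrm_mul (S.B_nrm k a b) _
    have z1 := S.R2_nt n1 (S.R2_U_tan k)
    have z2 := S.good.tn (R2_tan_l (f := fun e c => S.T k c e) (fun e => S.T_tan' k e) S.twQ)
      (S.good.Bt_nrm k)
    simp only [e1, S.D_HH, mul_sub, sub_mul, Finset.sum_sub_distrib]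
    rw [z1, z2]
    ring
  have e4 : ∑ k, ∑ c, (∑ e, S.T k c e * S.twQ e) * ∑ e, S.T k c e * S.arr.HH e =
      ∑ c, S.twQ c * ∑ e, S.arr.G c e * S.arr.HH e := by
    simp only [Arr.G, Finset.sum_mul_sum]
    simp only [Finset.sum_mul, Finset.mul_sum]
    rw [Arr.Good.A2_s4, Arr.Good.A2_s4]
    refine Finset.sum_congr rfl fun e _ => Finset.sum_congr rfl fun f _ =>
      Finset.sum_congr rfl fun k _ => Finset.sum_congr rfl fun c _ => ?_
    change S.T k c e * S.twQ e * (S.T k c f * S.arr.HH f) =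
      S.twQ e * (S.T k c e * S.T k c f * S.arr.HH f)
    ring
  rw [e2]
  simp only [e3, Finset.sum_add_distrib]
  rw [e4]
  rfl

theorem tw_4 (w : R) : ∑ a, ∑ b, S.arr.AH a b * S.L (S.P a b * w) =
    2 * (w * ∑ a, ∑ b, S.arr.AH a b * S.arr.M a b) := by
  have z1 : ∑ a, ∑ b, S.arr.AH a b * S.arr.G a b = 0 :=
    Finset.sum_eq_zero fun a _ => S.good.tn (S.good.tw_tan' a) (S.good.G_nrm a)
  have z2 : ∑ a, ∑ b, S.arr.AH a b * S.P a b = 0 := S.good.tw_P
  have z3 : ∀ k, ∑ a, ∑ b, S.arr.AH a b * S.D k (S.P a b) = 0 := fun k => by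
    have y1 : ∑ a, ∑ b, S.arr.AH a b * S.T k a b = 0 :=
      Finset.sum_eq_zero fun a _ => S.good.tn (S.good.tw_tan' a) (S.T_nrm k a)
    have y2 : ∑ a, ∑ b, S.arr.AH a b * S.T k b a = 0 := Finset.sum_comm.trans
      (Finset.sum_eq_zero fun b _ => S.good.tn (S.good.tw_tan b) (S.T_nrm k b))
    simp only [S.D_P, mul_add, Finset.sum_add_distrib]
    rw [y1, y2, add_zero]
  have z4 : ∑ a, ∑ b, S.arr.AH a b * S.grad (S.P a b) w = 0 := by
    simp only [grad, Finset.mul_sum, ← mul_assoc]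
    rw [Arr.Good.A2_s3]
    refine Finset.sum_eq_zero fun k _ => ?_
    simp only [← Finset.sum_mul]
    rw [z3, zero_mul]
  have e : ∀ a b, S.arr.AH a b * S.L (S.P a b * w) =
      2 * w * (S.arr.AH a b * S.arr.M a b) - 2 * w * (S.arr.AH a b * S.arr.G a b) +
        S.L w * (S.arr.AH a b * S.P a b) - 2 * (S.arr.AH a b * S.grad (S.P a b) w) := fun a b => by
    rw [S.L_mul, S.L_P]
    ring
  simp only [e, Finset.sum_add_distrib, Finset.sum_sub_distrib, ← Finset.mul_sum]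
  rw [z1, z2, z4]
  ring

theorem L_twXi : S.L S.arr.twXi = 2 * S.arr.twRz - 4 * S.arr.twCross - 2 * S.twNN := by
  have h : S.L S.arr.twXi = ∑ a, ∑ b, S.L (S.arr.AH a b * S.arr.AH a b) := by
    simp only [← S.L_sum]
    rfl
  have z1 : ∑ a, ∑ b, ∑ c, S.arr.AH a b * S.arr.HH c * S.LT1 a b c = 0 :=
    S.sum_LT1 (τ := fun a b c => S.arr.AH a b * S.arr.HH c)
      (fun b _ => Arr.A1_tan_mul (S.good.tw_tan b) _)
      (fun a _ => Arr.A1_tan_mul (S.good.tw_tan' a) _)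
      (fun _ _ => Arr.A1_nrm_mul S.good.HH_nrm _)
  have e : ∀ a b, S.arr.AH a b * S.L (S.arr.AH a b) =
      ∑ c, S.arr.AH a b * S.arr.HH c * S.arr.twL a b c +
      ∑ c, S.arr.AH a b * S.arr.HH c * S.LT1 a b c +
      S.arr.AH a b * ∑ c, S.T a b c * S.L (S.arr.HH c) -
      2 * (S.arr.AH a b * ∑ c, S.grad (S.T a b c) (S.arr.HH c)) -
      S.arr.AH a b * S.L (S.P a b * ((S.arr.n : ℝ)⁻¹ • S.arr.W)) := fun a b => by
    have e1 : S.L (S.arr.AH a b) = ∑ c, S.L (S.T a b c * S.arr.HH c) -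
        S.L (S.P a b * ((S.arr.n : ℝ)⁻¹ • S.arr.W)) := by
      rw [← S.L_sum, ← S.L_sub, Arr.tw_AH]
      rfl
    have e2 : ∀ c, S.LT0 a b c = S.arr.twL a b c := fun c => rfl
    rw [e1]
    simp only [S.L_mul (S.T _ _ _), S.L_T, e2, mul_sub, Finset.mul_sum, ← Finset.sum_add_distrib,
      ← Finset.sum_sub_distrib]
    congr 1
    exact Finset.sum_congr rfl fun c _ => by ring
  rw [h]
  simp only [S.R5_L_sq, e, Finset.sum_add_distrib, Finset.sum_sub_distrib,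
    ← Finset.mul_sum _ _ (2 : R)]
  rw [z1, S.tw_Q, S.tw_2, S.tw_3, S.tw_4, S.tw_DD, Arr.twRz]
  change _ = 2 * (_ - (S.n : R) * _ - _ - _) - _ - _
  ring

end QA

end Pool.Agent.Lib.MP_de485e_gt.Hi
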