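import Mathlib

/-! Real inequalities for surfaces. -/

namespace Pool.Agent.Lib.MP_de485e_gt.Two

/-- A polynomial below the square root with the same 2-jet at `y = 0`. -/
noncomputable def sqp (y : ℝ) : ℝ := 1 + 1 / 2 * y - 1 / 8 * y ^ 2 + 1 / 16 * y ^ 3 - 1 / 2 * y ^ 4

theorem sqp_le {r g : ℝ} (hr : 0 ≤ r) (hg : 0 ≤ g) : r * sqp ((r ^ 2)⁻¹ * (g - r ^ 2)) ≤ √g := by
  rcases hr.eq_or_lt with h | h
  · rw [← h, zero_mul]
    exact Real.sqrt_nonneg _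
  obtain ⟨w, hw, hw0⟩ : ∃ w, √g = r * w ∧ 0 ≤ w := ⟨√g / r, by field_simp, by positivity⟩
  have h1 : g = (r * w) ^ 2 := by rw [← hw, Real.sq_sqrt hg]
  have h2 : (r ^ 2)⁻¹ * (g - r ^ 2) = w ^ 2 - 1 := by
    rw [h1]
    field_simp
  rw [h2, hw]
  refine mul_le_mul_of_nonneg_left ?_ hr
  have h3 : w - sqp (w ^ 2 - 1) =
      (w - 1) ^ 4 * (3 / 16 + 7 / 4 * w + 47 / 16 * w ^ 2 + 2 * w ^ 3 + 1 / 2 * w ^ 4) := by
    unfold sqp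
    ring
  have h4 : 0 ≤ (w - 1) ^ 4 * (3 / 16 + 7 / 4 * w + 47 / 16 * w ^ 2 + 2 * w ^ 3 + 1 / 2 * w ^ 4) := by
    positivity
  linarith

/-- The larger eigenvalue of the Gram matrix. -/
theorem exists_x {A B C a b e : ℝ} (hA : 0 ≤ A) (hB : 0 ≤ B) (he : 0 ≤ e) (hC : C ^ 2 ≤ A * B)
    (h : (a ^ 2 + b ^ 2) ^ 2 ≤ e * (a ^ 2 * A + 2 * (a * b * C) + b ^ 2 * B)) :
    ∃ x, 0 ≤ x ∧ x ≤ A + B ∧ A * B - C ^ 2 = x * (A + B - x) ∧ a ^ 2 + b ^ 2 ≤ e * x := by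
  obtain ⟨d, hd0, hd⟩ : ∃ d, 0 ≤ d ∧ d ^ 2 = (A - B) ^ 2 + 4 * C ^ 2 :=
    ⟨√_, Real.sqrt_nonneg _, Real.sq_sqrt (by positivity)⟩
  have h1 : |A - B| ≤ d := abs_le_of_sq_le_sq' (by nlinarith [sq_nonneg C]) hd0 |> abs_le.2
  obtain ⟨h2, h3⟩ := abs_le.1 h1
  have h4 : d ≤ A + B := (abs_le_of_sq_le_sq' (by nlinarith) (by linarith)).2
  refine ⟨(A + B + d) / 2, by linarith, by linarith, by nlinarith, ?_⟩
  obtain ⟨x, hx⟩ : ∃ x, x = (A + B + d) / 2 := ⟨_, rfl⟩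
  rw [← hx]
  have h5 : 0 ≤ x - A := by linarith
  have h6 : 0 ≤ x - B := by linarith
  have h7 : (x - A) * (x - B) = C ^ 2 := by
    rw [hx]
    nlinarith
  have h8 : 2 * (a * b * C) ≤ (x - A) * a ^ 2 + (x - B) * b ^ 2 := by
    refine (abs_le_of_sq_le_sq' ?_ (by positivity)).2
    have : (2 * (a * b * C)) ^ 2 = 4 * (((x - A) * a ^ 2) * ((x - B) * b ^ 2)) := by
      linear_combination (-4 * a ^ 2 * b ^ 2) * h7
    nlinarith [sq_nonneg ((x - A) * a ^ 2 - (x - B) * b ^ 2)]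
  have h9 : (a ^ 2 + b ^ 2) ^ 2 ≤ e * x * (a ^ 2 + b ^ 2) := by
    have := mul_le_mul_of_nonneg_left (show a ^ 2 * A + 2 * (a * b * C) + b ^ 2 * B ≤
      x * (a ^ 2 + b ^ 2) by linarith) he
    linarith
  rcases (show 0 ≤ a ^ 2 + b ^ 2 by positivity).eq_or_lt with h0 | h0
  · rw [← h0]
    exact mul_nonneg he (by linarith)
  · rw [sq] at h9
    exact le_of_mul_le_mul_right h9 h0

/-- The gradient terms in one normal direction. -/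
theorem grad_real {x y z w a b p m k : ℝ} (hp : 0 ≤ p) (hab : a ^ 2 + b ^ 2 = 4 * p ^ 2)
    (hm : 0 ≤ m) (hk : k ≤ (4 - 4 * m - m ^ 2) / 8) :
    -(m / (4 * p) * ((x + z) * (a * (x - z) + 2 * b * y) + (y + w) * (a * (y - w) + 2 * b * z))) ≤
      x ^ 2 + 3 * y ^ 2 + 3 * z ^ 2 + w ^ 2 - (1 + k) / 2 * ((x + z) ^ 2 + (y + w) ^ 2) := by
  have hg : 0 ≤ (x + z) ^ 2 + (y + w) ^ 2 := by positivity
  have hk' := mul_le_mul_of_nonneg_right hk hg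
  rcases hp.eq_or_lt with h | h
  · rw [← h]
    have := mul_nonneg (show 0 ≤ 4 * m + m ^ 2 by positivity) hg
    simp only [mul_zero, div_zero, zero_mul, neg_zero]
    nlinarith [sq_nonneg (x - 3 * z), sq_nonneg (3 * y - w)]
  obtain ⟨c, rfl⟩ : ∃ c, a = 2 * p * c := ⟨a / (2 * p), by field_simp⟩
  obtain ⟨s, rfl⟩ : ∃ s, b = 2 * p * s := ⟨b / (2 * p), by field_simp⟩
  have hcs : c ^ 2 + s ^ 2 = 1 := by
    have : 4 * p ^ 2 * (c ^ 2 + s ^ 2) = 4 * p ^ 2 * 1 := by linarith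
    exact mul_left_cancel₀ (by positivity) this
  obtain ⟨u, hu⟩ : ∃ u, u = x + z := ⟨_, rfl⟩
  obtain ⟨v, hv⟩ : ∃ v, v = y + w := ⟨_, rfl⟩
  obtain ⟨y1, hy1⟩ : ∃ y1, y1 = (x - 3 * z) / 2 := ⟨_, rfl⟩
  obtain ⟨y2, hy2⟩ : ∃ y2, y2 = (3 * y - w) / 2 := ⟨_, rfl⟩
  have e1 : m / (4 * p) * ((x + z) * (2 * p * c * (x - z) + 2 * (2 * p * s) * y) +
      (y + w) * (2 * p * c * (y - w) + 2 * (2 * p * s) * z)) =
      m / 2 * (c * (u ^ 2 - v ^ 2) / 2 + s * (u * v)) +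
        m / 2 * (y1 * (c * u - s * v) + y2 * (c * v + s * u)) := by
    rw [hu, hv, hy1, hy2]
    field_simp
    ring
  have e2 : x ^ 2 + 3 * y ^ 2 + 3 * z ^ 2 + w ^ 2 = 3 / 4 * (u ^ 2 + v ^ 2) + y1 ^ 2 + y2 ^ 2 := by
    rw [hu, hv, hy1, hy2]
    ring
  rw [e1, e2, ← hu, ← hv]
  rw [← hu, ← hv] at hk' hg
  have h1 : -((u ^ 2 + v ^ 2) / 2) ≤ c * (u ^ 2 - v ^ 2) / 2 + s * (u * v) := by
    refine (abs_le_of_sq_le_sq' ?_ (by positivity)).1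
    have : ((u ^ 2 + v ^ 2) / 2) ^ 2 = (c * (u ^ 2 - v ^ 2) / 2 + s * (u * v)) ^ 2 +
        (s * (u ^ 2 - v ^ 2) / 2 - c * (u * v)) ^ 2 := by
      linear_combination (-((u ^ 2 + v ^ 2) / 2) ^ 2) * hcs
    nlinarith [sq_nonneg (s * (u ^ 2 - v ^ 2) / 2 - c * (u * v))]
  have h2 := mul_le_mul_of_nonneg_left h1 hm
  have h3 : (c * u - s * v) ^ 2 + (c * v + s * u) ^ 2 = u ^ 2 + v ^ 2 := by
    linear_combination (u ^ 2 + v ^ 2) * hcs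
  have h4 : m ^ 2 * ((c * u - s * v) ^ 2 + (c * v + s * u) ^ 2) = m ^ 2 * (u ^ 2 + v ^ 2) := by
    rw [h3]
  nlinarith [sq_nonneg (y1 + m / 4 * (c * u - s * v)), sq_nonneg (y2 + m / 4 * (c * v + s * u))]

/-- The reaction of the decaying barrier. -/
theorem reactC {e s P x θ : ℝ} (he : 0 ≤ e) (hxs : x ≤ s) (hP : P ≤ e * x) (hθ0 : 0 < θ)
    (hθ : θ ≤ 1 / 2) (hs : s = θ * (4 / 3 + e)) (hG : s ≤ 2 / 3 ∨ s ≤ 57 / 100 + e / 3) :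
    P + s ^ 2 + 2 * (x * (s - x)) - s - θ * (e * e + P + e) ≤ -((1 - 2 * θ) / 3 * s) := by
  have h1 : (1 - θ) * P ≤ (1 - θ) * (e * x) := mul_le_mul_of_nonneg_left hP (by linarith)
  obtain ⟨w, hw⟩ : ∃ w, w = 2 * s - (1 - θ) * e := ⟨_, rfl⟩
  have hs0 : 0 < s := by rw [hs]; positivity
  have hθe := mul_nonneg hθ0.le he
  have key : (s - x) * (w - 2 * (s - x)) ≤ 4 * θ / 9 + (1 - 2 * θ) / 3 * s := by
    have h0 : 0 ≤ (1 - 2 * θ) / 3 * s := mul_nonneg (by linarith) hs0.le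
    rcases le_or_gt w 0 with h | h
    · nlinarith [mul_nonneg (sub_nonneg.2 hxs) (show 0 ≤ 2 * (s - x) - w by linarith)]
    have h2 : w ^ 2 ≤ 32 * θ / 9 + 8 / 3 * (1 - 2 * θ) * s := by
      rcases le_or_gt θ (1 / 3) with h3 | h3
      · have h4 : w ≤ 8 * θ / 3 := by nlinarith [mul_nonneg he (sub_nonneg.2 h3)]
        have h5 := pow_le_pow_left₀ h.le h4 2
        nlinarith [mul_nonneg hθ0.le (sub_nonneg.2 hθ)]
      rcases le_or_gt s (2 / 3) with h4 | h4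
      · have h5 : w ≤ 4 / 3 * (1 / 2 + θ) := by nlinarith [mul_nonneg he (sub_nonneg.2 hθ)]
        have h6 := pow_le_pow_left₀ h.le h5 2
        have h7 : 4 / 9 ≤ s := by nlinarith
        have h8 := mul_le_mul_of_nonneg_left h7 (show 0 ≤ 1 - 2 * θ by linarith)
        nlinarith [mul_nonneg (sub_nonneg.2 hθ) (sub_nonneg.2 h3.le)]
      · have h5 : s ≤ 57 / 100 + e / 3 := hG.resolve_left (not_le.2 h4)
        have h6 : w ≤ 127 / 100 := by nlinarith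
        have h7 := pow_le_pow_left₀ h.le h6 2
        have h8 := mul_le_mul_of_nonneg_left h4.le (show 0 ≤ 1 - 2 * θ by linarith)
        nlinarith
    nlinarith [sq_nonneg (w - 4 * (s - x))]
  have e1 : (1 - θ) * (e * x) + s ^ 2 + 2 * (x * (s - x)) - s - θ * (e * e + e) =
      (s - x) * (w - 2 * (s - x)) - 4 * θ / 9 - 2 * ((1 - 2 * θ) / 3 * s) := by
    rw [hw, hs]
    ring
  linarith

theorem polar {q0 q1 q2 lo hi p : ℝ} (h1 : lo ≤ p) (h2 : p ≤ hi)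
    (a : q0 + q1 * lo + q2 * lo ^ 2 ≤ 0) (b : q0 + q1 * (lo + hi) / 2 + q2 * (lo * hi) ≤ 0)
    (c : q0 + q1 * hi + q2 * hi ^ 2 ≤ 0) : q0 + q1 * p + q2 * p ^ 2 ≤ 0 := by
  rcases (h1.trans h2).eq_or_lt with h | h
  · rw [le_antisymm (h ▸ h2) h1]
    exact a
  refine nonpos_of_mul_nonneg_left (b := -(hi - lo) ^ 2) ?_ (by nlinarith [sq_pos_of_pos (sub_pos.2 h)])
  have e : (q0 + q1 * p + q2 * p ^ 2) * -(hi - lo) ^ 2 =
      (hi - p) ^ 2 * -(q0 + q1 * lo + q2 * lo ^ 2) +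
        2 * ((p - lo) * (hi - p)) * -(q0 + q1 * (lo + hi) / 2 + q2 * (lo * hi)) +
        (p - lo) ^ 2 * -(q0 + q1 * hi + q2 * hi ^ 2) := by ring
  rw [e]
  have := mul_nonneg (sub_nonneg.2 h1) (sub_nonneg.2 h2)
  have := neg_nonneg.2 a
  have := neg_nonneg.2 b
  have := neg_nonneg.2 c
  positivity

/-- The reaction along a barrier `s + m p = G r` of slope `D`, times `r / 2`. -/
def Rc (m D r s p x : ℝ) : ℝ :=
  2 * r * (p ^ 2 + s ^ 2 + 2 * (x * (s - x)) - s + m * ((r ^ 2 + s) * p)) -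
    D * (r ^ 4 + r ^ 2 + p ^ 2)

theorem cellB {r G D π p x l : ℝ} (hr : 0 ≤ r) (hD : D ≤ 2 * r) (hl0 : 0 ≤ l) (hl : l ≤ 1)
    (hp : 0 ≤ p) (hπ : p ≤ π) (hP : p ^ 2 ≤ r ^ 2 * x)
    (h : 2 * r * (G ^ 2 - G) + r * (2 * G + l * (r ^ 2 - r * D / 2)) ^ 2 / 4 +
      (1 - l) * ((2 * r - D) * π ^ 2) - D * (r ^ 4 + r ^ 2) ≤ 0) : Rc 0 D r G p x ≤ 0 := by
  have h1 := mul_le_mul_of_nonneg_left hP (mul_nonneg hl0 (sub_nonneg.2 hD))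
  have h2 := mul_le_mul_of_nonneg_left (pow_le_pow_left₀ hp hπ 2)
    (mul_nonneg (sub_nonneg.2 hl) (sub_nonneg.2 hD))
  have h3 := mul_nonneg hr (sq_nonneg (2 * G + l * (r ^ 2 - r * D / 2) - 4 * x))
  unfold Rc
  linarith

/-- The coefficients in `p` of the bound without multiplier. -/
noncomputable def a0 (G D r : ℝ) : ℝ := 2 * r * (3 / 2 * G ^ 2 - G) - D * (r ^ 4 + r ^ 2)

noncomputable def a1 (G r : ℝ) : ℝ := 2 * r * (3 / 25 * (1 + r ^ 2 - 2 * G))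

noncomputable def a2 (D r : ℝ) : ℝ := 2 * r * (1 + (3 / 25) ^ 2 / 2) - D

theorem cellA0 {r G D p x s lo hi : ℝ} (hr : 0 ≤ r) (hs : s + 3 / 25 * p = G) (h1 : lo ≤ p)
    (h2 : p ≤ hi) (a : a0 G D r + a1 G r * lo + a2 D r * lo ^ 2 ≤ 0)
    (b : a0 G D r + a1 G r * (lo + hi) / 2 + a2 D r * (lo * hi) ≤ 0)
    (c : a0 G D r + a1 G r * hi + a2 D r * hi ^ 2 ≤ 0) : Rc (3 / 25) D r s p x ≤ 0 := by
  have h := polar h1 h2 a b c
  have h3 := mul_nonneg hr (sq_nonneg (s - 2 * x))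
  subst hs
  unfold Rc
  unfold a0 a1 a2 at h
  linarith

/-- The coefficients in `q = p / r` of the bound with multiplier `T`. -/
noncomputable def b0 (G D T r : ℝ) : ℝ :=
  2 * r * (G ^ 2 - G + (2 * G + T) ^ 2 / 8) - D * (r ^ 4 + r ^ 2)

noncomputable def b1 (G T r : ℝ) : ℝ := 2 * r * (3 / 25 * r * (1 + r ^ 2 - 2 * G - T / 2))

noncomputable def b2 (D T r : ℝ) : ℝ :=
  2 * r * ((1 + (3 / 25) ^ 2 / 2) * r ^ 2 - T) - D * r ^ 2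

theorem cellA1 {r G D p x s T lo hi : ℝ} (hr : 0 < r) (hs : s + 3 / 25 * p = G)
    (hP : p ^ 2 ≤ r ^ 2 * x) (hT : 0 ≤ T) (h1 : lo * r ≤ p) (h2 : p ≤ hi * r)
    (a : b0 G D T r + b1 G T r * lo + b2 D T r * lo ^ 2 ≤ 0)
    (b : b0 G D T r + b1 G T r * (lo + hi) / 2 + b2 D T r * (lo * hi) ≤ 0)
    (c : b0 G D T r + b1 G T r * hi + b2 D T r * hi ^ 2 ≤ 0) : Rc (3 / 25) D r s p x ≤ 0 := by
  obtain ⟨q, rfl⟩ : ∃ q, p = q * r := ⟨p / r, by field_simp⟩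
  have h := polar (le_of_mul_le_mul_right h1 hr) (le_of_mul_le_mul_right h2 hr) a b c
  have h3 := mul_nonneg hr.le (sq_nonneg (2 * s + T - 4 * x))
  have h4 : q ^ 2 ≤ x := le_of_mul_le_mul_left (by linarith) (pow_pos hr 2)
  have h5 := mul_le_mul_of_nonneg_left h4 (mul_nonneg hr.le hT)
  subst hs
  unfold Rc
  unfold b0 b1 b2 at h
  linarith

/-- `p ≤ h r` from `p ^ 2 ≤ r ^ 2 x`. -/
theorem p_le {r p x s G h : ℝ} (hr : 0 ≤ r) (hP : p ^ 2 ≤ r ^ 2 * x) (hx : x ≤ s) (hs : s ≤ G)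
    (hh : 0 ≤ h) (hG : 0 ≤ h ^ 2 - G) : p ≤ h * r := by
  refine (abs_le_of_sq_le_sq' ?_ (mul_nonneg hh hr)).2
  have := mul_le_mul_of_nonneg_left (show x ≤ h ^ 2 by linarith) (sq_nonneg r)
  linarith

/-- The shift by `ε` costs at most `ε`. -/
theorem shift {m k c r s p x ε : ℝ} (hm : 0 ≤ m) (hr : 0 < r) (hp : 0 ≤ p) (hx : x ≤ s)
    (hs : 0 ≤ s) (hε : 0 ≤ ε) (h : Rc m (2 * k * r - c) r (s + ε) p (x + ε) ≤ 0) :
    4 * (p ^ 2 + s ^ 2 + 2 * (x * (s - x)) - s) + 4 * m * ((r ^ 2 + s) * p) -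
      k * (4 * (r ^ 4 + r ^ 2 + p ^ 2)) + c * (4 * (r ^ 4 + r ^ 2 + p ^ 2) / (2 * r)) ≤ 4 * ε := by
  refine le_of_mul_le_mul_left ?_ (show 0 < r / 2 by positivity)
  have e : r / 2 * (4 * (p ^ 2 + s ^ 2 + 2 * (x * (s - x)) - s) + 4 * m * ((r ^ 2 + s) * p) -
      k * (4 * (r ^ 4 + r ^ 2 + p ^ 2)) + c * (4 * (r ^ 4 + r ^ 2 + p ^ 2) / (2 * r))) =
      Rc m (2 * k * r - c) r (s + ε) p (x + ε) + r / 2 * (4 * ε) -
        2 * (r * ε * (2 * s + ε + 2 * (s - x) + m * p)) := by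
    unfold Rc
    field_simp
    ring
  have : 0 ≤ r * ε * (2 * s + ε + 2 * (s - x) + m * p) := by
    have := sub_nonneg.2 hx
    positivity
  linarith

end Pool.Agent.Lib.MP_de485e_gt.Two
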