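import Pool.Agent.Lib.MP_de485e_gt.Hi.Br3
import Pool.Agent.Lib.MP_de485e_gt.Two.Real1
import Pool.Agent.Lib.MP_de485e_gt.Two.Evo

/-! The invariants of the second fundamental form of a surface. -/

open scoped RealInnerProductSpace

namespace Pool.Agent.Lib.MP_de485e_gt.Hi

namespace SF

variable {V N : Type} [NormedAddCommGroup V] [InnerProductSpace ℝ V]
  [FiniteDimensional ℝ V] [NormedAddCommGroup N] [InnerProductSpace ℝ N] [FiniteDimensional ℝ N]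

theorem tw_11 (S : SF 2 V N) : S.h0 (S.b 1) (S.b 1) = -S.h0 (S.b 0) (S.b 0) := by
  have := S.sum_h0
  rw [Fin.sum_univ_two] at this
  exact eq_neg_of_add_eq_zero_right this

theorem tw_10 (S : SF 2 V N) : S.h0 (S.b 1) (S.b 0) = S.h0 (S.b 0) (S.b 1) := S.h0_symm _ _

theorem tw_u (S : SF 2 V N) :
    S.u = 2 * (‖S.h0 (S.b 0) (S.b 0)‖ ^ 2 + ‖S.h0 (S.b 0) (S.b 1)‖ ^ 2) := by
  simp only [u, Fin.sum_univ_two, S.tw_11, S.tw_10, norm_neg]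
  ring

theorem tw_zeta (S : SF 2 V N) :
    S.zeta = ⟪S.h0 (S.b 0) (S.b 0), S.eta⟫ ^ 2 + ⟪S.h0 (S.b 0) (S.b 1), S.eta⟫ ^ 2 := by
  simp only [zeta, uD, Fin.sum_univ_two, S.tw_11, S.tw_10, inner_neg_left, Nat.cast_ofNat]
  ring

theorem tw_inv {n : ℕ} (S : SF n V N) (hn : n = 2) : ∃ s x, S.u = 2 * s ∧ 0 ≤ x ∧ x ≤ s ∧
    S.zeta ≤ S.e2 * x ∧ S.G2 + S.CC = 4 * s ^ 2 + 8 * (x * (s - x)) ∧ S.cub = 0 := by
  subst hn
  have hu := S.tw_u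
  have hz := S.tw_zeta
  have h11 := S.tw_11
  have h10 := S.tw_10
  have hG : S.G2 + S.CC = 4 * (‖S.h0 (S.b 0) (S.b 0)‖ ^ 2 + ‖S.h0 (S.b 0) (S.b 1)‖ ^ 2) ^ 2 +
      8 * (‖S.h0 (S.b 0) (S.b 0)‖ ^ 2 * ‖S.h0 (S.b 0) (S.b 1)‖ ^ 2 -
        ⟪S.h0 (S.b 0) (S.b 0), S.h0 (S.b 0) (S.b 1)⟫ ^ 2) := by
    simp only [G2, CC, M0, J0, Fin.sum_univ_two, h11, h10, inner_neg_left, inner_neg_right,
      real_inner_self_eq_norm_sq, real_inner_comm (S.h0 (S.b 0) (S.b 0)) (S.h0 (S.b 0) (S.b 1))]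
    ring
  have hc : S.cub = 0 := by
    simp only [cub, M0, Fin.sum_univ_two, h11, h10, inner_neg_left, inner_neg_right,
      real_inner_self_eq_norm_sq, real_inner_comm (S.h0 (S.b 0) (S.b 0)) (S.h0 (S.b 0) (S.b 1))]
    ring
  generalize S.h0 (S.b 0) (S.b 0) = α at *
  generalize S.h0 (S.b 0) (S.b 1) = β at *
  have h1 : ⟪α, β⟫ ^ 2 ≤ ‖α‖ ^ 2 * ‖β‖ ^ 2 := by
    rw [← mul_pow, ← sq_abs]
    exact pow_le_pow_left₀ (abs_nonneg _) (abs_real_inner_le_norm _ _) 2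
  have h2 : (⟪α, S.eta⟫ ^ 2 + ⟪β, S.eta⟫ ^ 2) ^ 2 ≤ S.e2 * (⟪α, S.eta⟫ ^ 2 * ‖α‖ ^ 2 +
      2 * (⟪α, S.eta⟫ * ⟪β, S.eta⟫ * ⟪α, β⟫) + ⟪β, S.eta⟫ ^ 2 * ‖β‖ ^ 2) := by
    have h3 := real_inner_mul_inner_self_le (⟪α, S.eta⟫ • α + ⟪β, S.eta⟫ • β) S.eta
    simp only [inner_add_left, inner_add_right, real_inner_smul_left, real_inner_smul_right,
      real_inner_self_eq_norm_sq, real_inner_comm α β, norm_smul, mul_pow, Real.norm_eq_abs,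
      sq_abs] at h3
    unfold e2
    linarith
  obtain ⟨x, x0, x1, x2, x3⟩ := Two.exists_x (sq_nonneg _) (sq_nonneg _) (sq_nonneg _) h1 h2
  exact ⟨_, x, hu, x0, x1, hz ▸ x3, by rw [hG, x2], hc⟩

theorem tw_h (S : SF 2 V N) (c s : ℝ) :
    S.h (c • S.b 0 + s • S.b 1) (c • S.b 0 + s • S.b 1) = (c ^ 2 + s ^ 2) • S.eta +
      (c ^ 2 - s ^ 2) • S.h0 (S.b 0) (S.b 0) + (2 * c * s) • S.h0 (S.b 0) (S.b 1) := by
  have e : ∀ i j, S.h (S.b i) (S.b j) = S.h0 (S.b i) (S.b j) + ⟪S.b i, S.b j⟫ • S.eta :=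
    fun i j => by rw [h0, sub_add_cancel]
  have o := orthonormal_iff_ite.1 S.b.orthonormal
  simp only [map_add, map_smul, LinearMap.add_apply, LinearMap.smul_apply, e, o, S.tw_11, S.tw_10]
  simp only [if_true, zero_ne_one, one_ne_zero, if_false]
  module

omit [FiniteDimensional ℝ V] [FiniteDimensional ℝ N] in
theorem tw_norm (S : SF 2 V N) (c s c' s' : ℝ) :
    ⟪c • S.b 0 + s • S.b 1, c' • S.b 0 + s' • S.b 1⟫ = c * c' + s * s' := by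
  have o := orthonormal_iff_ite.1 S.b.orthonormal
  simp only [inner_add_left, inner_add_right, real_inner_smul_left, real_inner_smul_right, o]
  simp [mul_comm]

omit [FiniteDimensional ℝ V] [FiniteDimensional ℝ N] in
theorem tw_unit (S : SF 2 V N) {c s : ℝ} (h : c ^ 2 + s ^ 2 = 1) :
    ‖c • S.b 0 + s • S.b 1‖ = 1 := by
  rw [← pow_eq_one_iff_of_nonneg (norm_nonneg _) two_ne_zero, ← real_inner_self_eq_norm_sq,
    S.tw_norm]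
  linarith

theorem tw_four (S : SF 2 V N) : ∃ e1 e2 e3 e4 : V, ‖e1‖ = 1 ∧ ‖e2‖ = 1 ∧ ‖e3‖ = 1 ∧ ‖e4‖ = 1 ∧
    ⟪e1, e2⟫ = 0 ∧ ⟪e3, e4⟫ = 0 ∧ S.h e1 e1 = S.eta + S.h0 (S.b 0) (S.b 0) ∧
    S.h e2 e2 = S.eta - S.h0 (S.b 0) (S.b 0) ∧ S.h e3 e3 = S.eta + S.h0 (S.b 0) (S.b 1) ∧
    S.h e4 e4 = S.eta - S.h0 (S.b 0) (S.b 1) := by
  obtain ⟨t, ht⟩ : ∃ t : ℝ, t ^ 2 = 1 / 2 := ⟨√(1 / 2), Real.sq_sqrt (by norm_num)⟩
  refine ⟨(1 : ℝ) • S.b 0 + (0 : ℝ) • S.b 1, (0 : ℝ) • S.b 0 + (1 : ℝ) • S.b 1,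
    t • S.b 0 + t • S.b 1, t • S.b 0 + (-t) • S.b 1, S.tw_unit (by norm_num),
    S.tw_unit (by norm_num), S.tw_unit (by linarith), S.tw_unit (by linarith),
    by rw [S.tw_norm]; ring, by rw [S.tw_norm]; ring, ?_, ?_, ?_, ?_⟩ <;> rw [S.tw_h]
  · module
  · module
  · rw [show t ^ 2 + t ^ 2 = 1 by linarith, show 2 * t * t = 1 by linarith]
    module
  · rw [show t ^ 2 + (-t) ^ 2 = 1 by linarith, show 2 * t * -t = -1 by linarith]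
    module

theorem tw_sigma {n : ℕ} (S : SF n V N) (hn : n = 2) (H : ∀ e, ‖e‖ = 1 → ‖S.h e e‖ ^ 2 < 1 / 3) :
    S.u / 2 + 2 * √S.zeta + 2 * S.e2 < 2 / 3 := by
  subst hn
  obtain ⟨e1, e2, e3, e4, n1, n2, n3, n4, -, -, h1, h2, h3, h4⟩ := S.tw_four
  have k1 := H e1 n1
  have k2 := H e2 n2
  have k3 := H e3 n3
  have k4 := H e4 n4
  rw [h1, norm_add_sq_real, real_inner_comm] at k1
  rw [h2, norm_sub_sq_real, real_inner_comm] at k2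
  rw [h3, norm_add_sq_real, real_inner_comm] at k3
  rw [h4, norm_sub_sq_real, real_inner_comm] at k4
  rw [S.tw_u, S.tw_zeta, SF.e2]
  generalize ⟪S.h0 (S.b 0) (S.b 0), S.eta⟫ = a at *
  generalize ⟪S.h0 (S.b 0) (S.b 1), S.eta⟫ = b at *
  have h5 : √(a ^ 2 + b ^ 2) ≤ |a| + |b| := by
    refine Real.sqrt_le_iff.2 ⟨by positivity, ?_⟩
    nlinarith [sq_abs a, sq_abs b, mul_nonneg (abs_nonneg a) (abs_nonneg b)]
  rcases abs_cases a with ⟨ha, -⟩ | ⟨ha, -⟩ <;> rcases abs_cases b with ⟨hb, -⟩ | ⟨hb, -⟩ <;>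
    linarith

theorem tw_tau {n : ℕ} (S : SF n V N) (hn : n = 2) {c : ℝ}
    (H : ∀ e e', ‖e‖ = 1 → ‖e'‖ = 1 → ⟪e, e'⟫ = 0 → ‖S.h e e - S.h e' e'‖ ^ 2 ≤ c) : S.u ≤ c := by
  subst hn
  obtain ⟨e1, e2, e3, e4, n1, n2, n3, n4, o1, o2, h1, h2, h3, h4⟩ := S.tw_four
  have k1 := H e1 e2 n1 n2 o1
  have k2 := H e3 e4 n3 n4 o2
  have e : ∀ x y : N, ‖x + y - (x - y)‖ ^ 2 = 4 * ‖y‖ ^ 2 := fun x y => by
    rw [show x + y - (x - y) = (2 : ℝ) • y by module, norm_smul, Real.norm_ofNat]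
    ring
  rw [h1, h2, e] at k1
  rw [h3, h4, e] at k2
  rw [S.tw_u]
  linarith

end SF

namespace Arr

variable {ι : Type} [Fintype ι] {X : Arr ι ℝ} (h : X.Good) (hn : X.n = 2)
include h hn

theorem Good.tw_inv : ∃ s x, X.u = 2 * s ∧ 0 ≤ x ∧ x ≤ s ∧ X.zeta ≤ X.e2 * x ∧
    X.Ru = 8 * (X.zeta + s ^ 2 + 2 * (x * (s - x)) - s) ∧
    X.Re = 4 * (X.e2 * X.e2 + X.zeta + X.e2) ∧
    X.Zs = 4 * s * (1 + X.e2) - 4 * s ^ 2 - 8 * (x * (s - x)) := by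
  obtain ⟨S, r⟩ := h.exists_br
  obtain ⟨s, x, h1, h2, h3, h4, h5, h6⟩ := S.tw_inv hn
  have hn' : (X.n : ℝ) = 2 := by rw [hn]; norm_num
  have h7 : S.Ru = 8 * (S.zeta + s ^ 2 + 2 * (x * (s - x)) - s) := by
    rw [SF.Ru, hn', h1]
    linarith
  have h8 : S.Zs = 4 * s * (1 + S.e2) - 4 * s ^ 2 - 8 * (x * (s - x)) := by
    rw [SF.Zs, hn', h1, h6]
    linarith
  rw [r.Ru_eq h, r.zeta_eq h] at h7
  rw [r.Zs_eq h, r.e2_eq h] at h8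
  rw [r.zeta_eq h, r.e2_eq h] at h4
  refine ⟨s, x, r.u_eq h ▸ h1, h2, h3, h4, h7, ?_, h8⟩
  rw [Re, hn']
  ring

theorem Good.tw_sigma (H : ∀ e, X.UT e → ∑ d, (X.Tv e e d + X.F d) ^ 2 < 1 / 3) :
    X.u / 2 + 2 * √X.zeta + 2 * X.e2 < 2 / 3 := by
  obtain ⟨S, r⟩ := h.exists_br
  have := S.tw_sigma hn fun y hy => by
    have h1 := (UT_iff y).2 hy
    rw [← real_inner_self_eq_norm_sq, inner_N, dot]
    refine lt_of_eq_of_lt (Finset.sum_congr rfl fun c _ => ?_) (H _ h1)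
    rw [r.h_eq, h1.2]
    ring
  rwa [r.u_eq h, r.zeta_eq h, r.e2_eq h] at this

theorem Good.tw_tau {c : ℝ} (k : X.Tau c) : X.u ≤ c := by
  obtain ⟨S, r⟩ := h.exists_br
  have := S.tw_tau hn (c := c) fun y y' hy hy' hyy => by
    have h1 := (UT_iff y).2 hy
    have h2 := (UT_iff y').2 hy'
    have h3 := k _ _ h1 h2 (by rw [← inner_V, hyy])
    rw [← real_inner_self_eq_norm_sq, inner_N, dot]
    refine le_of_eq_of_le (Finset.sum_congr rfl fun c _ => ?_) h3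
    have h4 : (S.h y y - S.h y' y').1.ofLp c = (S.h y y).1.ofLp c - (S.h y' y').1.ofLp c := rfl
    rw [h4, r.h_eq, r.h_eq, h1.2, h2.2]
    ring
  rwa [r.u_eq h] at this

/-- An orthonormal frame of the tangent plane. -/
theorem Good.tw_frame : ∃ b : Matrix (Fin 2) ι ℝ, b * b.transpose = 1 ∧
    b.transpose * b = Matrix.of X.P := by
  obtain ⟨S, r⟩ := h.exists_br
  obtain ⟨n, P, F, T, B⟩ := X
  obtain rfl : n = 2 := hn
  refine ⟨Matrix.of fun i a => (S.b i).1.ofLp a, ?_, ?_⟩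
  · ext i j
    have o := orthonormal_iff_ite.1 S.b.orthonormal i j
    rw [inner_V] at o
    rw [Matrix.one_apply]
    exact o
  · ext a c
    exact r.compl a c

end Arr

end Pool.Agent.Lib.MP_de485e_gt.Hi
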