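import Pool.Agent.Lib.MP_de485e_gt.Two.Alg

/-! The reaction term of `zeta` and the gradient inequality for surfaces. -/

namespace Pool.Agent.Lib.MP_de485e_gt.Hi.Arr

open Matrix

variable {ι : Type} [Fintype ι]

theorem tw_anti0 {b : Matrix (Fin 2) ι ℝ} {P A B : Matrix ι ι ℝ} (h2 : bᵀ * b = P)
    (hA : P * A = A) (hA' : A * P = A) (sA : Aᵀ = A) (tA : trace A = 0)
    (hB : P * B = B) (hB' : B * P = B) (sB : Bᵀ = B) (tB : trace B = 0) :
    A * B + B * A = trace (A * B) • P := by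
  subst h2
  have s : ∀ {Z : Matrix ι ι ℝ}, Zᵀ = Z → (b * Z * bᵀ) 1 0 = (b * Z * bᵀ) 0 1 := fun {Z} hZ => by
    have := Br.Br2_tp b Z
    rw [hZ] at this
    exact congrFun (congrFun this 0) 1
  have t : ∀ {Z : Matrix ι ι ℝ}, bᵀ * b * Z = Z → trace Z = 0 →
      (b * Z * bᵀ) 1 1 = -(b * Z * bᵀ) 0 0 := fun {Z} hZ hz => by
    have := Br.Br2_trace b hZ
    rw [hz, trace_fin_two] at this
    linarith
  have m : ∀ {Z W : Matrix ι ι ℝ}, Z * (bᵀ * b) = Z →
      b * Z * bᵀ * (b * W * bᵀ) = b * (Z * W) * bᵀ := fun {Z W} hZ => by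
    calc b * Z * bᵀ * (b * W * bᵀ) = b * (Z * (bᵀ * b) * W) * bᵀ := by simp only [Matrix.mul_assoc]
      _ = _ := by rw [hZ]
  have e1 : b * A * bᵀ * (b * B * bᵀ) + b * B * bᵀ * (b * A * bᵀ) =
      trace (b * A * bᵀ * (b * B * bᵀ)) • (1 : Matrix (Fin 2) (Fin 2) ℝ) := by
    have a1 := s sA
    have a2 := s sB
    have a3 := t hA tA
    have a4 := t hB tB
    generalize b * A * bᵀ = x at *
    generalize b * B * bᵀ = y at *
    ext i j
    fin_cases i <;> fin_cases j <;>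
      simp [Matrix.mul_apply, trace_fin_two, Fin.sum_univ_two, a1, a2, a3, a4] <;> ring
  rw [m hA', m hB', Br.Br2_trace b (by rw [← Matrix.mul_assoc, hA])] at e1
  have e2 := congrArg (fun Z => bᵀ * Z * b) e1
  simp only [Matrix.mul_add, Matrix.add_mul, Matrix.mul_smul, Matrix.smul_mul, Matrix.mul_one] at e2
  have k : ∀ {Z W : Matrix ι ι ℝ}, bᵀ * b * Z = Z → W * (bᵀ * b) = W →
      bᵀ * (b * (Z * W) * bᵀ) * b = Z * W := fun {Z W} hZ hW => by
    calc bᵀ * (b * (Z * W) * bᵀ) * b = (bᵀ * b * Z) * (W * (bᵀ * b)) := by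
          simp only [Matrix.mul_assoc]
      _ = _ := by rw [hZ, hW]
  rwa [k hA hB', k hB hA'] at e2

theorem tw_tr4 {P Y B : Matrix ι ι ℝ} {ξ τ q y ω : ℝ} (hP : P * P = P) (hPY : P * Y = Y)
    (hPB : P * B = B) (hBP : B * P = B) (tP : trace P = 2) (tY : trace Y = 0)
    (hYY : Y * Y = ξ • P) (hBB : B * B = τ • P) (hq : trace (B * Y) = q)
    (hBY : B * Y + Y * B = q • P) :
    trace ((B + y • P) * (Y + ω • P) * (B + y • P) * Y) =
      q ^ 2 - 2 * (τ * ξ) + 2 * (y ^ 2 * ξ) + 2 * (ω * y * q) := by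
  have c1 : Y * B = q • P - B * Y := eq_sub_of_add_eq' hBY
  have c2 : Y * (B * Y) = q • Y - ξ • B := by
    rw [← Matrix.mul_assoc, c1, Matrix.sub_mul, Matrix.smul_mul, hPY, Matrix.mul_assoc, hYY,
      Matrix.mul_smul, hBP]
  simp only [Matrix.mul_add, Matrix.add_mul, Matrix.mul_smul, Matrix.smul_mul, Matrix.mul_assoc,
    hP, hPY, hPB, hBP, hYY, hBB, c2, Matrix.mul_sub, trace_add, trace_sub, trace_smul,
    smul_eq_mul, tP, tY, hq]
  ring

variable {X : Arr ι ℝ} (h : X.Good)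
include h

theorem Good.tw_PY : of X.P * of X.AH = of X.AH := by
  ext a b
  exact h.tw_tan b a

theorem Good.tw_YP : of X.AH * of X.P = of X.AH := by
  ext a b
  rw [mul_apply, of_apply, ← h.tw_tan' a b]
  exact Finset.sum_congr rfl fun d _ => by rw [of_apply, of_apply, h.Psymm d b, mul_comm]

theorem Good.tw_entry (a b c : ι) : X.twL a b c =
    (-((X.n : ℝ) • Good.A2_m X.T c) + (2 : ℝ) • ∑ e, X.G c e • Good.A2_m X.T e +
      (2 : ℝ) • (of X.M * Good.A2_m X.T c) + (2 : ℝ) • (Good.A2_m X.T c * of X.M) -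
      (2 : ℝ) • ∑ e, Good.A2_m X.T e * Good.A2_m X.T c * Good.A2_m X.T e) a b := by
  have e3 : ∑ d, ∑ f, (∑ e, X.T a d e * X.T b f e) * X.T d f c =
      ∑ e, (Good.A2_m X.T e * Good.A2_m X.T c * Good.A2_m X.T e) a b := by
    simp only [mul_apply, Good.A2_m_apply, Finset.sum_mul]
    rw [Good.A2_s3]
    refine Finset.sum_congr rfl fun e _ => Finset.sum_comm.trans ?_
    refine Finset.sum_congr rfl fun q _ => Finset.sum_congr rfl fun p _ => ?_
    rw [h.Tsymm b q e]
    ring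
  have e5 : ∑ d, X.M b d * X.T a d c = (Good.A2_m X.T c * of X.M) a b := by
    rw [mul_apply]
    exact Finset.sum_congr rfl fun d _ => by
      rw [Good.M_symm b d, Good.A2_m_apply, of_apply, mul_comm]
  rw [twL, e3, e5]
  simp only [Matrix.sub_apply, Matrix.add_apply, Matrix.neg_apply, Matrix.smul_apply,
    Matrix.sum_apply, smul_eq_mul, Good.A2_m_apply]
  rfl

variable (hn : X.n = 2)
include hn

omit h in
theorem tw_Xi : X.twXi = 8 * X.zeta := by
  rw [zeta, twXi, hn, smul_eq_mul]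
  ring

theorem Good.tw_Rz : X.twRz = 4 * (X.e2 + X.u / 2) * X.twXi := by
  obtain ⟨b, -, hb⟩ := h.tw_frame hn
  have hn' : (X.n : ℝ) = 2 := by rw [hn]; norm_num
  have sY : (of X.AH)ᵀ = of X.AH := by
    ext a c
    exact h.tw_symm c a
  have sB : ∀ e, (Good.A2_m X.T0 e)ᵀ = Good.A2_m X.T0 e := fun e => by
    ext a c
    exact h.T0_symm c a e
  have tY : trace (of X.AH) = 0 := h.tw_tr
  have tP : trace (of X.P) = 2 := h.A2_trP.trans hn'
  have pr : ∀ E : Matrix ι ι ℝ, ∑ a, ∑ d, X.AH a d * E a d = trace (E * of X.AH) := fun E =>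
    Good.A2_pair E (of X.AH) h.tw_symm
  have hXi : X.twXi = trace (of X.AH * of X.AH) := pr (of X.AH)
  have half : ∀ {Z : Matrix ι ι ℝ} {t : ℝ}, Z + Z = t • of X.P → Z = (t / 2) • of X.P :=
    fun {Z t} hZ => by
      rw [div_eq_inv_mul, mul_smul, ← hZ]
      module
  have hYY := half (tw_anti0 hb h.tw_PY h.tw_YP sY tY h.tw_PY h.tw_YP sY tY)
  rw [← hXi] at hYY
  have hBB := fun e => half (tw_anti0 hb (h.A2_PA e) (h.A2_AP e) (sB e) (h.A2_trA e)
    (h.A2_PA e) (h.A2_AP e) (sB e) (h.A2_trA e))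
  have hBY := fun e => tw_anti0 hb (h.A2_PA e) (h.A2_AP e) (sB e) (h.A2_trA e)
    h.tw_PY h.tw_YP sY tY
  have hu : X.u = ∑ c, trace (Good.A2_m X.T0 c * Good.A2_m X.T0 c) := by
    rw [h.u_eq, Good.A2_s3]
    exact Finset.sum_congr rfl fun c _ => Good.A2_G h.T0_symm c c
  have hW : ∑ e, X.HH e * X.HH e = 4 * (1 + X.e2) := by
    have := h.W_eq
    rw [hn', W] at this
    linarith
  have hT : ∀ e, Good.A2_m X.T e = Good.A2_m X.T0 e + (X.HH e / 2) • of X.P := fun e => by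
    rw [Good.A2_T, hn', Algebra.algebraMap_self, RingHom.id_apply, div_eq_inv_mul]
  have hY : ∑ c, X.HH c • Good.A2_m X.T0 c = of X.AH := by
    ext a d
    simp only [Matrix.sum_apply, Matrix.smul_apply, Good.A2_m_apply, smul_eq_mul, of_apply, AH,
      mul_comm]
  have hA : ∑ c, X.HH c • Good.A2_m X.T c = of X.AH + (2 * (1 + X.e2)) • of X.P := by
    simp only [hT, smul_add, Finset.sum_add_distrib, hY, smul_smul, ← Finset.sum_smul,
      ← mul_div_assoc, ← Finset.sum_div, hW]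
    congr 2
    ring
  have hM : of X.M = of X.AH + (X.u / 2 + 1 + X.e2) • of X.P := by
    have h1 : of X.M0 = (X.u / 2) • of X.P := by
      rw [hu, Finset.sum_div, Finset.sum_smul, ← Finset.sum_congr rfl fun e _ => hBB e]
      ext a d
      exact Good.A2_M h.T0_symm a d
    ext a d
    have h2 := congrFun (congrFun h1 a) d
    simp only [of_apply, Matrix.add_apply, Matrix.smul_apply, smul_eq_mul] at h2 ⊢
    rw [h.M_eq, h2, hn', smul_eq_mul]
    ring
  obtain ⟨q, hq⟩ : ∃ q : ι → ℝ, ∀ e, trace (Good.A2_m X.T0 e * of X.AH) = q e := ⟨_, fun _ => rfl⟩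
  have hq1 : ∑ e, X.HH e * q e = X.twXi := by
    rw [hXi]
    nth_rewrite 1 [← hY]
    simp only [Matrix.sum_mul, Matrix.smul_mul, trace_sum, trace_smul, smul_eq_mul, hq]
  have hq2 : ∀ e, trace (Good.A2_m X.T e * of X.AH) = q e := fun e => by
    rw [hT, Matrix.add_mul, Matrix.smul_mul, h.tw_PY, trace_add, trace_smul, tY, smul_zero,
      add_zero, hq]
  have hq3 : ∀ e, ∑ c, X.HH c * X.G c e = q e + 2 * (1 + X.e2) * X.HH e := fun e => by
    have h1 : ∀ c, X.G c e = trace (Good.A2_m X.T e * Good.A2_m X.T c) :=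
      fun c => Good.A2_G h.Tsymm c e
    have h2 := congrArg (fun Z => trace (Good.A2_m X.T e * Z)) hA
    simp only [Matrix.mul_sum, Matrix.mul_smul, Matrix.mul_add, trace_sum, trace_smul, trace_add,
      smul_eq_mul, hq2, ← h1] at h2
    rw [h2, hT, Matrix.add_mul, Matrix.smul_mul, h.A2_AP, h.A2_PP, trace_add, trace_smul,
      h.A2_trA, tP, smul_eq_mul]
    ring
  have t1 : ∑ a, ∑ b, ∑ c, X.AH a b * X.HH c * X.twL a b c =
      -(2 * trace ((∑ c, X.HH c • Good.A2_m X.T c) * of X.AH)) +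
      2 * ∑ e, (∑ c, X.HH c * X.G c e) * q e +
      2 * trace (of X.M * (∑ c, X.HH c • Good.A2_m X.T c) * of X.AH) +
      2 * trace ((∑ c, X.HH c • Good.A2_m X.T c) * of X.M * of X.AH) -
      2 * ∑ e, trace (Good.A2_m X.T e * (∑ c, X.HH c • Good.A2_m X.T c) * Good.A2_m X.T e *
        of X.AH) := by
    rw [Good.A2_s3]
    simp only [mul_comm (X.AH _ _) (X.HH _), mul_assoc, ← Finset.mul_sum, h.tw_entry, pr, hn']
    simp only [Matrix.mul_smul, Matrix.smul_mul, Matrix.add_mul,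
      Matrix.sub_mul, Matrix.neg_mul, trace_sum, trace_smul, trace_add, trace_sub, trace_neg,
      smul_eq_mul, hq2, Finset.sum_mul, Finset.mul_sum, mul_add, mul_sub, mul_neg,
      Finset.sum_add_distrib, Finset.sum_sub_distrib, Finset.sum_neg_distrib, Matrix.mul_assoc]
    congr 1
    · congr 1
      · congr 1
        · congr 1
          · exact congrArg _ (Finset.sum_congr rfl fun _ _ => by ring)
          · exact Finset.sum_comm.trans (Finset.sum_congr rfl fun _ _ =>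
              Finset.sum_congr rfl fun _ _ => by ring)
        · exact Finset.sum_congr rfl fun _ _ => by ring
      · exact Finset.sum_congr rfl fun _ _ => by ring
    · exact Finset.sum_comm.trans (Finset.sum_congr rfl fun _ _ =>
        Finset.sum_congr rfl fun _ _ => by ring)
  have t2 : ∑ e, trace (Good.A2_m X.T e * (of X.AH + (2 * (1 + X.e2)) • of X.P) *
      Good.A2_m X.T e * of X.AH) = ∑ e, q e ^ 2 - X.u * (X.twXi / 2) + (1 + X.e2) * X.twXi +
        2 * (1 + X.e2) * X.twXi := by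
    have e1 : ∀ e, trace (Good.A2_m X.T e * (of X.AH + (2 * (1 + X.e2)) • of X.P) *
        Good.A2_m X.T e * of X.AH) = q e ^ 2 -
          trace (Good.A2_m X.T0 e * Good.A2_m X.T0 e) * (X.twXi / 2) +
          X.HH e * X.HH e * (X.twXi / 4) + 2 * (1 + X.e2) * (X.HH e * q e) := fun e => by
      rw [hT, tw_tr4 h.A2_PP h.tw_PY (h.A2_PA e) (h.A2_AP e) tP tY hYY (hBB e) (hq e)
        (hq e ▸ hBY e)]
      ring
    simp only [e1, Finset.sum_add_distrib, Finset.sum_sub_distrib, ← Finset.sum_mul,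
      ← Finset.mul_sum]
    rw [← hu, hW, hq1]
    ring
  have t3 : ∑ e, (∑ c, X.HH c * X.G c e) * q e = ∑ e, q e ^ 2 + 2 * (1 + X.e2) * X.twXi := by
    rw [← hq1, Finset.mul_sum, ← Finset.sum_add_distrib]
    exact Finset.sum_congr rfl fun e _ => by rw [hq3]; ring
  have t4 : ∑ e, ∑ f, X.M e f * ∑ b, X.AH e b * X.AH f b =
      trace (of X.AH * of X.AH * of X.M) := by
    rw [← Good.A2_pair _ (of X.M) Good.M_symm]
    refine Finset.sum_congr rfl fun e _ => Finset.sum_congr rfl fun f _ => ?_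
    simp only [mul_apply, of_apply, h.tw_symm f]
  have t5 : ∑ a, ∑ b, X.AH a b * X.M a b = trace (of X.M * of X.AH) := pr (of X.M)
  rw [twRz, t1, hA, t2, t3, t4, t5, hM, h.W_eq, hn']
  simp only [Matrix.mul_add, Matrix.add_mul, Matrix.mul_smul, Matrix.smul_mul, h.A2_PP, h.tw_PY,
    h.tw_YP, hYY, trace_add, trace_smul, smul_eq_mul, tP, tY]
  ring

end Pool.Agent.Lib.MP_de485e_gt.Hi.Arr
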