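import Pool.Agent.Lib.MP_de485e_gt.Two.Real1

/-! The two barrier curves: splines with `G - k r ^ 2` concave. -/

namespace Pool.Agent.Lib.MP_de485e_gt.Two

theorem bp2 {a b r E : ℝ} (c0 c1 c2 : ℝ) (h1 : a ≤ r) (h2 : r ≤ b)
    (hc : 0 ≤ c0 ∧ 0 ≤ c1 ∧ 0 ≤ c2)
    (e : -E =
      c0 * ((r - a) ^ 0 * (b - r) ^ 2) + c1 * ((r - a) ^ 1 * (b - r) ^ 1) + c2 * ((r - a) ^ 2 * (b
        - r) ^ 0)) :
    E ≤ 0 := by
  obtain ⟨_, _, _⟩ := hc
  have := sub_nonneg.2 h1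
  have := sub_nonneg.2 h2
  rw [← neg_nonneg, e]
  positivity

theorem bp5 {a b r E : ℝ} (c0 c1 c2 c3 c4 c5 : ℝ) (h1 : a ≤ r) (h2 : r ≤ b)
    (hc : 0 ≤ c0 ∧ 0 ≤ c1 ∧ 0 ≤ c2 ∧ 0 ≤ c3 ∧ 0 ≤ c4 ∧ 0 ≤ c5)
    (e : -E =
      c0 * ((r - a) ^ 0 * (b - r) ^ 5) + c1 * ((r - a) ^ 1 * (b - r) ^ 4) + c2 * ((r - a) ^ 2 * (b
        - r) ^ 3) + c3 * ((r - a) ^ 3 * (b - r) ^ 2) + c4 * ((r - a) ^ 4 * (b - r) ^ 1) + c5 * ((r
        - a) ^ 5 * (b - r) ^ 0)) :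
    E ≤ 0 := by
  obtain ⟨_, _, _, _, _, _⟩ := hc
  have := sub_nonneg.2 h1
  have := sub_nonneg.2 h2
  rw [← neg_nonneg, e]
  positivity

theorem bp8 {a b r E : ℝ} (c0 c1 c2 c3 c4 c5 c6 c7 c8 : ℝ) (h1 : a ≤ r) (h2 : r ≤ b)
    (hc : 0 ≤ c0 ∧ 0 ≤ c1 ∧ 0 ≤ c2 ∧ 0 ≤ c3 ∧ 0 ≤ c4 ∧ 0 ≤ c5 ∧ 0 ≤ c6 ∧ 0 ≤ c7 ∧ 0 ≤ c8)
    (e : -E =
      c0 * ((r - a) ^ 0 * (b - r) ^ 8) + c1 * ((r - a) ^ 1 * (b - r) ^ 7) + c2 * ((r - a) ^ 2 * (b
        - r) ^ 6) + c3 * ((r - a) ^ 3 * (b - r) ^ 5) + c4 * ((r - a) ^ 4 * (b - r) ^ 4) + c5 * ((r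
        - a) ^ 5 * (b - r) ^ 3) + c6 * ((r - a) ^ 6 * (b - r) ^ 2) + c7 * ((r - a) ^ 7 * (b - r) ^
        1) + c8 * ((r - a) ^ 8 * (b - r) ^ 0)) :
    E ≤ 0 := by
  obtain ⟨_, _, _, _, _, _, _, _, _⟩ := hc
  have := sub_nonneg.2 h1
  have := sub_nonneg.2 h2
  rw [← neg_nonneg, e]
  positivity

theorem rp2 {a r E : ℝ} (c0 c1 c2 : ℝ) (h1 : a ≤ r)
    (hc : 0 ≤ c0 ∧ 0 ≤ c1 ∧ 0 ≤ c2)
    (e : -E =
      c0 * (r - a) ^ 0 + c1 * (r - a) ^ 1 + c2 * (r - a) ^ 2) :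
    E ≤ 0 := by
  obtain ⟨_, _, _⟩ := hc
  have := sub_nonneg.2 h1
  rw [← neg_nonneg, e]
  positivity

theorem rp5 {a r E : ℝ} (c0 c1 c2 c3 c4 c5 : ℝ) (h1 : a ≤ r)
    (hc : 0 ≤ c0 ∧ 0 ≤ c1 ∧ 0 ≤ c2 ∧ 0 ≤ c3 ∧ 0 ≤ c4 ∧ 0 ≤ c5)
    (e : -E =
      c0 * (r - a) ^ 0 + c1 * (r - a) ^ 1 + c2 * (r - a) ^ 2 + c3 * (r - a) ^ 3 + c4 * (r - a) ^ 4
        + c5 * (r - a) ^ 5) :
    E ≤ 0 := by
  obtain ⟨_, _, _, _, _, _⟩ := hc
  have := sub_nonneg.2 h1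
  rw [← neg_nonneg, e]
  positivity

noncomputable def pl (a r : ℝ) : ℝ := max (r - a) 0 ^ 2

noncomputable def dpl (a r : ℝ) : ℝ := 2 * max (r - a) 0

noncomputable def ps (a b r : ℝ) : ℝ := max (r - a) 0 ^ 2 - max (r - b) 0 ^ 2

noncomputable def dps (a b r : ℝ) : ℝ := 2 * (max (r - a) 0 - max (r - b) 0)

noncomputable def p0 (r : ℝ) : ℝ :=
  5 / 2 * min r (11 / 500) ^ 2 - 189 / 500 * min r (11 / 500) ^ 3 +
    13681393 / 125000000 * max (r - 11 / 500) 0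

noncomputable def dp0 (r : ℝ) : ℝ := 5 * min r (11 / 500) - 567 / 500 * min r (11 / 500) ^ 2

theorem dpl_nonneg (a r : ℝ) : 0 ≤ dpl a r := by
  unfold dpl
  positivity

theorem dps_nonneg {a b : ℝ} (h : a ≤ b) (r : ℝ) : 0 ≤ dps a b r := by
  have : max (r - b) 0 ≤ max (r - a) 0 := max_le_max (by linarith) le_rfl
  unfold dps
  linarith

theorem dp0_nonneg {r : ℝ} (h : 0 ≤ r) : 0 ≤ dp0 r := by
  have h1 : 0 ≤ min r (11 / 500) := le_min h (by norm_num)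
  have h2 : min r (11 / 500) ≤ 11 / 500 := min_le_right _ _
  unfold dp0
  nlinarith

theorem pl_sup (a x y : ℝ) : pl a x + dpl a x * (y - x) ≤ pl a y := by
  unfold pl dpl
  rcases le_total (x - a) 0 with h | h
  · rw [max_eq_right h]
    nlinarith [sq_nonneg (max (y - a) 0)]
  · rw [max_eq_left h]
    have h1 := mul_le_mul_of_nonneg_left (le_max_left (y - a) 0) h
    nlinarith [sq_nonneg (max (y - a) 0 - (x - a))]

theorem ps_sup {a b : ℝ} (hab : a ≤ b) (x y : ℝ) : ps a b x + dps a b x * (y - x) ≤ ps a b y := by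
  unfold ps dps
  rcases le_total (x - a) 0 with h1 | h1 <;> rcases le_total (x - b) 0 with h2 | h2 <;>
    rcases le_total (y - a) 0 with h3 | h3 <;> rcases le_total (y - b) 0 with h4 | h4 <;>
    simp only [max_eq_right, max_eq_left, h1, h2, h3, h4] <;>
    nlinarith [sq_nonneg (y - x), sq_nonneg (y - a), sq_nonneg (y - b), sq_nonneg (x - a),
      sq_nonneg (x - b), mul_nonneg (sub_nonneg.2 hab) (sub_nonneg.2 hab)]

theorem p0_sup (x y : ℝ) : p0 x + dp0 x * (y - x) ≤ p0 y := by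
  unfold p0 dp0
  have k : ∀ u v : ℝ, u ≤ 11 / 500 → v ≤ 11 / 500 →
      0 ≤ (u - v) ^ 2 * (5 / 2 - 189 / 500 * (u + 2 * v)) := fun u v hu hv =>
    mul_nonneg (sq_nonneg _) (by linarith)
  rcases le_total x (11 / 500) with h1 | h1 <;> rcases le_total y (11 / 500) with h2 | h2
  · rw [min_eq_left h1, min_eq_left h2, max_eq_right (sub_nonpos.2 h1),
      max_eq_right (sub_nonpos.2 h2)]
    linarith [k y x h2 h1]
  · rw [min_eq_left h1, min_eq_right h2, max_eq_right (sub_nonpos.2 h1),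
      max_eq_left (sub_nonneg.2 h2)]
    have := mul_nonneg (sub_nonneg.2 h2) (mul_nonneg (sub_nonneg.2 h1)
      (show 0 ≤ 5 - 567 / 500 * (11 / 500 + x) by linarith))
    linarith [k (11 / 500) x le_rfl h1]
  · rw [min_eq_right h1, min_eq_left h2, max_eq_left (sub_nonneg.2 h1),
      max_eq_right (sub_nonpos.2 h2)]
    linarith [k y (11 / 500) h2 le_rfl]
  · rw [min_eq_right h1, min_eq_right h2, max_eq_left (sub_nonneg.2 h1),
      max_eq_left (sub_nonneg.2 h2)]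
    linarith

/-- The curve of the barrier `s ≤ GB r`. -/
noncomputable def GB (r : ℝ) : ℝ := 2 / 3 + 1 / 2 * r ^ 2 -
  (p0 r + 1223 / 500 * ps (11 / 500) (4 / 125) r + 1139 / 500 * ps (4 / 125) (9 / 200) r + 1801 /
    1000 * ps (9 / 200) (3 / 50) r + 146 / 125 * ps (3 / 50) (3 / 40) r + 269 / 500 * ps (3 / 40)
    (9 / 100) r + 51 / 500 * ps (7 / 50) (9 / 50) r + 107 / 1000 * ps (9 / 50) (1 / 4) r + 7 / 200
    * ps (1 / 4) (7 / 20) r + 1 / 40 * ps (7 / 20) (1 / 2) r + 63 / 1000 * ps (1 / 2) (7 / 10) r +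
    117 / 1000 * ps (7 / 10) 1 r + 31 / 200 * ps 1 (7 / 5) r + 179 / 1000 * ps (7 / 5) 2 r + 1 / 6
    * pl 2 r)

noncomputable def cB (r : ℝ) : ℝ :=
  dp0 r + 1223 / 500 * dps (11 / 500) (4 / 125) r + 1139 / 500 * dps (4 / 125) (9 / 200) r + 1801 /
    1000 * dps (9 / 200) (3 / 50) r + 146 / 125 * dps (3 / 50) (3 / 40) r + 269 / 500 * dps (3 /
    40) (9 / 100) r + 51 / 500 * dps (7 / 50) (9 / 50) r + 107 / 1000 * dps (9 / 50) (1 / 4) r + 7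
    / 200 * dps (1 / 4) (7 / 20) r + 1 / 40 * dps (7 / 20) (1 / 2) r + 63 / 1000 * dps (1 / 2) (7 /
    10) r + 117 / 1000 * dps (7 / 10) 1 r + 31 / 200 * dps 1 (7 / 5) r + 179 / 1000 * dps (7 / 5) 2
    r + 1 / 6 * dpl 2 r

/-- The curve of the barrier `s + 3 / 25 p ≤ GA r`. -/
noncomputable def GA (r : ℝ) : ℝ := 2 / 3 + 219 / 500 * r ^ 2 -
  (1209 / 500 * ps 0 (11 / 500) r + 1471 / 1000 * ps (11 / 500) (4 / 125) r + 273 / 250 * ps (4 /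
    125) (9 / 200) r + 104 / 125 * ps (9 / 200) (3 / 50) r + 129 / 200 * ps (3 / 50) (3 / 40) r)

noncomputable def cA (r : ℝ) : ℝ :=
  1209 / 500 * dps 0 (11 / 500) r + 1471 / 1000 * dps (11 / 500) (4 / 125) r + 273 / 250 * dps (4 /
    125) (9 / 200) r + 104 / 125 * dps (9 / 200) (3 / 50) r + 129 / 200 * dps (3 / 50) (3 / 40) r

/-- `G - k r ^ 2` is concave with slope `-c ≤ 0`. -/
structure Bar (G c : ℝ → ℝ) (k : ℝ) : Prop where
  cont : Continuous G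
  c0 : ∀ r, 0 ≤ r → 0 ≤ c r
  sup : ∀ x y, G y ≤ G x + k * (y ^ 2 - x ^ 2) - c x * (y - x)

theorem barB : Bar GB cB (1 / 2) where
  cont := by
    unfold GB p0 ps pl
    fun_prop
  c0 r hr := by
    unfold cB
    linarith [dp0_nonneg hr, dps_nonneg (a := 11 / 500) (b := 4 / 125) (by norm_num) r, dps_nonneg
      (a := 4 / 125) (b := 9 / 200) (by norm_num) r, dps_nonneg (a := 9 / 200) (b := 3 / 50) (by
      norm_num) r, dps_nonneg (a := 3 / 50) (b := 3 / 40) (by norm_num) r, dps_nonneg (a := 3 / 40)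
      (b := 9 / 100) (by norm_num) r, dps_nonneg (a := 7 / 50) (b := 9 / 50) (by norm_num) r,
      dps_nonneg (a := 9 / 50) (b := 1 / 4) (by norm_num) r, dps_nonneg (a := 1 / 4) (b := 7 / 20)
      (by norm_num) r, dps_nonneg (a := 7 / 20) (b := 1 / 2) (by norm_num) r, dps_nonneg (a := 1 /
      2) (b := 7 / 10) (by norm_num) r, dps_nonneg (a := 7 / 10) (b := 1) (by norm_num) r,
      dps_nonneg (a := 1) (b := 7 / 5) (by norm_num) r, dps_nonneg (a := 7 / 5) (b := 2) (by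
      norm_num) r, dpl_nonneg 2 r]
  sup x y := by
    unfold GB cB
    linarith [p0_sup x y, ps_sup (a := 11 / 500) (b := 4 / 125) (by norm_num) x y, ps_sup (a := 4 /
      125) (b := 9 / 200) (by norm_num) x y, ps_sup (a := 9 / 200) (b := 3 / 50) (by norm_num) x y,
      ps_sup (a := 3 / 50) (b := 3 / 40) (by norm_num) x y, ps_sup (a := 3 / 40) (b := 9 / 100) (by
      norm_num) x y, ps_sup (a := 7 / 50) (b := 9 / 50) (by norm_num) x y, ps_sup (a := 9 / 50) (b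
      := 1 / 4) (by norm_num) x y, ps_sup (a := 1 / 4) (b := 7 / 20) (by norm_num) x y, ps_sup (a
      := 7 / 20) (b := 1 / 2) (by norm_num) x y, ps_sup (a := 1 / 2) (b := 7 / 10) (by norm_num) x
      y, ps_sup (a := 7 / 10) (b := 1) (by norm_num) x y, ps_sup (a := 1) (b := 7 / 5) (by
      norm_num) x y, ps_sup (a := 7 / 5) (b := 2) (by norm_num) x y, pl_sup 2 x y]

theorem barA : Bar GA cA (219 / 500) where
  cont := by
    unfold GA ps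
    fun_prop
  c0 r _ := by
    unfold cA
    linarith [dps_nonneg (a := 0) (b := 11 / 500) (by norm_num) r, dps_nonneg (a := 11 / 500) (b :=
      4 / 125) (by norm_num) r, dps_nonneg (a := 4 / 125) (b := 9 / 200) (by norm_num) r,
      dps_nonneg (a := 9 / 200) (b := 3 / 50) (by norm_num) r, dps_nonneg (a := 3 / 50) (b := 3 /
      40) (by norm_num) r]
  sup x y := by
    unfold GA cA
    linarith [ps_sup (a := 0) (b := 11 / 500) (by norm_num) x y, ps_sup (a := 11 / 500) (b := 4 /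
      125) (by norm_num) x y, ps_sup (a := 4 / 125) (b := 9 / 200) (by norm_num) x y, ps_sup (a :=
      9 / 200) (b := 3 / 50) (by norm_num) x y, ps_sup (a := 3 / 50) (b := 3 / 40) (by norm_num) x
      y]

end Pool.Agent.Lib.MP_de485e_gt.Two
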