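import Pool.Agent.Lib.MP_de485e_gt.Two.Pieces

/-! The reaction inequality along `GB` and elementary bounds. -/

namespace Pool.Agent.Lib.MP_de485e_gt.Two

theorem rB0_0 {r p x : ℝ} (h1 : 0 ≤ r) (h2 : r ≤ 11 / 500) (hp : 0 ≤ p) (hP : p ^ 2 ≤ r ^ 2 * x)
    (hA : GB r + 3 / 25 * p ≤ GA r) : Rc 0 (2 * (1 / 2) * r - cB r) r (GB r) p x ≤ 0 := by
  have hD : 2 * (1 / 2) * r - cB r ≤ 2 * r := by linarith [barB.c0 r (by linarith)]
  obtain ⟨e1, e2⟩ := evB0 (r := r) (by linarith) (by linarith)
  obtain ⟨e3, e4⟩ := evA0 (r := r) (by linarith) (by linarith)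
  rw [e1, e3] at hA
  rw [e2] at hD
  rw [e1, e2]
  exact cellB (π := 25 / 3 * (gA0 r - gB0 r)) (l := 0) (by linarith) hD (by norm_num)
    (by norm_num) hp (by linarith) hP
    (bp8 0 0 0 0 (23625000000 / 14641) (216812500000 / 43923) (75425545375 / 14641) (3562236566093
      / 1830125) (1031007137575829 / 8784600000) h1 h2 (by norm_num) (by unfold gB0 kB0 gA0; ring))

theorem rB1_0 {r p x : ℝ} (h1 : 11 / 500 ≤ r) (h2 : r ≤ 4 / 125) (hp : 0 ≤ p) (hP : p ^ 2 ≤ r ^ 2 * x)
    (hA : GB r + 3 / 25 * p ≤ GA r) : Rc 0 (2 * (1 / 2) * r - cB r) r (GB r) p x ≤ 0 := by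
  have hD : 2 * (1 / 2) * r - cB r ≤ 2 * r := by linarith [barB.c0 r (by linarith)]
  obtain ⟨e1, e2⟩ := evB1 (r := r) (by linarith) (by linarith)
  obtain ⟨e3, e4⟩ := evA1 (r := r) (by linarith) (by linarith)
  rw [e1, e3] at hA
  rw [e2] at hD
  rw [e1, e2]
  exact cellB (π := 25 / 3 * (gA1 r - gB1 r)) (l := 0) (by linarith) hD (by norm_num)
    (by norm_num) hp (by linarith) hP
    (bp5 (15094975501247712389 / 234375000000000000) (135202579943757190183 / 46875000000000000)
      (171026333910360656453 / 15625000000000000) (718156775916579069257 / 46875000000000000)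
      (49217500108088521 / 6103515625000) (29329194713046379 / 57220458984375) h1 h2 (by norm_num)
      (by unfold gB1 kB1 gA1; ring))

theorem rB2_0 {r p x : ℝ} (h1 : 4 / 125 ≤ r) (h2 : r ≤ 9 / 200) (hp : 0 ≤ p) (hP : p ^ 2 ≤ r ^ 2 * x)
    (hA : GB r + 3 / 25 * p ≤ GA r) : Rc 0 (2 * (1 / 2) * r - cB r) r (GB r) p x ≤ 0 := by
  have hD : 2 * (1 / 2) * r - cB r ≤ 2 * r := by linarith [barB.c0 r (by linarith)]
  obtain ⟨e1, e2⟩ := evB2 (r := r) (by linarith) (by linarith)
  obtain ⟨e3, e4⟩ := evA2 (r := r) (by linarith) (by linarith)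
  rw [e1, e3] at hA
  rw [e2] at hD
  rw [e1, e2]
  exact cellB (π := 25 / 3 * (gA2 r - gB2 r)) (l := 0) (by linarith) hD (by norm_num)
    (by norm_num) hp (by linarith) hP
    (bp5 (938534230817484128 / 6798577880859375) (24546007544422976094 / 2266192626953125)
      (9583743742853403643251 / 232058125000000000) (190834586081765770483451 /
      3480871875000000000) (29806996614756846074821 / 1160290625000000000) (1126090612085781827643
      / 1160290625000000000) h1 h2 (by norm_num) (by unfold gB2 kB2 gA2; ring))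

theorem rB3_0 {r p x : ℝ} (h1 : 9 / 200 ≤ r) (h2 : r ≤ 3 / 50) (hp : 0 ≤ p) (hP : p ^ 2 ≤ r ^ 2 * x)
    (hA : GB r + 3 / 25 * p ≤ GA r) : Rc 0 (2 * (1 / 2) * r - cB r) r (GB r) p x ≤ 0 := by
  have hD : 2 * (1 / 2) * r - cB r ≤ 2 * r := by linarith [barB.c0 r (by linarith)]
  obtain ⟨e1, e2⟩ := evB3 (r := r) (by linarith) (by linarith)
  obtain ⟨e3, e4⟩ := evA3 (r := r) (by linarith) (by linarith)
  rw [e1, e3] at hA
  rw [e2] at hD
  rw [e1, e2]
  exact cellB (π := 25 / 3 * (gA3 r - gB3 r)) (l := 0) (by linarith) hD (by norm_num)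
    (by norm_num) hp (by linarith) hP
    (bp5 (375363537361927275881 / 791015625000000000) (4623460065263210262469 / 158203125000000000)
      (16214175577638521223769 / 158203125000000000) (3927681790799470279151 / 31640625000000000)
      (8278809968653200159823 / 158203125000000000) (1316909436978175121471 / 791015625000000000)
      h1 h2 (by norm_num) (by unfold gB3 kB3 gA3; ring))

theorem rB4_0 {r p x : ℝ} (h1 : 3 / 50 ≤ r) (h2 : r ≤ 3 / 40) (hp : 0 ≤ p) (hP : p ^ 2 ≤ r ^ 2 * x)
    (hA : GB r + 3 / 25 * p ≤ GA r) : Rc 0 (2 * (1 / 2) * r - cB r) r (GB r) p x ≤ 0 := by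
  have hD : 2 * (1 / 2) * r - cB r ≤ 2 * r := by linarith [barB.c0 r (by linarith)]
  obtain ⟨e1, e2⟩ := evB4 (r := r) (by linarith) (by linarith)
  obtain ⟨e3, e4⟩ := evA4 (r := r) (by linarith) (by linarith)
  rw [e1, e3] at hA
  rw [e2] at hD
  rw [e1, e2]
  exact cellB (π := 25 / 3 * (gA4 r - gB4 r)) (l := 0) (by linarith) hD (by norm_num)
    (by norm_num) hp (by linarith) hP
    (bp5 (1316909436978175121471 / 791015625000000000) (3076327294696955569123 / 52734375000000000)
      (9807406456368792925313 / 52734375000000000) (6613153058795487366059 / 31640625000000000)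
      (4409283008685526737551 / 52734375000000000) (1017484975592541417037 / 263671875000000000) h1
      h2 (by norm_num) (by unfold gB4 kB4 gA4; ring))

theorem rB5_0 {r p x : ℝ} (h1 : 3 / 40 ≤ r) (h2 : r ≤ 9 / 100) (hp : 0 ≤ p) (hP : p ^ 2 ≤ r ^ 2 * x)
    (hA : GB r + 3 / 25 * p ≤ GA r) : Rc 0 (2 * (1 / 2) * r - cB r) r (GB r) p x ≤ 0 := by
  have hD : 2 * (1 / 2) * r - cB r ≤ 2 * r := by linarith [barB.c0 r (by linarith)]
  obtain ⟨e1, e2⟩ := evB5 (r := r) (by linarith) (by linarith)
  obtain ⟨e3, e4⟩ := evA5 (r := r) (by linarith)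
  rw [e1, e3] at hA
  rw [e2] at hD
  rw [e1, e2]
  exact cellB (π := 25 / 3 * (gA5 r - gB5 r)) (l := 0) (by linarith) hD (by norm_num)
    (by norm_num) hp (by linarith) hP
    (bp5 (1017484975592541417037 / 263671875000000000) (633978159903118885447 / 5859375000000000)
      (55143819999859559414209 / 158203125000000000) (4401867014177385618329 / 10546875000000000)
      (49145887030747472121 / 244140625000000) (1390703088640356099011 / 49438476562500000) h1 h2
      (by norm_num) (by unfold gB5 kB5 gA5; ring))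

theorem rB6_0 {r p x : ℝ} (h1 : 9 / 100 ≤ r) (h2 : r ≤ 11 / 100) (hp : 0 ≤ p) (hP : p ^ 2 ≤ r ^ 2 * x)
    (hA : GB r + 3 / 25 * p ≤ GA r) : Rc 0 (2 * (1 / 2) * r - cB r) r (GB r) p x ≤ 0 := by
  have hD : 2 * (1 / 2) * r - cB r ≤ 2 * r := by linarith [barB.c0 r (by linarith)]
  obtain ⟨e1, e2⟩ := evB6 (r := r) (by linarith) (by linarith)
  obtain ⟨e3, e4⟩ := evA5 (r := r) (by linarith)
  rw [e1, e3] at hA
  rw [e2] at hD
  rw [e1, e2]
  exact cellB (π := 25 / 3 * (gA5 r - gB6 r)) (l := 0) (by linarith) hD (by norm_num)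
    (by norm_num) hp (by linarith) hP
    (bp5 (4172109265921068297033 / 625000000000000000) (385179645204407987259 / 5000000000000000)
      (29158929014376134993719 / 125000000000000000) (341185724613261229867357 /
      1125000000000000000) (2837214788622451580057 / 15625000000000000) (6440063714181475644667 /
      156250000000000000) h1 h2 (by norm_num) (by unfold gB6 kB6 gA5; ring))

theorem rB7_0 {r p x : ℝ} (h1 : 11 / 100 ≤ r) (h2 : r ≤ 7 / 50) (hp : 0 ≤ p) (hP : p ^ 2 ≤ r ^ 2 * x)
    (hA : GB r + 3 / 25 * p ≤ GA r) : Rc 0 (2 * (1 / 2) * r - cB r) r (GB r) p x ≤ 0 := by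
  have hD : 2 * (1 / 2) * r - cB r ≤ 2 * r := by linarith [barB.c0 r (by linarith)]
  obtain ⟨e1, e2⟩ := evB7 (r := r) (by linarith) (by linarith)
  obtain ⟨e3, e4⟩ := evA5 (r := r) (by linarith)
  rw [e1, e3] at hA
  rw [e2] at hD
  rw [e1, e2]
  exact cellB (π := 25 / 3 * (gA5 r - gB7 r)) (l := 0) (by linarith) hD (by norm_num)
    (by norm_num) hp (by linarith) hP
    (bp5 (6440063714181475644667 / 1186523437500000000) (15177029839172668742993 /
      474609375000000000) (89111789636926533457799 / 1265625000000000000) (278292630475706379820871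
      / 3796875000000000000) (27479455781811605846531 / 759375000000000000)
      (42719863633655203173619 / 6328125000000000000) h1 h2 (by norm_num)
      (by unfold gB7 kB7 gA5; ring))

theorem rB8_0 {r p x : ℝ} (h1 : 7 / 50 ≤ r) (h2 : r ≤ 3 / 20) (hp : 0 ≤ p) (hP : p ^ 2 ≤ r ^ 2 * x)
    (hA : GB r + 3 / 25 * p ≤ GA r) : Rc 0 (2 * (1 / 2) * r - cB r) r (GB r) p x ≤ 0 := by
  have hD : 2 * (1 / 2) * r - cB r ≤ 2 * r := by linarith [barB.c0 r (by linarith)]
  obtain ⟨e1, e2⟩ := evB8 (r := r) (by linarith) (by linarith)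
  obtain ⟨e3, e4⟩ := evA5 (r := r) (by linarith)
  rw [e1, e3] at hA
  rw [e2] at hD
  rw [e1, e2]
  exact cellB (π := 25 / 3 * (gA5 r - gB8 r)) (l := 0) (by linarith) hD (by norm_num)
    (by norm_num) hp (by linarith) hP
    (bp5 (128159590900965609520857 / 78125000000000000) (350603090421262871697773 /
      46875000000000000) (373765978777420976798963 / 28125000000000000) (533659662181377834448319 /
      46875000000000000) (9017612755618066380431 / 1953125000000000) (1666615354231495522311 /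
      2441406250000000) h1 h2 (by norm_num) (by unfold gB8 kB8 gA5; ring))

theorem rB8_1 {r p x : ℝ} (h1 : 3 / 20 ≤ r) (h2 : r ≤ 4 / 25) (hp : 0 ≤ p) (hP : p ^ 2 ≤ r ^ 2 * x)
    (hA : GB r + 3 / 25 * p ≤ GA r) : Rc 0 (2 * (1 / 2) * r - cB r) r (GB r) p x ≤ 0 := by
  have hD : 2 * (1 / 2) * r - cB r ≤ 2 * r := by linarith [barB.c0 r (by linarith)]
  obtain ⟨e1, e2⟩ := evB8 (r := r) (by linarith) (by linarith)
  obtain ⟨e3, e4⟩ := evA5 (r := r) (by linarith)
  rw [e1, e3] at hA
  rw [e2] at hD
  rw [e1, e2]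
  exact cellB (π := 25 / 3 * (gA5 r - gB8 r)) (l := 7 / 10) (by linarith) hD (by norm_num)
    (by norm_num) hp (by linarith) hP
    (bp5 (32841512923661092184337 / 1562500000000000000) (40353419306805896097393 /
      156250000000000000) (46024630243635275421031 / 62500000000000000) (405044434906810353092947 /
      468750000000000000) (69843118508778241159969 / 156250000000000000) (192309377664949439539073
      / 2343750000000000000) h1 h2 (by norm_num) (by unfold gB8 kB8 gA5; ring))

theorem rB8_2 {r p x : ℝ} (h1 : 4 / 25 ≤ r) (h2 : r ≤ 9 / 50) (hp : 0 ≤ p) (hP : p ^ 2 ≤ r ^ 2 * x)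
    (hA : GB r + 3 / 25 * p ≤ GA r) : Rc 0 (2 * (1 / 2) * r - cB r) r (GB r) p x ≤ 0 := by
  have hD : 2 * (1 / 2) * r - cB r ≤ 2 * r := by linarith [barB.c0 r (by linarith)]
  obtain ⟨e1, e2⟩ := evB8 (r := r) (by linarith) (by linarith)
  obtain ⟨e3, e4⟩ := evA5 (r := r) (by linarith)
  rw [e1, e3] at hA
  rw [e2] at hD
  rw [e1, e2]
  exact cellB (π := 25 / 3 * (gA5 r - gB8 r)) (l := 1) (by linarith) hD (by norm_num)
    (by norm_num) hp (by linarith) hP
    (bp5 (8005658184077580191 / 937500000000000) (627012118290453176711 / 7500000000000000)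
      (920907090716490347387 / 3750000000000000) (799120475655061202887 / 2500000000000000)
      (121440054260450761017 / 625000000000000) (56461080367978947189 / 1250000000000000) h1 h2
      (by norm_num) (by unfold gB8 kB8 gA5; ring))

theorem rB9_0 {r p x : ℝ} (h1 : 9 / 50 ≤ r) (h2 : r ≤ 1 / 4) (hp : 0 ≤ p) (hP : p ^ 2 ≤ r ^ 2 * x)
    (hA : GB r + 3 / 25 * p ≤ GA r) : Rc 0 (2 * (1 / 2) * r - cB r) r (GB r) p x ≤ 0 := by
  have hD : 2 * (1 / 2) * r - cB r ≤ 2 * r := by linarith [barB.c0 r (by linarith)]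
  obtain ⟨e1, e2⟩ := evB9 (r := r) (by linarith) (by linarith)
  obtain ⟨e3, e4⟩ := evA5 (r := r) (by linarith)
  rw [e1, e3] at hA
  rw [e2] at hD
  rw [e1, e2]
  exact cellB (π := 25 / 3 * (gA5 r - gB9 r)) (l := 1) (by linarith) hD (by norm_num)
    (by norm_num) hp (by linarith) hP
    (bp5 (56461080367978947189 / 656523437500000000) (816457330710132219267 / 1313046875000000000)
      (7774909321708230532507 / 5252187500000000000) (47465564881170581239873 /
      31513125000000000000) (5005404325197565998473 / 7878281250000000000) (92816473699174036069 /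
      1260525000000000000) h1 h2 (by norm_num) (by unfold gB9 kB9 gA5; ring))

theorem rB10_0 {r p x : ℝ} (h1 : 1 / 4 ≤ r) (h2 : r ≤ 7 / 20) (hp : 0 ≤ p) (hP : p ^ 2 ≤ r ^ 2 * x)
    (hA : GB r + 3 / 25 * p ≤ GA r) : Rc 0 (2 * (1 / 2) * r - cB r) r (GB r) p x ≤ 0 := by
  have hD : 2 * (1 / 2) * r - cB r ≤ 2 * r := by linarith [barB.c0 r (by linarith)]
  obtain ⟨e1, e2⟩ := evB10 (r := r) (by linarith) (by linarith)
  obtain ⟨e3, e4⟩ := evA5 (r := r) (by linarith)
  rw [e1, e3] at hA
  rw [e2] at hD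
  rw [e1, e2]
  exact cellB (π := 25 / 3 * (gA5 r - gB10 r)) (l := 1) (by linarith) hD (by norm_num)
    (by norm_num) hp (by linarith) hP
    (bp5 (92816473699174036069 / 7500000000000000000) (4622170703006812477363 /
      37500000000000000000) (6359539582545045334951 / 18750000000000000000) (7420758436340216406989
      / 18750000000000000000) (7917039200254742625977 / 37500000000000000000)
      (1635050423778458184883 / 37500000000000000000) h1 h2 (by norm_num)
      (by unfold gB10 kB10 gA5; ring))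

theorem rB11_0 {r p x : ℝ} (h1 : 7 / 20 ≤ r) (h2 : r ≤ 1 / 2) (hp : 0 ≤ p) (hP : p ^ 2 ≤ r ^ 2 * x)
    (hA : GB r + 3 / 25 * p ≤ GA r) : Rc 0 (2 * (1 / 2) * r - cB r) r (GB r) p x ≤ 0 := by
  have hD : 2 * (1 / 2) * r - cB r ≤ 2 * r := by linarith [barB.c0 r (by linarith)]
  obtain ⟨e1, e2⟩ := evB11 (r := r) (by linarith) (by linarith)
  obtain ⟨e3, e4⟩ := evA5 (r := r) (by linarith)
  rw [e1, e3] at hA
  rw [e2] at hD
  rw [e1, e2]
  exact cellB (π := 25 / 3 * (gA5 r - gB11 r)) (l := 1) (by linarith) hD (by norm_num)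
    (by norm_num) hp (by linarith) hP
    (bp5 (1635050423778458184883 / 284765625000000000000) (1322591973703750890259 /
      35595703125000000000) (26254713141368777246983 / 284765625000000000000)
      (17069602099173389450861 / 142382812500000000000) (3098697200803188812671 /
      35595703125000000000) (99331777948025670743 / 3559570312500000000) h1 h2 (by norm_num)
      (by unfold gB11 kB11 gA5; ring))

theorem rB12_0 {r p x : ℝ} (h1 : 1 / 2 ≤ r) (h2 : r ≤ 7 / 10) (hp : 0 ≤ p) (hP : p ^ 2 ≤ r ^ 2 * x)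
    (hA : GB r + 3 / 25 * p ≤ GA r) : Rc 0 (2 * (1 / 2) * r - cB r) r (GB r) p x ≤ 0 := by
  have hD : 2 * (1 / 2) * r - cB r ≤ 2 * r := by linarith [barB.c0 r (by linarith)]
  obtain ⟨e1, e2⟩ := evB12 (r := r) (by linarith) (by linarith)
  obtain ⟨e3, e4⟩ := evA5 (r := r) (by linarith)
  rw [e1, e3] at hA
  rw [e2] at hD
  rw [e1, e2]
  exact cellB (π := 25 / 3 * (gA5 r - gB12 r)) (l := 1) (by linarith) hD (by norm_num)
    (by norm_num) hp (by linarith) hP
    (bp5 (99331777948025670743 / 15000000000000000000) (761892327228304417187 /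
      25000000000000000000) (297705474067582803559 / 4687500000000000000) (525370851540893377593 /
      6250000000000000000) (5159432590898227729069 / 75000000000000000000) (609146115598015719017 /
      25000000000000000000) h1 h2 (by norm_num) (by unfold gB12 kB12 gA5; ring))

theorem rB13_0 {r p x : ℝ} (h1 : 7 / 10 ≤ r) (h2 : r ≤ 1) (hp : 0 ≤ p) (hP : p ^ 2 ≤ r ^ 2 * x)
    (hA : GB r + 3 / 25 * p ≤ GA r) : Rc 0 (2 * (1 / 2) * r - cB r) r (GB r) p x ≤ 0 := by
  have hD : 2 * (1 / 2) * r - cB r ≤ 2 * r := by linarith [barB.c0 r (by linarith)]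
  obtain ⟨e1, e2⟩ := evB13 (r := r) (by linarith) (by linarith)
  obtain ⟨e3, e4⟩ := evA5 (r := r) (by linarith)
  rw [e1, e3] at hA
  rw [e2] at hD
  rw [e1, e2]
  exact cellB (π := 25 / 3 * (gA5 r - gB13 r)) (l := 1) (by linarith) hD (by norm_num)
    (by norm_num) hp (by linarith) hP
    (bp5 (609146115598015719017 / 189843750000000000000) (1324133423678656311589 /
      94921875000000000000) (1198725721229492875901 / 42187500000000000000) (1844819593474711237457
      / 47460937500000000000) (12662217370777134695239 / 379687500000000000000)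
      (153728109665980395679 / 12656250000000000000) h1 h2 (by norm_num)
      (by unfold gB13 kB13 gA5; ring))

theorem rB14_0 {r p x : ℝ} (h1 : 1 ≤ r) (h2 : r ≤ 7 / 5) (hp : 0 ≤ p) (hP : p ^ 2 ≤ r ^ 2 * x)
    (hA : GB r + 3 / 25 * p ≤ GA r) : Rc 0 (2 * (1 / 2) * r - cB r) r (GB r) p x ≤ 0 := by
  have hD : 2 * (1 / 2) * r - cB r ≤ 2 * r := by linarith [barB.c0 r (by linarith)]
  obtain ⟨e1, e2⟩ := evB14 (r := r) (by linarith) (by linarith)
  obtain ⟨e3, e4⟩ := evA5 (r := r) (by linarith)
  rw [e1, e3] at hA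
  rw [e2] at hD
  rw [e1, e2]
  exact cellB (π := 25 / 3 * (gA5 r - gB14 r)) (l := 1) (by linarith) hD (by norm_num)
    (by norm_num) hp (by linarith) hP
    (bp5 (461184328997941187037 / 160000000000000000000) (36962132826748938340997 /
      2400000000000000000000) (14807862802530282472473 / 400000000000000000000)
      (60549876705188483987041 / 1200000000000000000000) (30041261166579671926621 /
      800000000000000000000) (27826104012763922105177 / 2400000000000000000000) h1 h2 (by norm_num)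
      (by unfold gB14 kB14 gA5; ring))

theorem rB15_0 {r p x : ℝ} (h1 : 7 / 5 ≤ r) (h2 : r ≤ 2) (hp : 0 ≤ p) (hP : p ^ 2 ≤ r ^ 2 * x)
    (hA : GB r + 3 / 25 * p ≤ GA r) : Rc 0 (2 * (1 / 2) * r - cB r) r (GB r) p x ≤ 0 := by
  have hD : 2 * (1 / 2) * r - cB r ≤ 2 * r := by linarith [barB.c0 r (by linarith)]
  obtain ⟨e1, e2⟩ := evB15 (r := r) (by linarith) (by linarith)
  obtain ⟨e3, e4⟩ := evA5 (r := r) (by linarith)
  rw [e1, e3] at hA
  rw [e2] at hD
  rw [e1, e2]
  exact cellB (π := 25 / 3 * (gA5 r - gB15 r)) (l := 1) (by linarith) hD (by norm_num)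
    (by norm_num) hp (by linarith) hP
    (bp5 (27826104012763922105177 / 18225000000000000000000) (80877152862221311322459 /
      9112500000000000000000) (199955587676082316408651 / 9112500000000000000000)
      (131456455450879666452917 / 4556250000000000000000) (362777386116282063225217 /
      18225000000000000000000) (10292830044699932969111 / 1822500000000000000000) h1 h2
      (by norm_num) (by unfold gB15 kB15 gA5; ring))

theorem rB16_0 {r p x : ℝ} (h1 : 2 ≤ r) (hp : 0 ≤ p) (hP : p ^ 2 ≤ r ^ 2 * x)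
    (hA : GB r + 3 / 25 * p ≤ GA r) : Rc 0 (2 * (1 / 2) * r - cB r) r (GB r) p x ≤ 0 := by
  have hD : 2 * (1 / 2) * r - cB r ≤ 2 * r := by linarith [barB.c0 r (by linarith)]
  obtain ⟨e1, e2⟩ := evB16 (r := r) (by linarith)
  obtain ⟨e3, e4⟩ := evA5 (r := r) (by linarith)
  rw [e1, e3] at hA
  rw [e2] at hD
  rw [e1, e2]
  exact cellB (π := 25 / 3 * (gA5 r - gB16 r)) (l := 1) (by linarith) hD (by norm_num)
    (by norm_num) hp (by linarith) hP
    (rp5 (10292830044699932969111 / 23437500000000000000000) (242638481053679085230333 /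
      140625000000000000000000) (66580146074778262897 / 31250000000000000000) (257526684334855591 /
      250000000000000000) (47993429 / 281250000) 0 h1 (by norm_num)
      (by unfold gB16 kB16 gA5; ring))

theorem reactB {r p x : ℝ} (h : 0 ≤ r) (hp : 0 ≤ p) (hP : p ^ 2 ≤ r ^ 2 * x)
    (hA : GB r + 3 / 25 * p ≤ GA r) : Rc 0 (2 * (1 / 2) * r - cB r) r (GB r) p x ≤ 0 := by
  rcases le_total r (11 / 500) with h' | h
  · exact rB0_0 h h' hp hP hA
  rcases le_total r (4 / 125) with h' | h
  · exact rB1_0 h h' hp hP hA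
  rcases le_total r (9 / 200) with h' | h
  · exact rB2_0 h h' hp hP hA
  rcases le_total r (3 / 50) with h' | h
  · exact rB3_0 h h' hp hP hA
  rcases le_total r (3 / 40) with h' | h
  · exact rB4_0 h h' hp hP hA
  rcases le_total r (9 / 100) with h' | h
  · exact rB5_0 h h' hp hP hA
  rcases le_total r (11 / 100) with h' | h
  · exact rB6_0 h h' hp hP hA
  rcases le_total r (7 / 50) with h' | h
  · exact rB7_0 h h' hp hP hA
  rcases le_total r (3 / 20) with h' | h
  · exact rB8_0 h h' hp hP hA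
  rcases le_total r (4 / 25) with h' | h
  · exact rB8_1 h h' hp hP hA
  rcases le_total r (9 / 50) with h' | h
  · exact rB8_2 h h' hp hP hA
  rcases le_total r (1 / 4) with h' | h
  · exact rB9_0 h h' hp hP hA
  rcases le_total r (7 / 20) with h' | h
  · exact rB10_0 h h' hp hP hA
  rcases le_total r (1 / 2) with h' | h
  · exact rB11_0 h h' hp hP hA
  rcases le_total r (7 / 10) with h' | h
  · exact rB12_0 h h' hp hP hA
  rcases le_total r 1 with h' | h
  · exact rB13_0 h h' hp hP hA
  rcases le_total r (7 / 5) with h' | h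
  · exact rB14_0 h h' hp hP hA
  rcases le_total r 2 with h' | h
  · exact rB15_0 h h' hp hP hA
  exact rB16_0 h hp hP hA

/-- Elementary bounds for the curves. -/
structure Aux (r : ℝ) : Prop where
  up : GB r ≤ 2 / 3 ∨ GB r ≤ 57 / 100 + r ^ 2 / 3
  loB : 2 / 3 - 2 * r ^ 2 ≤ GB r
  loA : 2 / 3 - 2 * r ^ 2 ≤ GA r
  tB : 31 / 50 ≤ GB r
  tA : 77 / 125 + 471 / 5000 * r ≤ GA r

theorem aux0 {r : ℝ} (h1 : 0 ≤ r) (h2 : r ≤ 11 / 500) : Aux r := by
  obtain ⟨e1, -⟩ := evB0 (r := r) (by linarith) (by linarith)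
  obtain ⟨e3, -⟩ := evA0 (r := r) (by linarith) (by linarith)
  refine ⟨?_, ?_, ?_, ?_, ?_⟩ <;> simp only [e1, e3]
  · exact Or.inl (sub_nonpos.1 (bp5 0 0 (250000000 / 1331) (748960500 / 1331) (747921000 / 1331)
      (248960500 / 1331) h1 h2 (by norm_num) (by unfold gB0; ring)))
  · exact sub_nonpos.1 (bp5 0 0 0 (94500 / 121) (189000 / 121) (94500 / 121) h1 h2 (by norm_num)
      (by unfold gB0; ring))
  · exact sub_nonpos.1 (bp2 0 0 (1 / 50) h1 h2 (by norm_num) (by unfold gA0; ring))
  · exact sub_nonpos.1 (bp5 (4375000000000 / 483153) (21875000000000 / 483153) (43659250000000 /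
      483153) (43478127338500 / 483153) (21603504677000 / 483153) (4284627338500 / 483153) h1 h2
      (by norm_num) (by unfold gB0; ring))
  · exact sub_nonpos.1 (bp2 (38000 / 363) (744457 / 3630) (893174 / 9075) h1 h2 (by norm_num)
      (by unfold gA0; ring))

theorem aux1 {r : ℝ} (h1 : 11 / 500 ≤ r) (h2 : r ≤ 4 / 125) : Aux r := by
  obtain ⟨e1, -⟩ := evB1 (r := r) (by linarith) (by linarith)
  obtain ⟨e3, -⟩ := evA1 (r := r) (by linarith) (by linarith)
  refine ⟨?_, ?_, ?_, ?_, ?_⟩ <;> simp only [e1, e3]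
  · exact Or.inl (sub_nonpos.1 (bp2 (60248441 / 6250000) (175153847 / 6250000) (63533953 / 3125000)
      h1 h2 (by norm_num) (by unfold gB1; ring)))
  · exact sub_nonpos.1 (bp2 (251559 / 6250000) (846153 / 6250000) (466047 / 3125000) h1 h2
      (by norm_num) (by unfold gB1; ring))
  · exact sub_nonpos.1 (bp2 (121 / 1250) (176 / 625) (5759 / 5000) h1 h2 (by norm_num)
      (by unfold gA1; ring))
  · exact sub_nonpos.1 (bp2 (8569254677 / 18750000) (16974538459 / 18750000) (4184398141 / 9375000)
      h1 h2 (by norm_num) (by unfold gB1; ring))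
  · exact sub_nonpos.1 (bp2 (893174 / 1875) (3504701 / 3750) (6857917 / 15000) h1 h2 (by norm_num)
      (by unfold gA1; ring))

theorem aux2 {r : ℝ} (h1 : 4 / 125 ≤ r) (h2 : r ≤ 9 / 200) : Aux r := by
  obtain ⟨e1, -⟩ := evB2 (r := r) (by linarith) (by linarith)
  obtain ⟨e3, -⟩ := evA2 (r := r) (by linarith) (by linarith)
  refine ⟨?_, ?_, ?_, ?_, ?_⟩ <;> simp only [e1, e3]
  · exact Or.inl (sub_nonpos.1 (bp2 (63533953 / 5281250) (713624733 / 21125000) (497049171 /
      21125000) h1 h2 (by norm_num) (by unfold gB2; ring)))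
  · exact sub_nonpos.1 (bp2 (466047 / 5281250) (6375267 / 21125000) (9200829 / 21125000) h1 h2
      (by norm_num) (by unfold gB2; ring))
  · exact sub_nonpos.1 (bp2 (443 / 650) (1897 / 650) (23289 / 6500) h1 h2 (by norm_num)
      (by unfold gA2; ring))
  · exact sub_nonpos.1 (bp2 (4184398141 / 15843750) (32859125801 / 63375000) (16008852487 /
      63375000) h1 h2 (by norm_num) (by unfold gB2; ring))
  · exact sub_nonpos.1 (bp2 (6857917 / 25350) (13321973 / 25350) (64474771 / 253500) h1 h2
      (by norm_num) (by unfold gA2; ring))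

theorem aux3 {r : ℝ} (h1 : 9 / 200 ≤ r) (h2 : r ≤ 3 / 50) : Aux r := by
  obtain ⟨e1, -⟩ := evB3 (r := r) (by linarith) (by linarith)
  obtain ⟨e3, -⟩ := evA3 (r := r) (by linarith) (by linarith)
  refine ⟨?_, ?_, ?_, ?_, ?_⟩ <;> simp only [e1, e3]
  · exact Or.inl (sub_nonpos.1 (bp2 (165683057 / 9375000) (439240579 / 9375000) (285754397 /
      9375000) h1 h2 (by norm_num) (by unfold gB3; ring)))
  · exact sub_nonpos.1 (bp2 (3066943 / 9375000) (10759421 / 9375000) (14245603 / 9375000) h1 h2
      (by norm_num) (by unfold gB3; ring))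
  · exact sub_nonpos.1 (bp2 (100919 / 37500) (169939 / 18750) (24932 / 3125) h1 h2 (by norm_num)
      (by unfold gA3; ring))
  · exact sub_nonpos.1 (bp2 (16008852487 / 84375000) (31046834789 / 84375000) (14928210427 /
      84375000) h1 h2 (by norm_num) (by unfold gB3; ring))
  · exact sub_nonpos.1 (bp2 (64474771 / 337500) (62011201 / 168750) (14853664 / 84375) h1 h2
      (by norm_num) (by unfold gA3; ring))

theorem aux4 {r : ℝ} (h1 : 3 / 50 ≤ r) (h2 : r ≤ 3 / 40) : Aux r := by
  obtain ⟨e1, -⟩ := evB4 (r := r) (by linarith) (by linarith)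
  obtain ⟨e3, -⟩ := evA4 (r := r) (by linarith) (by linarith)
  refine ⟨?_, ?_, ?_, ?_, ?_⟩ <;> simp only [e1, e3]
  · exact Or.inl (sub_nonpos.1 (bp2 (285754397 / 9375000) (703777009 / 9375000) (53035639 /
      1171875) h1 h2 (by norm_num) (by unfold gB4; ring)))
  · exact sub_nonpos.1 (bp2 (14245603 / 9375000) (46222991 / 9375000) (5558111 / 1171875) h1 h2
      (by norm_num) (by unfold gB4; ring))
  · exact sub_nonpos.1 (bp2 (24932 / 3125) (428429 / 18750) (1249823 / 75000) h1 h2 (by norm_num)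
      (by unfold gA4; ring))
  · exact sub_nonpos.1 (bp2 (14928210427 / 84375000) (28666006919 / 84375000) (1710179249 /
      10546875) h1 h2 (by norm_num) (by unfold gB4; ring))
  · exact sub_nonpos.1 (bp2 (14853664 / 84375) (56818111 / 168750) (108303407 / 675000) h1 h2
      (by norm_num) (by unfold gA4; ring))

theorem aux5 {r : ℝ} (h1 : 3 / 40 ≤ r) (h2 : r ≤ 9 / 100) : Aux r := by
  obtain ⟨e1, -⟩ := evB5 (r := r) (by linarith) (by linarith)
  obtain ⟨e3, -⟩ := evA5 (r := r) (by linarith)
  refine ⟨?_, ?_, ?_, ?_, ?_⟩ <;> simp only [e1, e3]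
  · exact Or.inl (sub_nonpos.1 (bp2 (53035639 / 1171875) (993363439 / 9375000) (569434577 /
      9375000) h1 h2 (by norm_num) (by unfold gB5; ring)))
  · exact sub_nonpos.1 (bp2 (5558111 / 1171875) (131636561 / 9375000) (105565423 / 9375000) h1 h2
      (by norm_num) (by unfold gB5; ring))
  · exact sub_nonpos.1 (bp2 (1249823 / 75000) (136899 / 3125) (2218603 / 75000) h1 h2 (by norm_num)
      (by unfold gA5; ring))
  · exact sub_nonpos.1 (bp2 (1710179249 / 10546875) (26059729049 / 84375000) (12375088807 /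
      84375000) h1 h2 (by norm_num) (by unfold gB5; ring))
  · exact sub_nonpos.1 (bp2 (108303407 / 675000) (25742648 / 84375) (97933427 / 675000) h1 h2
      (by norm_num) (by unfold gA5; ring))

theorem aux6 {r : ℝ} (h1 : 9 / 100 ≤ r) (h2 : r ≤ 11 / 100) : Aux r := by
  obtain ⟨e1, -⟩ := evB6 (r := r) (by linarith) (by linarith)
  obtain ⟨e3, -⟩ := evA5 (r := r) (by linarith)
  refine ⟨?_, ?_, ?_, ?_, ?_⟩ <;> simp only [e1, e3]
  · exact Or.inl (sub_nonpos.1 (bp2 (1708303731 / 50000000) (1999315161 / 25000000) (2265326591 /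
      50000000) h1 h2 (by norm_num) (by unfold gB6; ring)))
  · exact sub_nonpos.1 (bp2 (316696269 / 50000000) (475684839 / 25000000) (759673409 / 50000000) h1
      h2 (by norm_num) (by unfold gB6; ring))
  · exact sub_nonpos.1 (bp2 (6655809 / 400000) (8959069 / 200000) (12237529 / 400000) h1 h2
      (by norm_num) (by unfold gA5; ring))
  · exact sub_nonpos.1 (bp2 (12375088807 / 150000000) (11502054517 / 75000000) (10704020227 /
      150000000) h1 h2 (by norm_num) (by unfold gB6; ring))
  · exact sub_nonpos.1 (bp2 (97933427 / 1200000) (91217207 / 600000) (85026587 / 1200000) h1 h2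
      (by norm_num) (by unfold gA5; ring))

theorem aux7 {r : ℝ} (h1 : 11 / 100 ≤ r) (h2 : r ≤ 7 / 50) : Aux r := by
  obtain ⟨e1, -⟩ := evB7 (r := r) (by linarith) (by linarith)
  obtain ⟨e3, -⟩ := evA5 (r := r) (by linarith)
  refine ⟨?_, ?_, ?_, ?_, ?_⟩ <;> simp only [e1, e3]
  · exact Or.inl (sub_nonpos.1 (bp2 (2265326591 / 112500000) (333042967 / 7031250) (3007110881 /
      112500000) h1 h2 (by norm_num) (by unfold gB7; ring)))
  · exact sub_nonpos.1 (bp2 (759673409 / 112500000) (148207033 / 7031250) (1892889119 / 112500000)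
      h1 h2 (by norm_num) (by unfold gB7; ring))
  · exact sub_nonpos.1 (bp2 (12237529 / 900000) (17155219 / 450000) (24267109 / 900000) h1 h2
      (by norm_num) (by unfold gA5; ring))
  · exact sub_nonpos.1 (bp2 (10704020227 / 337500000) (1188371099 / 21093750) (8478667357 /
      337500000) h1 h2 (by norm_num) (by unfold gB7; ring))
  · exact sub_nonpos.1 (bp2 (85026587 / 2700000) (75740657 / 1350000) (67637327 / 2700000) h1 h2
      (by norm_num) (by unfold gA5; ring))

theorem aux8 {r : ℝ} (h1 : 7 / 50 ≤ r) (h2 : r ≤ 9 / 50) : Aux r := by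
  obtain ⟨e1, -⟩ := evB8 (r := r) (by linarith) (by linarith)
  obtain ⟨e3, -⟩ := evA5 (r := r) (by linarith)
  refine ⟨?_, ?_, ?_, ?_, ?_⟩ <;> simp only [e1, e3]
  · exact Or.inl (sub_nonpos.1 (bp2 (3007110881 / 200000000) (3464133741 / 100000000) (3841556601 /
      200000000) h1 h2 (by norm_num) (by unfold gB8; ring)))
  · exact sub_nonpos.1 (bp2 (1892889119 / 200000000) (2835866259 / 100000000) (4258443399 /
      200000000) h1 h2 (by norm_num) (by unfold gB8; ring))
  · exact sub_nonpos.1 (bp2 (24267109 / 1600000) (33749629 / 800000) (47132949 / 1600000) h1 h2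
      (by norm_num) (by unfold gA5; ring))
  · exact sub_nonpos.1 (bp2 (8478667357 / 600000000) (7107598777 / 300000000) (5975330197 /
      600000000) h1 h2 (by norm_num) (by unfold gB8; ring))
  · exact sub_nonpos.1 (bp2 (67637327 / 4800000) (56832887 / 2400000) (48130847 / 4800000) h1 h2
      (by norm_num) (by unfold gA5; ring))

theorem aux9 {r : ℝ} (h1 : 9 / 50 ≤ r) (h2 : r ≤ 1 / 4) : Aux r := by
  obtain ⟨e1, -⟩ := evB9 (r := r) (by linarith) (by linarith)
  obtain ⟨e3, -⟩ := evA5 (r := r) (by linarith)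
  refine ⟨?_, ?_, ?_, ?_, ?_⟩ <;> simp only [e1, e3]
  · exact Or.inl (sub_nonpos.1 (bp2 (3841556601 / 612500000) (2251023303 / 153125000) (4921824111 /
      612500000) h1 h2 (by norm_num) (by unfold gB9; ring)))
  · exact sub_nonpos.1 (bp2 (608349057 / 87500000) (481996671 / 21875000) (218432161 / 12500000) h1
      h2 (by norm_num) (by unfold gB9; ring))
  · exact sub_nonpos.1 (bp2 (47132949 / 4900000) (70553759 / 2450000) (105920769 / 4900000) h1 h2
      (by norm_num) (by unfold gA5; ring))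
  · exact sub_nonpos.1 (bp2 (5975330197 / 1837500000) (1996930091 / 459375000) (2734527667 /
      1837500000) h1 h2 (by norm_num) (by unfold gB9; ring))
  · exact sub_nonpos.1 (bp2 (48130847 / 14700000) (32902277 / 7350000) (24112307 / 14700000) h1 h2
      (by norm_num) (by unfold gA5; ring))

theorem aux10 {r : ℝ} (h1 : 1 / 4 ≤ r) (h2 : r ≤ 7 / 20) : Aux r := by
  obtain ⟨e1, -⟩ := evB10 (r := r) (by linarith) (by linarith)
  obtain ⟨e3, -⟩ := evA5 (r := r) (by linarith)
  refine ⟨?_, ?_, ?_, ?_, ?_⟩ <;> simp only [e1, e3]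
  · exact Or.inl (sub_nonpos.1 (bp2 (4921824111 / 1250000000) (5521506261 / 625000000) (5539938411
      / 1250000000) h1 h2 (by norm_num) (by unfold gB10; ring)))
  · exact sub_nonpos.1 (bp2 (10703175889 / 1250000000) (16353493739 / 625000000) (25085061589 /
      1250000000) h1 h2 (by norm_num) (by unfold gB10; ring))
  · exact sub_nonpos.1 (bp2 (105920769 / 10000000) (156445069 / 5000000) (231349369 / 10000000) h1
      h2 (by norm_num) (by unfold gA5; ring))
  · exact sub_nonpos.1 (bp2 (2734527667 / 3750000000) (935481217 / 1875000000) (880184767 /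
      3750000000) h1 h2 (by norm_num) (by unfold gB10; ring))
  · exact sub_nonpos.1 (bp2 (24112307 / 30000000) (11555207 / 15000000) (12138107 / 30000000) h1 h2
      (by norm_num) (by unfold gA5; ring))

theorem aux11 {r : ℝ} (h1 : 7 / 20 ≤ r) (h2 : r ≤ 1 / 2) : Aux r := by
  obtain ⟨e1, -⟩ := evB11 (r := r) (by linarith) (by linarith)
  obtain ⟨e3, -⟩ := evA5 (r := r) (by linarith)
  refine ⟨?_, ?_, ?_, ?_, ?_⟩ <;> simp only [e1, e3]
  · exact Or.inl (sub_nonpos.1 (bp2 (1846646137 / 937500000) (463965553 / 117187500) (1419765787 /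
      937500000) h1 h2 (by norm_num) (by unfold gB11; ring)))
  · exact sub_nonpos.1 (bp2 (25085061589 / 2812500000) (9545603341 / 351562500) (58240702639 /
      2812500000) h1 h2 (by norm_num) (by unfold gB11; ring))
  · exact sub_nonpos.1 (bp2 (231349369 / 22500000) (343705819 / 11250000) (510917269 / 22500000) h1
      h2 (by norm_num) (by unfold gA5; ring))
  · exact sub_nonpos.1 (bp2 (880184767 / 8437500000) (199310023 / 1054687500) (4722107917 /
      8437500000) h1 h2 (by norm_num) (by unfold gB11; ring))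
  · exact sub_nonpos.1 (bp2 (12138107 / 67500000) (13012457 / 33750000) (43451807 / 67500000) h1 h2
      (by norm_num) (by unfold gA5; ring))

theorem aux12 {r : ℝ} (h1 : 1 / 2 ≤ r) (h2 : r ≤ 7 / 10) : Aux r := by
  obtain ⟨e1, -⟩ := evB12 (r := r) (by linarith) (by linarith)
  obtain ⟨e3, -⟩ := evA5 (r := r) (by linarith)
  refine ⟨?_, ?_, ?_, ?_, ?_⟩ <;> simp only [e1, e3]
  · exact Or.inr (sub_nonpos.1 (bp2 (7777892083 / 15000000000) (5014911661 / 2500000000)
      (20756577883 / 15000000000) h1 h2 (by norm_num) (by unfold gB12; ring)))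
  · exact sub_nonpos.1 (bp2 (58240702639 / 5000000000) (84985088339 / 2500000000) (123914474039 /
      5000000000) h1 h2 (by norm_num) (by unfold gB12; ring))
  · exact sub_nonpos.1 (bp2 (510917269 / 40000000) (733865869 / 20000000) (1054334469 / 40000000)
      h1 h2 (by norm_num) (by unfold gA5; ring))
  · exact sub_nonpos.1 (bp2 (4722107917 / 15000000000) (9955265017 / 7500000000) (21743422117 /
      15000000000) h1 h2 (by norm_num) (by unfold gB12; ring))
  · exact sub_nonpos.1 (bp2 (43451807 / 120000000) (84037607 / 60000000) (177183407 / 120000000) h1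
      h2 (by norm_num) (by unfold gA5; ring))

theorem aux13 {r : ℝ} (h1 : 7 / 10 ≤ r) (h2 : r ≤ 1) : Aux r := by
  obtain ⟨e1, -⟩ := evB13 (r := r) (by linarith) (by linarith)
  obtain ⟨e3, -⟩ := evA5 (r := r) (by linarith)
  refine ⟨?_, ?_, ?_, ?_, ?_⟩ <;> simp only [e1, e3]
  · exact Or.inr (sub_nonpos.1 (bp2 (20756577883 / 33750000000) (29324342233 / 16875000000)
      (36215856583 / 33750000000) h1 h2 (by norm_num) (by unfold gB13; ring)))
  · exact sub_nonpos.1 (bp2 (123914474039 / 11250000000) (182308552589 / 5625000000) (267511381139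
      / 11250000000) h1 h2 (by norm_num) (by unfold gB13; ring))
  · exact sub_nonpos.1 (bp2 (351444823 / 30000000) (511679123 / 15000000) (248351141 / 10000000) h1
      h2 (by norm_num) (by unfold gA5; ring))
  · exact sub_nonpos.1 (bp2 (21743422117 / 33750000000) (39425657767 / 16875000000) (70034143417 /
      33750000000) h1 h2 (by norm_num) (by unfold gB13; ring))
  · exact sub_nonpos.1 (bp2 (177183407 / 270000000) (316902107 / 135000000) (574880807 / 270000000)
      h1 h2 (by norm_num) (by unfold gA5; ring))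

theorem aux14 {r : ℝ} (h1 : 1 ≤ r) (h2 : r ≤ 7 / 5) : Aux r := by
  obtain ⟨e1, -⟩ := evB14 (r := r) (by linarith) (by linarith)
  obtain ⟨e3, -⟩ := evA5 (r := r) (by linarith)
  refine ⟨?_, ?_, ?_, ?_, ?_⟩ <;> simp only [e1, e3]
  · exact Or.inr (sub_nonpos.1 (bp2 (36215856583 / 60000000000) (15134847461 / 10000000000)
      (53893228183 / 60000000000) h1 h2 (by norm_num) (by unfold gB14; ring)))
  · exact sub_nonpos.1 (bp2 (267511381139 / 20000000000) (381115152539 / 10000000000) (541618923939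
      / 20000000000) h1 h2 (by norm_num) (by unfold gB14; ring))
  · exact sub_nonpos.1 (bp2 (2235160269 / 160000000) (3168657469 / 80000000) (4492234669 /
      160000000) h1 h2 (by norm_num) (by unfold gA5; ring))
  · exact sub_nonpos.1 (bp2 (70034143417 / 60000000000) (110845457617 / 30000000000) (172356771817
      / 60000000000) h1 h2 (by norm_num) (by unfold gB14; ring))
  · exact sub_nonpos.1 (bp2 (574880807 / 480000000) (918852407 / 240000000) (1473064007 /
      480000000) h1 h2 (by norm_num) (by unfold gA5; ring))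

theorem aux15 {r : ℝ} (h1 : 7 / 5 ≤ r) (h2 : r ≤ 2) : Aux r := by
  obtain ⟨e1, -⟩ := evB15 (r := r) (by linarith) (by linarith)
  obtain ⟨e3, -⟩ := evA5 (r := r) (by linarith)
  refine ⟨?_, ?_, ?_, ?_, ?_⟩ <;> simp only [e1, e3]
  · exact Or.inr (sub_nonpos.1 (bp2 (53893228183 / 135000000000) (66626256883 / 67500000000)
      (81024285583 / 135000000000) h1 h2 (by norm_num) (by unfold gB15; ring)))
  · exact sub_nonpos.1 (bp2 (180539641313 / 15000000000) (260791527013 / 7500000000) (125286137571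
      / 5000000000) h1 h2 (by norm_num) (by unfold gB15; ring))
  · exact sub_nonpos.1 (bp2 (4492234669 / 360000000) (6477600469 / 180000000) (9340646269 /
      360000000) h1 h2 (by norm_num) (by unfold gA5; ring))
  · exact sub_nonpos.1 (bp2 (172356771817 / 135000000000) (264623743117 / 67500000000)
      (400225714417 / 135000000000) h1 h2 (by norm_num) (by unfold gB15; ring))
  · exact sub_nonpos.1 (bp2 (1473064007 / 1080000000) (2304381407 / 540000000) (3608738807 /
      1080000000) h1 h2 (by norm_num) (by unfold gA5; ring))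

theorem aux16 {r : ℝ} (h1 : 2 ≤ r) : Aux r := by
  obtain ⟨e1, -⟩ := evB16 (r := r) (by linarith)
  obtain ⟨e3, -⟩ := evA5 (r := r) (by linarith)
  refine ⟨?_, ?_, ?_, ?_, ?_⟩ <;> simp only [e1, e3]
  · exact Or.inr (sub_nonpos.1 (rp2 (81024285583 / 375000000000) (47993429 / 375000000) 0 h1
      (by norm_num) (by unfold gB16; ring)))
  · exact sub_nonpos.1 (rp2 (1127575238139 / 125000000000) (1150668857 / 125000000) (7 / 3) h1
      (by norm_num) (by unfold gB16; ring))
  · exact sub_nonpos.1 (rp2 (9340646269 / 1000000000) (4771743 / 500000) (1219 / 500) h1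
      (by norm_num) (by unfold gA5; ring))
  · exact sub_nonpos.1 (rp2 (400225714417 / 375000000000) (150668857 / 125000000) (1 / 3) h1
      (by norm_num) (by unfold gB16; ring))
  · exact sub_nonpos.1 (rp2 (3608738807 / 3000000000) (724643 / 500000) (219 / 500) h1
      (by norm_num) (by unfold gA5; ring))

theorem aux {r : ℝ} (h : 0 ≤ r) : Aux r := by
  rcases le_total r (11 / 500) with h' | h
  · exact aux0 h h'
  rcases le_total r (4 / 125) with h' | h
  · exact aux1 h h'
  rcases le_total r (9 / 200) with h' | h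
  · exact aux2 h h'
  rcases le_total r (3 / 50) with h' | h
  · exact aux3 h h'
  rcases le_total r (3 / 40) with h' | h
  · exact aux4 h h'
  rcases le_total r (9 / 100) with h' | h
  · exact aux5 h h'
  rcases le_total r (11 / 100) with h' | h
  · exact aux6 h h'
  rcases le_total r (7 / 50) with h' | h
  · exact aux7 h h'
  rcases le_total r (9 / 50) with h' | h
  · exact aux8 h h'
  rcases le_total r (1 / 4) with h' | h
  · exact aux9 h h'
  rcases le_total r (7 / 20) with h' | h
  · exact aux10 h h'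
  rcases le_total r (1 / 2) with h' | h
  · exact aux11 h h'
  rcases le_total r (7 / 10) with h' | h
  · exact aux12 h h'
  rcases le_total r 1 with h' | h
  · exact aux13 h h'
  rcases le_total r (7 / 5) with h' | h
  · exact aux14 h h'
  rcases le_total r 2 with h' | h
  · exact aux15 h h'
  exact aux16 h

end Pool.Agent.Lib.MP_de485e_gt.Two
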