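import Pool.Agent.Lib.MP_de485e_gt.Hi.M5b
import Pool.Agent.Lib.MP_de485e_gt.Two.T4

/-! The gradient estimate, the exponential decay and the improved pinching for surfaces. -/

open Set Filter Topology
open scoped RealInnerProductSpace InnerProduct Manifold ContDiff

namespace Pool.Agent.Lib.MP_de485e_gt.Hi

open Conv

variable {P Q : Type} [NormedAddCommGroup P] [InnerProductSpace ℝ P] [CompleteSpace P]
  [FiniteDimensional ℝ P] [NormedAddCommGroup Q] [InnerProductSpace ℝ Q] [CompleteSpace Q]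
  [FiniteDimensional ℝ Q] {M : Type} [TopologicalSpace M] [ChartedSpace P M]
  [IsManifold 𝓘(ℝ, P) ∞ M] {F : ℝ → M → Q} {n : ℕ} {ι : Type} [Fintype ι] [DecidableEq ι]
  [CompactSpace M]

/-- The decaying pinching constant. -/
noncomputable def zf (c t₁ t : ℝ) : ℝ := 79 / 250 * Real.exp (-(c * (t - t₁)))

theorem zf_pos (c t₁ t : ℝ) : 0 < zf c t₁ t := by
  unfold zf
  positivity

namespace Flow

variable {J : Set ℝ} (h : Flow P n F J) (b : OrthonormalBasis ι ℝ Q) {c t₁ : ℝ}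

/-- The pinching of a surface from time `t₁` on. -/
structure Pin5 (c t₁ : ℝ) : Prop where
  hn : n = 2
  c0 : 0 < c
  c1 : c ≤ 1
  k : ∀ t ∈ J, t₁ ≤ t → ∀ x, (h.X b (t, x)).K5 (zf c t₁ t)

/-- A point of the domain. -/
private abbrev M5a_z {t : ℝ} (ht : t ∈ J) (x : M) : (J ×ˢ (univ : Set M) : Set (ℝ × M)) :=
  ⟨(t, x), ht, mem_univ x⟩

omit [CompactSpace M] in
private theorem M5a_pt (l : ℝ) (z : (J ×ˢ (univ : Set M) : Set (ℝ × M))) :
    ev z ((h.S b).arr.om l) = l ^ 2 + ev z (h.S b).arr.e2 ∧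
      ev z (h.S b).arr.W = (n : ℝ) ^ 2 * (1 + ev z (h.S b).arr.e2) ∧
      0 ≤ ev z (h.S b).arr.e2 := by
  have hg := (h.S b).good_pt (ev z)
  refine ⟨?_, ?_, ?_⟩
  · simp only [Arr.om, map_add, AlgHom.commutes, Algebra.algebraMap_self, RingHom.id_apply]
  · have h1 : ((h.S b).arr.map (ev z)).W =
        (n : ℝ) ^ 2 * (1 + ((h.S b).arr.map (ev z)).e2) := hg.W_eq
    rwa [Arr.map_W, Arr.map_e2] at h1
  · exact Arr.map_e2 (h.S b).arr (ev z) ▸ hg.e2_nonneg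

omit [CompactSpace M] in
private theorem M5a_K (k : h.Pin5 b c t₁) {t : ℝ} (ht : t ∈ J) (h1 : t₁ ≤ t) (x : M) :
    ((h.S b).pt (ev (M5a_z ht x))).K5 (zf c t₁ t) :=
  h.X_eq b (M5a_z ht x) ▸ k.k t ht h1 x

omit [CompactSpace M] in
/-- `W = n ^ 2 (1 + e2)`. -/
theorem om_W5 (hn : n = 2) {t : ℝ} (ht : t ∈ J) (x : M) :
    1 ≤ fn ((h.S b).arr.om 14) (t, x) ∧
      (h.data b).W t x ≤ (n : ℝ) ^ 2 * fn ((h.S b).arr.om 14) (t, x) ∧
      n * fn ((h.S b).arr.om 14) (t, x) ≤ 100 * (h.data b).W t x := by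
  obtain ⟨h1, h2, h3⟩ := M5a_pt h b 14 (M5a_z ht x)
  rw [ev_eq] at h1 h2
  have h4 : (h.data b).W t x = _ := h2
  have h5 : fn ((h.S b).arr.om 14) (t, x) = _ := h1
  have hn' : (n : ℝ) = 2 := by rw [hn]; norm_num
  rw [h4, h5, hn']
  exact ⟨by linarith, by linarith, by linarith⟩

theorem u_pin5 (k : h.Pin5 b c t₁) {t : ℝ} (ht : t ∈ J) (h1 : t₁ ≤ t) (x : M) :
    (h.data b).u t x ≤ 113 * zf c t₁ t * (h.data b).W t x := by
  have h2 : ((h.S b).arr.map (ev (M5a_z ht x))).u ≤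
      9 / 8 * zf c t₁ t * n *
        (14 ^ 2 + ((h.S b).arr.map (ev (M5a_z ht x))).e2) :=
    (M5a_K h b k ht h1 x).u_le
  rw [Arr.map_u, Arr.map_e2, ← (M5a_pt h b 14 _).1, ev_eq, ev_eq] at h2
  have h3 : (h.data b).u t x ≤
    9 / 8 * zf c t₁ t * n * fn ((h.S b).arr.om 14) (t, x) := h2
  obtain ⟨h4, -, h5⟩ := h.om_W5 b k.hn ht x
  have hZ := zf_pos c t₁ t
  have h6 := mul_le_mul_of_nonneg_left h5 hZ.le
  have h7 : 0 ≤ zf c t₁ t * (n * fn ((h.S b).arr.om 14) (t, x)) := by positivity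
  nlinarith

/-- `maxP` for `v ζ / g1 ^ 2` with `ζ t = Z exp (-c (t - t₁))` (`exists_time`,
`exists_inv`), `touch_max`, `touch15`, `g1_bounds5`. -/
theorem est15 (k : h.Pin5 b c t₁) (h1 : t₁ ∈ J) : ∃ C : ℝ, 0 < C ∧ ∀ t ∈ J, t₁ ≤ t → ∀ x,
    (h.data b).v t x ≤ C * zf c t₁ t * fn ((h.S b).arr.om 14) (t, x) ^ 2 := by
  have hZ : (0 : ℝ) < 79 / 250 := by norm_num
  obtain ⟨ζ, hζ, hζD, hζT⟩ := h.dom.exists_time
    (f := fun r => 79 / 250 * Real.exp (-(c * (r - t₁))))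
    (f' := fun r => 79 / 250 * (Real.exp (-(c * (r - t₁))) * -(c * 1))) (by fun_prop)
    fun r => ((((hasDerivAt_id r).sub_const t₁).const_mul c).neg.exp).const_mul (79 / 250)
  obtain ⟨ζi, hi⟩ := Dom.exists_inv ζ fun z => by
    rw [hζ]
    positivity
  have hζ0 : ∀ {t : ℝ} (ht : t ∈ J) (_ : t₁ ≤ t) (x : M),
      ev (M5a_z ht x) ζ = zf c t₁ t := fun ht _ x => by
    rw [hζ, zf]
  have hζi : ∀ {t : ℝ} (ht : t ∈ J) (_ : t₁ ≤ t) (x : M),
      ev (M5a_z ht x) ζi = (zf c t₁ t)⁻¹ := fun ht h2 x =>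
    eq_inv_of_mul_eq_one_left (by rw [← hζ0 ht h2 x, ← map_mul, hi, map_one])
  obtain ⟨B, hB0, hB⟩ : ∃ B : ℝ, 0 ≤ B ∧ ∀ x, fn (h.S b).arr.v (t₁, x) ≤ B := by
    have h2 : ContinuousOn (fun x : M => fn (h.S b).arr.v (t₁, x)) univ :=
      (h.cont _).comp (continuous_const.prodMk continuous_id).continuousOn
        fun x _ => ⟨h1, mem_univ _⟩
    obtain ⟨B, hB⟩ := isCompact_univ.bddAbove_image h2
    exact ⟨max B 0, le_max_right _ _, fun x => (hB ⟨x, mem_univ _, rfl⟩).trans (le_max_left _ _)⟩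
  obtain ⟨A, hA⟩ : ∃ A : ℝ, A = 32 * (n : ℝ) ^ 2 * (300 * (Fintype.card ι : ℝ) ^ 7 + 16016) :=
    ⟨_, rfl⟩
  have hA0 : 0 ≤ A := by rw [hA]; positivity
  obtain ⟨K, hK⟩ : ∃ K : ℝ, K = A + 64 * B / (79 / 250) + 1 := ⟨_, rfl⟩
  have hBZ : 0 ≤ 64 * B / (79 / 250) := by positivity
  have hK0 : 0 < K := by linarith
  obtain ⟨g, hg⟩ : ∃ g, g = (h.S b).arr.v - K • (ζi * (h.S b).arr.g1 14 ζ ^ 2) := ⟨_, rfl⟩
  have eg : ∀ z : (J ×ˢ (univ : Set M) : Set (ℝ × M)), fn g z =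
      ev z (h.S b).arr.v - K * (ev z ζi * ev z ((h.S b).arr.g1 14 ζ) ^ 2) := fun z => by
    rw [← ev_eq, hg, map_sub, map_smul, map_mul, map_pow, smul_eq_mul]
  have hb : ∀ {t : ℝ} (ht : t ∈ J) (_ : t₁ ≤ t) (x : M),
      zf c t₁ t * fn ((h.S b).arr.om 14) (t, x) / 8 ≤
        ev (M5a_z ht x) ((h.S b).arr.g1 14 ζ) ∧
      ev (M5a_z ht x) ((h.S b).arr.g1 14 ζ) ≤
        5 / 4 * zf c t₁ t * fn ((h.S b).arr.om 14) (t, x) := fun ht h2 x => by
    have h3 := ((h.S b).g1_bounds5 _ (M5a_K h b k ht h2 x) (hζ0 ht h2 x)).2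
    rw [ev_eq _ ((h.S b).arr.om _)] at h3
    exact h3
  refine ⟨25 / 16 * K, by positivity, fun t ht h2 x => ?_⟩
  have hsub : Icc t₁ t ⊆ J := h.ord.out h1 ht
  have key := maxP (G := fn g) (a := t₁) (b := t) (K := 0)
    ((h.cont g).mono (prod_mono_left hsub)) ?_ ?_ t ⟨h2, le_rfl⟩ x
  · have e1 : fn g (t, x) = _ := eg (M5a_z ht x)
    rw [e1, hζi ht h2 x, ev_eq _ (h.S b).arr.v] at key
    obtain ⟨h3, h4⟩ := hb ht h2 x
    have h5 := (h.om_W5 b k.hn ht x).1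
    have hZt := zf_pos c t₁ t
    have e2 : (h.data b).v t x = fn (h.S b).arr.v (t, x) := rfl
    rw [e2]
    generalize ev (M5a_z ht x)
      ((h.S b).arr.g1 14 ζ) = γ at key h3 h4
    generalize fn ((h.S b).arr.om 14) (t, x) = w at h3 h4 h5 ⊢
    generalize zf c t₁ t = Z at key h3 h4 hZt ⊢
    have h6 : γ ^ 2 ≤ (5 / 4 * Z * w) ^ 2 :=
      pow_le_pow_left₀ (le_trans (by positivity) h3) h4 2
    have h7 : K * (Z⁻¹ * γ ^ 2) ≤ K * (Z⁻¹ * (5 / 4 * Z * w) ^ 2) :=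
      mul_le_mul_of_nonneg_left (mul_le_mul_of_nonneg_left h6 (by positivity)) hK0.le
    have h8 : K * (Z⁻¹ * (5 / 4 * Z * w) ^ 2) = 25 / 16 * K * Z * w ^ 2 := by
      field_simp
      ring
    have key' : fn (h.S b).arr.v (t, x) - K * (Z⁻¹ * γ ^ 2) < 0 := key
    linarith
  · intro y
    have e1 : fn g (t₁, y) = _ := eg (M5a_z h1 y)
    rw [e1, hζi h1 le_rfl y, ev_eq _ (h.S b).arr.v]
    have h3 := (hb h1 le_rfl y).1
    have h5 := (h.om_W5 b k.hn h1 y).1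
    have h6 := hB y
    rw [show zf c t₁ t₁ = 79 / 250 by simp [zf]] at h3 ⊢
    generalize ev (M5a_z h1 y)
      ((h.S b).arr.g1 14 ζ) = γ at h3 ⊢
    have h7 : 79 / 250 / 8 ≤ γ := by
      have := mul_le_mul_of_nonneg_left h5 hZ.le
      linarith
    have h8 : (79 / 250 / 8) ^ 2 ≤ γ ^ 2 := pow_le_pow_left₀ (by positivity) h7 2
    have h9 : K * ((79 / 250 : ℝ)⁻¹ * (79 / 250 / 8) ^ 2) ≤ K * ((79 / 250 : ℝ)⁻¹ * γ ^ 2) :=
      mul_le_mul_of_nonneg_left (mul_le_mul_of_nonneg_left h8 (by positivity)) hK0.le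
    have h10 : K * ((79 / 250 : ℝ)⁻¹ * (79 / 250 / 8) ^ 2) = B + (A + 1) * (79 / 250) / 64 := by
      rw [hK]
      field_simp
      ring
    have h11 : 0 < (A + 1) * (79 / 250) / 64 := by positivity
    show fn (h.S b).arr.v (t₁, y) - K * ((79 / 250 : ℝ)⁻¹ * γ ^ 2) < 0
    linarith
  · intro s hs y hle he
    have hsJ : s ∈ J := hsub ⟨hs.1.le, hs.2⟩
    have hT : (h.S b).Touch (ev (M5a_z hsJ y)) g :=
      touch_max h.dom h.dim h.flw b g (G := fn g) (fun z => ev_eq z g) (M5a_z hsJ y)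
        hs.1 fun r hr w => (hle r hr w).trans he.ge
    rw [hg] at hT
    refine (h.S b).touch15 _ (M5a_K h b k hsJ hs.1.le y) (c := c) (K0 := K)
      k.c0.le k.c1 (fun a => hζD (b a)) (hζ0 hsJ hs.1.le y) ?_ hi
      ?_ ?_ hT
    · have e1 : ev (M5a_z hsJ y) ((h.S b).dt ζ) =
          79 / 250 * (Real.exp (-(c * (s - t₁))) * -(c * 1)) := hζT _
      rw [e1, zf]
      ring
    · have e1 : A < K := by linarith
      rw [hA] at e1
      exact e1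
    · have e1 : fn g (s, y) = _ := eg (M5a_z hsJ y)
      rw [he] at e1
      rw [map_mul, map_pow]
      exact sub_eq_zero.1 e1.symm

theorem estB5 (k : h.Pin5 b c t₁) (h1 : t₁ ∈ J) {J' : Set ℝ} (hJ : J' ⊆ J ∩ Ici t₁) :
    EstB J' (h.data b) := by
  obtain ⟨C, hC, hv⟩ := h.est15 b k h1
  have hm := k.c0
  have hn : (2 : ℝ) ≤ n := by exact_mod_cast h.dim.hn
  refine ⟨(113 + 10 ^ 4 * C) * (79 / 250 * Real.exp (c * t₁)), c, by positivity,
    hm, fun t ht x => ?_⟩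
  obtain ⟨htJ, h2⟩ := hJ ht
  have h3 := h.u_pin5 b k htJ h2 x
  have h4 := hv t htJ h2 x
  obtain ⟨h5, -, h6⟩ := h.om_W5 b k.hn htJ x
  have e1 : (113 + 10 ^ 4 * C) * (79 / 250 * Real.exp (c * t₁)) * Real.exp (-(c * t)) =
      (113 + 10 ^ 4 * C) * zf c t₁ t := by
    rw [zf, mul_assoc, mul_assoc, ← Real.exp_add]
    congr 3
    ring
  rw [e1]
  have hZt := zf_pos c t₁ t
  generalize zf c t₁ t = Z at h3 h4 hZt ⊢
  generalize fn ((h.S b).arr.om 14) (t, x) = w at h4 h5 h6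
  generalize (h.data b).W t x = W at h3 h6 ⊢
  have h7 : w ≤ 100 * W := by nlinarith
  have hW : 0 ≤ W := by linarith
  have h8 : w ^ 2 ≤ (100 * W) ^ 2 := pow_le_pow_left₀ (by linarith) h7 2
  have h9 := mul_le_mul_of_nonneg_left h8 (mul_pos hC hZt).le
  have h10 : 0 ≤ C * Z * W := by positivity
  have h11 : 0 ≤ Z * W ^ 2 := by positivity
  constructor
  · nlinarith
  · nlinarith

theorem estA5 (k : h.Pin5 b c t₁) (h1 : t₁ ∈ J) {J' : Set ℝ} {T : ℝ} (hJ : J' ⊆ J ∩ Ico t₁ T) :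
    EstA J' (h.data b) := by
  obtain ⟨C, hC, hv⟩ := h.est15 b k h1
  obtain ⟨lam, σ, ρ, hl, hσ, hσ2, hρ, hT⟩ := (h.S b).touch25 hC
  obtain ⟨w, hw⟩ : ∃ w, w = (h.S b).arr.om 14 := ⟨_, rfl⟩
  have hom := fun t (ht : t ∈ J) x => h.om_W5 b k.hn ht x
  rw [← hw] at hv hT hom
  have hw1 : ∀ z : (J ×ˢ (univ : Set M) : Set (ℝ × M)), 1 ≤ ev z w := fun z => by
    rw [ev_eq]
    exact (hom z.1.1 z.2.1 z.1.2).1
  obtain ⟨E, hE, hED, hET⟩ := h.dom.exists_time (f := fun r => Real.exp (ρ * (r - t₁)))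
    (f' := fun r => Real.exp (ρ * (r - t₁)) * ρ) (by fun_prop) fun r => by
      simpa using (((hasDerivAt_id r).sub_const t₁).const_mul ρ).exp
  obtain ⟨Ψ, hΨ, hΨD, hΨT⟩ := h.dom.exists_rpow w (fun z => one_pos.trans_le (hw1 z)) (2 - σ)
  obtain ⟨B, hB0, hB⟩ := M5b_bdd (h.cont ((h.S b).arr.u * w + lam • (h.S b).arr.v)) h1
  have hK0 : 0 < B + 1 := by linarith
  have eΦ : ∀ z : (J ×ˢ (univ : Set M) : Set (ℝ × M)), ev z ((B + 1) • (E * Ψ)) =
      (B + 1) * (Real.exp (ρ * (z.1.1 - t₁)) * ev z w ^ (2 - σ)) := fun z => by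
    rw [map_smul, map_mul, hE, hΨ, smul_eq_mul]
  have hdt : h.dom.dt E = ρ • E := rg_ext fun z => by
    rw [hET, map_smul, hE, smul_eq_mul, mul_comm]
  have main : ∀ t ∈ J, t₁ ≤ t → ∀ x,
      fn ((h.S b).arr.u * w + lam • (h.S b).arr.v - (B + 1) • (E * Ψ)) (t, x) < 0 := by
    intro t ht htt x
    have hsub : Icc t₁ t ⊆ J := h.ord.out h1 ht
    refine maxP (a := t₁) (b := t) (K := 0) ((h.cont _).mono (prod_mono_left hsub)) ?_ ?_ t
      ⟨htt, le_rfl⟩ x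
    · intro y
      have hy := hB y
      have e := ev_eq (P := P) (⟨(t₁, y), h1, mem_univ y⟩ : (J ×ˢ (univ : Set M) : Set (ℝ × M)))
      simp only at e
      rw [← e] at hy ⊢
      rw [map_sub, eΦ]
      simp only [sub_self, mul_zero, Real.exp_zero, one_mul]
      have h2 := Real.one_le_rpow (hw1 ⟨(t₁, y), h1, mem_univ y⟩) (show 0 ≤ 2 - σ by linarith)
      have h3 := mul_le_mul_of_nonneg_left h2 hK0.le
      linarith
    · intro s hs y hle he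
      have hsJ : s ∈ J := hsub ⟨hs.1.le, hs.2⟩
      let z : (J ×ˢ (univ : Set M) : Set (ℝ × M)) := ⟨(s, y), hsJ, mem_univ y⟩
      refine hT (ev z) (zf c t₁ s) ?_ ?_ _ (fun a => ?_) (M5b_der h.dom.dt hdt hΨT) ?_ ?_
        (h.M5b_touch b _ hsJ y hs.1 hle he)
      · rw [← h.X_eq b z]
        exact k.k s hsJ hs.1.le y
      · rw [ev_eq, ev_eq]
        refine (hv s hsJ hs.1.le y).trans ?_
        have hZ : zf c t₁ s ≤ 1 := by linarith [(k.k s hsJ hs.1.le y).hZ1]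
        exact mul_le_mul_of_nonneg_right (mul_le_of_le_one_right hC.le hZ) (sq_nonneg _)
      · have h0 : h.dom.D (b a) E = (0 : ℝ) • E := by rw [hED, zero_smul]
        have h2 := M5b_der (K := B + 1) (h.dom.D (b a)) h0 (hΨD (b a))
        rw [zero_smul, add_zero] at h2
        exact h2
      · rw [eΦ]
        exact mul_pos hK0 (mul_pos (Real.exp_pos _)
          (Real.rpow_pos_of_pos (one_pos.trans_le (hw1 z)) _))
      · have e1 := (ev_eq z _).trans he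
        rw [map_sub] at e1
        linarith
  have hK1 : 0 < (B + 1) * Real.exp (ρ * (T - t₁)) := mul_pos hK0 (Real.exp_pos _)
  refine ⟨10000 * ((B + 1) * Real.exp (ρ * (T - t₁))) * (1 + lam⁻¹), σ, by positivity, hσ,
    by linarith, fun t ht x => ?_⟩
  obtain ⟨htJ, ht1, ht2⟩ := hJ ht
  let z : (J ×ˢ (univ : Set M) : Set (ℝ × M)) := ⟨(t, x), htJ, mem_univ x⟩
  obtain ⟨hW, hu0, hv0⟩ := h.M5b_pt b htJ x
  obtain ⟨o1, -, o3⟩ := hom t htJ x
  have hn : (2 : ℝ) ≤ n := by exact_mod_cast h.dim.hn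
  refine M5b_fin o1 (by nlinarith) hu0 hv0 hK1 hl (by linarith) hσ.le ?_
  have h4 := (ev_eq z _).trans_lt (main t htJ ht1 x)
  rw [map_sub, eΦ, map_add, map_mul, map_smul, smul_eq_mul, ev_eq, ev_eq, ev_eq] at h4
  have h5 : Real.exp (ρ * (t - t₁)) ≤ Real.exp (ρ * (T - t₁)) :=
    Real.exp_le_exp.2 (mul_le_mul_of_nonneg_left (by linarith) hρ.le)
  have h6 := mul_le_mul_of_nonneg_left (mul_le_mul_of_nonneg_right h5
    (Real.rpow_nonneg (zero_le_one.trans o1) (2 - σ))) hK0.le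
  have h7 : (h.data b).u t x * fn w (t, x) + lam * (h.data b).v t x -
    (B + 1) * (Real.exp (ρ * (t - t₁)) * fn w (t, x) ^ (2 - σ)) < 0 := h4
  linarith

end Flow

end Pool.Agent.Lib.MP_de485e_gt.Hi
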