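import Pool.Agent.Lib.MP_de485e_gt.Hi.M1
import Pool.Agent.Lib.MP_de485e_gt.Global
import Pool.Agent.Lib.MP_de485e_gt.Two.Alg

/-! The initial condition persists for a short time; its form for arrays. -/

open Set Filter Topology
open scoped RealInnerProductSpace InnerProduct Manifold ContDiff

namespace Pool.Agent.Lib.MP_de485e_gt.Hi

open Conv

variable {P Q : Type} [NormedAddCommGroup P] [InnerProductSpace ℝ P] [CompleteSpace P]
  [FiniteDimensional ℝ P] [NormedAddCommGroup Q] [InnerProductSpace ℝ Q] [CompleteSpace Q]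
  [FiniteDimensional ℝ Q] {M : Type} [TopologicalSpace M] [ChartedSpace P M]

variable (P) in
/-- The condition at a point. -/
def StartAt (G : M → Q) (x : M) : Prop :=
  (∀ u, ‖dF P G x u‖ = 1 → ‖sff P G x u u‖ ^ 2 < 1 / 3) ∨
    ∀ u v, Orthonormal ℝ ![dF P G x u, dF P G x v] →
      ‖sff P G x u u - sff P G x v v‖ ^ 2 < 123 / 100

omit [CompleteSpace P] in
private theorem tau_iff {G : M → Q} {x : M} (hG : ContDiffAt ℝ 2 (loc P G x) (chartAt P x x))
    (hi : Function.Injective (dF P G x)) (c : ℝ) :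
    (∀ u v, Orthonormal ℝ ![dF P G x u, dF P G x v] → ‖sff P G x u u - sff P G x v v‖ ^ 2 < c) ↔
      ∀ u v, u ≠ 0 → v ≠ 0 → ⟪dF P G x u, dF P G x v⟫ = 0 →
        phi 0 (loc P G x) (chartAt P x x) u v < c := by
  have key : ∀ u v, ⟪dF P G x u, dF P G x u⟫ = 1 → ⟪dF P G x v, dF P G x v⟫ = 1 →
      phi 0 (loc P G x) (chartAt P x x) u v = ‖sff P G x u u - sff P G x v v‖ ^ 2 := by
    intro u v hu hv
    unfold dF at hu hv
    simp only [phi, kS, nz, hu, hv, inv_one, one_smul, sff_eq hG, real_inner_self_eq_norm_sq,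
      zero_mul, mul_zero, sub_zero]
  have k : ∀ w : Q, ⟪w, w⟫ = 1 ↔ ‖w‖ = 1 := fun w => by
    rw [real_inner_self_eq_norm_sq, pow_eq_one_iff_of_nonneg (norm_nonneg _) two_ne_zero]
  constructor
  · intro H u v hu hv huv
    have hu' : ‖dF P G x u‖ ≠ 0 :=
      norm_ne_zero_iff.2 fun e => hu (hi (e.trans (map_zero _).symm))
    have hv' : ‖dF P G x v‖ ≠ 0 :=
      norm_ne_zero_iff.2 fun e => hv (hi (e.trans (map_zero _).symm))
    have e1 : ‖dF P G x (‖dF P G x u‖⁻¹ • u)‖ = 1 := by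
      rw [map_smul, norm_smul, norm_inv, norm_norm, inv_mul_cancel₀ hu']
    have e2 : ‖dF P G x (‖dF P G x v‖⁻¹ • v)‖ = 1 := by
      rw [map_smul, norm_smul, norm_inv, norm_norm, inv_mul_cancel₀ hv']
    have e3 : ⟪dF P G x (‖dF P G x u‖⁻¹ • u), dF P G x (‖dF P G x v‖⁻¹ • v)⟫ = 0 := by
      rw [map_smul, map_smul, real_inner_smul_left, real_inner_smul_right, huv, mul_zero, mul_zero]
    have := H (‖dF P G x u‖⁻¹ • u) (‖dF P G x v‖⁻¹ • v) (by
      rw [orthonormal_vecCons_iff, orthonormal_vecCons_iff]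
      exact ⟨e1, Fin.forall_fin_one.2 e3, e2, by simp, by simp⟩)
    rw [← key _ _ ((k _).2 e1) ((k _).2 e2)] at this
    simpa only [phi, kS_smul _ _ _ (inv_ne_zero hu'), kS_smul _ _ _ (inv_ne_zero hv')] using this
  · intro H u v huv
    rw [orthonormal_vecCons_iff, orthonormal_vecCons_iff] at huv
    obtain ⟨hu, huv, hv, -⟩ := huv
    rw [← key _ _ ((k _).2 hu) ((k _).2 hv)]
    exact H u v (fun e => by simp [e] at hu) (fun e => by simp [e] at hv) (huv 0)

omit [CompleteSpace P] in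
private theorem sig_iff {G : M → Q} {x : M} (hG : ContDiffAt ℝ 2 (loc P G x) (chartAt P x x))
    (hi : Function.Injective (dF P G x)) (c : ℝ) :
    (∀ u, ‖dF P G x u‖ = 1 → ‖sff P G x u u‖ ^ 2 < c) ↔
      ∀ u, u ≠ 0 → phi (-(1 / 4)) (loc P G x) (chartAt P x x) u u < 1 + c := by
  have key : ∀ u, ‖dF P G x u‖ = 1 →
      phi (-(1 / 4)) (loc P G x) (chartAt P x x) u u = 1 + ‖sff P G x u u‖ ^ 2 := by
    intro u hu
    unfold dF at hu
    simp only [phi, kS, nz, hu, one_pow, inv_one, one_smul, sff_eq hG, real_inner_self_eq_norm_sq,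
      sub_self, norm_zero]
    ring
  constructor
  · intro H u hu
    have hu' : ‖dF P G x u‖ ≠ 0 :=
      norm_ne_zero_iff.2 fun e => hu (hi (e.trans (map_zero _).symm))
    have e1 : ‖dF P G x (‖dF P G x u‖⁻¹ • u)‖ = 1 := by
      rw [map_smul, norm_smul, norm_inv, norm_norm, inv_mul_cancel₀ hu']
    have := add_lt_add_right (H _ e1) 1
    rw [← key _ e1] at this
    simpa only [phi, kS_smul _ _ _ (inv_ne_zero hu')] using this
  · intro H u hu
    have := H u fun e => by simp [e] at hu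
    rw [key _ hu] at this
    linarith

variable [IsManifold 𝓘(ℝ, P) ∞ M] {F : ℝ → M → Q}

private theorem loc_tau {S c : ℝ} (hS : 0 < S) (h : IsSphereMCF P F (Ico 0 S)) (d : M)
    (h0 : ∀ u v, u ≠ 0 → v ≠ 0 → ⟪dF P (F 0) d u, dF P (F 0) d v⟫ = 0 →
      phi 0 (loc P (F 0) d) (chartAt P d d) u v < c) :
    ∀ᶠ z : ℝ × M in 𝓝 (0, d), z.1 ∈ Ico 0 S → ∀ u v, u ≠ 0 → v ≠ 0 →
      ⟪dF P (F z.1) z.2 u, dF P (F z.1) z.2 v⟫ = 0 →
      phi 0 (fun y => gc P F z.2 (z.1, y)) (chartAt P z.2 z.2) u v < c := by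
  have hI := uniqueDiffOn_Ico 0 S
  have h00 : (0 : ℝ) ∈ Ico 0 S := ⟨le_rfl, hS⟩
  have ne : ∀ w ∈ Metric.sphere (0 : P) 1, w ≠ 0 := fun w hw e => by simp [e] at hw
  have h1 := param hI (chartAt P d).open_target (m := 1) (by norm_cast) (h.sm d)
  have hm : MapsTo Prod.fst ((Ico 0 S ×ˢ (chartAt P d).target) ×ˢ (univ : Set (P × P)))
    (Ico 0 S ×ˢ (chartAt P d).target) := fun _ hw => hw.1
  have ha : ((0 : ℝ), chartAt P d d) ∈ Ico 0 S ×ˢ (chartAt P d).target :=
    mk_mem_prod h00 (mem_chart_target _ d)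
  have H : ∀ᶠ p in 𝓝 ((0 : ℝ), chartAt P d d), ∀ w ∈ Metric.sphere (0 : P) 1 ×ˢ
      Metric.sphere (0 : P) 1, p ∈ Ico 0 S ×ˢ (chartAt P d).target →
      ⟪fderiv ℝ (fun y => gc P F d (p.1, y)) p.2 w.1,
        fderiv ℝ (fun y => gc P F d (p.1, y)) p.2 w.2⟫ = 0 →
      phi 0 (fun y => gc P F d (p.1, y)) p.2 w.1 w.2 < c := by
    refine ((isCompact_sphere _ _).prod
      (isCompact_sphere _ _)).eventually_forall_of_forall_eventually fun w hw => ?_
    by_cases hz : ⟪dF P (F 0) d w.1, dF P (F 0) d w.2⟫ = 0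
    · have := (h.cont hI d (Z := fun _ => 0) continuous_const (a := ((0, chartAt P d d), w))
        ha (ne _ hw.1) (ne _ hw.2)).eventually
        (gt_mem_nhds (h0 _ _ (ne _ hw.1) (ne _ hw.2) hz))
      exact (eventually_nhdsWithin_iff.1 this).mono fun z hz hp _ =>
        hz (mk_mem_prod hp (mem_univ _))
    · have hL : ContinuousWithinAt (fun z : (ℝ × P) × P × P =>
          fderiv ℝ (fun y => gc P F d (z.1.1, y)) z.1.2)
          ((Ico 0 S ×ˢ (chartAt P d).target) ×ˢ univ) (((0 : ℝ), chartAt P d d), w) :=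
        ContinuousWithinAt.comp (f := Prod.fst) (x := (((0 : ℝ), chartAt P d d), w))
          (h1.continuousOn _ ha) continuousWithinAt_fst hm
      have hc : ContinuousWithinAt (fun z : (ℝ × P) × P × P =>
          ⟪fderiv ℝ (fun y => gc P F d (z.1.1, y)) z.1.2 z.2.1,
            fderiv ℝ (fun y => gc P F d (z.1.1, y)) z.1.2 z.2.2⟫)
          ((Ico 0 S ×ˢ (chartAt P d).target) ×ˢ univ) (((0 : ℝ), chartAt P d d), w) :=
        ContinuousWithinAt.inner (𝕜 := ℝ)
          (hL.clm_apply (g := fun z => z.2.1) (Continuous.continuousWithinAt (by fun_prop)))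
          (hL.clm_apply (g := fun z => z.2.2) (Continuous.continuousWithinAt (by fun_prop)))
      have := hc.eventually (isOpen_ne.mem_nhds hz)
      exact (eventually_nhdsWithin_iff.1 this).mono fun z hz hp e =>
        absurd e (hz (mk_mem_prod hp (mem_univ _)))
  have T : Tendsto (fun z : ℝ × M => (z.1, chartAt P d z.2)) (𝓝 (0, d))
      (𝓝 (0, chartAt P d d)) :=
    continuousAt_fst.prodMk (((chartAt P d).continuousAt (mem_chart_source _ d)).comp_of_eq
      continuousAt_snd rfl)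
  filter_upwards [T.eventually H, continuousAt_snd.eventually (chart_source_mem_nhds P d)]
    with z h1 h2 hz u v hu hv huv
  obtain ⟨-, A, hA, k1, -, k⟩ := h.transfer d hz h2
  have hu' : ‖A u‖ ≠ 0 := norm_ne_zero_iff.2 fun e => hu (hA.1 (e.trans (map_zero A).symm))
  have hv' : ‖A v‖ ≠ 0 := norm_ne_zero_iff.2 fun e => hv (hA.1 (e.trans (map_zero A).symm))
  rw [k1, ContinuousLinearMap.comp_apply, ContinuousLinearMap.comp_apply] at huv
  have := h1 (‖A u‖⁻¹ • A u, ‖A v‖⁻¹ • A v)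
    (mk_mem_prod (by simp [norm_smul, hu']) (by simp [norm_smul, hv']))
    (mk_mem_prod hz ((chartAt P d).map_source h2))
    (by rw [map_smul, map_smul, real_inner_smul_left, real_inner_smul_right, huv, mul_zero,
      mul_zero])
  rw [k]
  simpa only [phi, kS_smul _ _ _ (inv_ne_zero hu'), kS_smul _ _ _ (inv_ne_zero hv')] using this

private theorem loc_sig {S c Z : ℝ} (hS : 0 < S) (h : IsSphereMCF P F (Ico 0 S)) (d : M)
    (h0 : ∀ u, u ≠ 0 → phi Z (loc P (F 0) d) (chartAt P d d) u u < c) :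
    ∀ᶠ z : ℝ × M in 𝓝 (0, d), z.1 ∈ Ico 0 S → ∀ u, u ≠ 0 →
      phi Z (fun y => gc P F z.2 (z.1, y)) (chartAt P z.2 z.2) u u < c := by
  have hI := uniqueDiffOn_Ico 0 S
  have ne : ∀ w ∈ Metric.sphere (0 : P) 1, w ≠ 0 := fun w hw e => by simp [e] at hw
  have ha : ((0 : ℝ), chartAt P d d) ∈ Ico 0 S ×ˢ (chartAt P d).target :=
    mk_mem_prod ⟨le_rfl, hS⟩ (mem_chart_target _ d)
  have H : ∀ᶠ p in 𝓝 ((0 : ℝ), chartAt P d d), ∀ w ∈ Metric.sphere (0 : P) 1,
      p ∈ Ico 0 S ×ˢ (chartAt P d).target → phi Z (fun y => gc P F d (p.1, y)) p.2 w w < c := by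
    refine (isCompact_sphere _ _).eventually_forall_of_forall_eventually fun w hw => ?_
    have := (h.cont hI d (Z := fun _ => Z) continuous_const (a := ((0, chartAt P d d), w, w))
      ha (ne _ hw) (ne _ hw)).eventually (gt_mem_nhds (h0 _ (ne _ hw)))
    have t : Tendsto (fun z : (ℝ × P) × P => (z.1, z.2, z.2)) (𝓝 ((0, chartAt P d d), w))
        (𝓝 ((0, chartAt P d d), w, w)) := Continuous.tendsto (by fun_prop) _
    exact (t.eventually (eventually_nhdsWithin_iff.1 this)).mono fun z hz hp =>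
      hz (mk_mem_prod hp (mem_univ _))
  have T : Tendsto (fun z : ℝ × M => (z.1, chartAt P d z.2)) (𝓝 (0, d))
      (𝓝 (0, chartAt P d d)) :=
    continuousAt_fst.prodMk (((chartAt P d).continuousAt (mem_chart_source _ d)).comp_of_eq
      continuousAt_snd rfl)
  filter_upwards [T.eventually H, continuousAt_snd.eventually (chart_source_mem_nhds P d)]
    with z h1 h2 hz u hu
  obtain ⟨-, A, hA, -, -, k⟩ := h.transfer d hz h2
  have hu' : ‖A u‖ ≠ 0 := norm_ne_zero_iff.2 fun e => hu (hA.1 (e.trans (map_zero A).symm))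
  have := h1 (‖A u‖⁻¹ • A u) (by simp [norm_smul, hu'])
    (mk_mem_prod hz ((chartAt P d).map_source h2))
  rw [k]
  simpa only [phi, kS_smul _ _ _ (inv_ne_zero hu')] using this

theorem start_eventually [CompactSpace M] {S : ℝ} (hS : 0 < S) (h : IsSphereMCF P F (Ico 0 S))
    (h0 : ∀ x, StartAt P (F 0) x) : ∀ᶠ t in 𝓝[>] 0, ∀ x, StartAt P (F t) x := by
  have h00 : (0 : ℝ) ∈ Ico 0 S := ⟨le_rfl, hS⟩
  suffices H : ∀ᶠ s in 𝓝 (0 : ℝ), ∀ x ∈ (univ : Set M), s ∈ Ico 0 S → StartAt P (F s) x by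
    filter_upwards [mem_nhdsWithin_of_mem_nhds H, Ioo_mem_nhdsGT hS] with s hs hs' x
    exact hs x (mem_univ x) (Ioo_subset_Ico_self hs')
  refine isCompact_univ.eventually_forall_of_forall_eventually fun d _ => ?_
  have s2 := fun t ht x => h.sm2 x (t := t) ht (mem_chart_target _ x)
  rcases h0 d with k | k
  · exact (loc_sig hS h d ((sig_iff (s2 0 h00 d) (h.immersion 0 h00 d) _).1 k)).mono
      fun z hz ht => Or.inl ((sig_iff (s2 _ ht _) (h.immersion _ ht _) _).2 (hz ht))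
  · exact (loc_tau hS h d ((tau_iff (s2 0 h00 d) (h.immersion 0 h00 d) _).1 k)).mono
      fun z hz ht => Or.inr ((tau_iff (s2 _ ht _) (h.immersion _ ht _) _).2 (hz ht))

variable {n : ℕ} {ι : Type} [Fintype ι] [DecidableEq ι] {O : Set (ℝ × M)}
  (h : Dom P F O) (hd : Dm P n) (hf : Flw P F O) (b : OrthonormalBasis ι ℝ Q)

theorem pt_start (hn : n = 2) (z : O) (ht : StartAt P (F z.1.1) z.1.2) :
    ((qa h hd hf b).pt (ev z)).u / 2 + 2 * √((qa h hd hf b).pt (ev z)).zeta +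
      2 * ((qa h hd hf b).pt (ev z)).e2 < 2 / 3 ∨ ((qa h hd hf b).pt (ev z)).u ≤ 123 / 100 := by
  have G := (qa h hd hf b).good_pt (ev z)
  have sm : ∀ u v : Q, ∑ a, ⟪b a, u⟫ * ⟪b a, v⟫ = ⟪u, v⟫ := fun u v => by
    rw [← b.sum_inner_mul_inner u v]
    exact Finset.sum_congr rfl fun a _ => by rw [real_inner_comm u]
  have hi : ∀ {x y : P} {s t : ι → ℝ}, (∀ a, ⟪b a, dF P (F z.1.1) z.1.2 x⟫ = s a) →
      (∀ a, ⟪b a, dF P (F z.1.1) z.1.2 y⟫ = t a) →
      ⟪dF P (F z.1.1) z.1.2 x, dF P (F z.1.1) z.1.2 y⟫ = dot s t := fun hx hy => by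
    rw [← sm]
    exact Finset.sum_congr rfl fun a _ => by rw [hx, hy]
  refine ht.imp (fun k => G.tw_sigma hn fun e he => ?_) fun k => G.tw_tau hn ?_
  · obtain ⟨ξ, hξ⟩ := pt_lift h hd hf b z he.1
    have e1 := (hi hξ hξ).trans he.2
    have h1 := k ξ (by
      rwa [real_inner_self_eq_norm_sq, pow_eq_one_iff_of_nonneg (norm_nonneg _) two_ne_zero] at e1)
    rw [← real_inner_self_eq_norm_sq, ← sm] at h1
    refine lt_of_eq_of_lt (Finset.sum_congr rfl fun d _ => ?_) h1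
    rw [pt_sff h hd hf b, e1, funext hξ, pt_F]
    ring
  · intro e e' he he' hee
    obtain ⟨ξ, hξ⟩ := pt_lift h hd hf b z he.1
    obtain ⟨ζ, hζ⟩ := pt_lift h hd hf b z he'.1
    have e1 := (hi hξ hξ).trans he.2
    have e2 := (hi hζ hζ).trans he'.2
    have ho : Orthonormal ℝ ![dF P (F z.1.1) z.1.2 ξ, dF P (F z.1.1) z.1.2 ζ] := by
      rw [orthonormal_iff_ite]
      have e3 := (hi hξ hζ).trans hee
      have e4 := (real_inner_comm _ _).trans e3
      intro i j
      fin_cases i <;> fin_cases j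
      exacts [e1, e3, e4, e2]
    have h1 := k ξ ζ ho
    rw [← real_inner_self_eq_norm_sq, ← sm] at h1
    refine le_of_eq_of_le (Finset.sum_congr rfl fun d _ => ?_) h1.le
    rw [inner_sub_right, pt_sff h hd hf b, pt_sff h hd hf b, e1, e2, funext hξ, funext hζ]
    ring

end Pool.Agent.Lib.MP_de485e_gt.Hi
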