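import Pool.Agent.Lib.MP_de485e_gt.Two.GradIneq

/-! The barriers are not touched. -/

namespace Pool.Agent.Lib.MP_de485e_gt.Hi.QA

open Two

variable {ι : Type} [Fintype ι] {R : Type} [CommRing R] [Algebra ℝ R] (S : QA ι R)
  (ev : R →ₐ[ℝ] ℝ)

/-- The test function below `√g` with the 2-jet of `√g` at `g = r ^ 2`. -/
noncomputable def twSq (g : R) (r : ℝ) : R :=
  r • (1 + (1 / 2 : ℝ) • ((r ^ 2)⁻¹ • (g - algebraMap ℝ R (r ^ 2))) -
    (1 / 8 : ℝ) • ((r ^ 2)⁻¹ • (g - algebraMap ℝ R (r ^ 2))) ^ 2 +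
    (1 / 16 : ℝ) • ((r ^ 2)⁻¹ • (g - algebraMap ℝ R (r ^ 2))) ^ 3 -
    (1 / 2 : ℝ) • ((r ^ 2)⁻¹ • (g - algebraMap ℝ R (r ^ 2))) ^ 4)

theorem ev_twSq (g : R) (r : ℝ) : ev (twSq g r) = r * sqp ((r ^ 2)⁻¹ * (ev g - r ^ 2)) := by
  simp only [twSq, sqp, map_smul, map_add, map_sub, map_pow, map_one, smul_eq_mul,
    AlgHom.commutes, Algebra.algebraMap_self, RingHom.id_apply]

theorem L_twSq {g : R} {r : ℝ} (h : ev g = r ^ 2) : ev (S.L (twSq g r)) =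
    ev (S.L g) / (2 * r) + ev (S.grad g g) / (4 * r ^ 3) := by
  obtain ⟨y, hy⟩ : ∃ y, y = (r ^ 2)⁻¹ • (g - algebraMap ℝ R (r ^ 2)) := ⟨_, rfl⟩
  have y0 : ev y = 0 := by
    rw [hy, map_smul, map_sub, AlgHom.commutes, h]
    simp
  have y1 : ev (S.L y) = (r ^ 2)⁻¹ * ev (S.L g) := by
    rw [hy, S.L_smul, S.L_sub, S.L_alg, sub_zero, map_smul, smul_eq_mul]
  have y2 : ev (S.grad y y) = (r ^ 2)⁻¹ ^ 2 * ev (S.grad g g) := by
    simp only [grad, hy, Derivation.map_smul, map_sub, Derivation.map_algebraMap, sub_zero, map_sum,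
      map_mul, map_smul, smul_eq_mul, Finset.mul_sum]
    exact Finset.sum_congr rfl fun _ _ => by ring
  have y3 : ∀ z, ev (S.grad (y * y) z) = 0 := fun z => by
    simp only [grad, S.R2_D_sq, map_sum, map_mul, y0, zero_mul, mul_zero, Finset.sum_const_zero]
  rw [twSq, ← hy, show y ^ 2 = y * y by ring, show y ^ 3 = y * y * y by ring,
    show y ^ 4 = y * y * (y * y) by ring]
  simp only [S.L_smul, S.L_add, S.L_sub, S.L_one, S.L_mul, map_smul, map_add, map_sub, map_mul,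
    map_zero, map_ofNat, smul_eq_mul, y0, y1, y2, y3]
  rcases eq_or_ne r 0 with rfl | hr
  · simp
  · field_simp
    ring

variable (hn : S.n = 2)
include hn

theorem tw_Lr {r : ℝ} (hr : 0 ≤ r) (h : ev S.arr.e2 = r ^ 2) :
    ev (S.L (twSq S.arr.e2 r)) ≤ ev S.arr.Re / (2 * r) := by
  have h1 := S.grad_e2_le ev
  rw [S.L_twSq ev h, S.L_e2]
  simp only [map_add, map_neg, map_smul, smul_eq_mul]
  rw [h, hn] at h1
  rw [hn]
  rcases hr.eq_or_lt with rfl | hr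
  · simp
  have h2 : ev (S.grad S.arr.e2 S.arr.e2) / (4 * r ^ 3) ≤ r ^ 2 * ev S.arr.gH / (4 * r ^ 3) :=
    div_le_div_of_nonneg_right (by push_cast at h1; linarith) (by positivity)
  refine (add_le_add le_rfl h2).trans (le_of_eq ?_)
  field_simp
  push_cast
  ring

theorem tw_Lp {p : ℝ} (hp : 0 ≤ p) (h : ev S.arr.zeta = p ^ 2) :
    ev (S.L (twSq S.arr.zeta p)) ≤
      4 * ((ev S.arr.e2 + ev S.arr.u / 2) * p) - ev S.arr.twCross / (4 * p) := by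
  have G := S.good_pt ev
  have hz : S.arr.zeta = ((S.n : ℝ) ^ 3)⁻¹ • S.arr.twXi := rfl
  have hX : ev S.arr.twXi = 8 * p ^ 2 := by
    have := Arr.tw_Xi (X := S.pt ev) hn
    rwa [pt, Arr.tw_map_Xi, Arr.map_zeta, h] at this
  have hR : ev S.arr.twRz = 4 * (ev S.arr.e2 + ev S.arr.u / 2) * (8 * p ^ 2) := by
    have := G.tw_Rz hn
    rwa [pt, Arr.tw_map_Rz, Arr.tw_map_Xi, Arr.map_e2, Arr.map_u, hX] at this
  have h1 : ev (S.L S.arr.zeta) = 8 * ((ev S.arr.e2 + ev S.arr.u / 2) * p ^ 2) -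
      ev S.arr.twCross / 2 - ev S.twNN / 4 := by
    rw [hz, S.L_smul, S.L_twXi, hn]
    simp only [map_smul, map_sub, map_mul, map_ofNat, smul_eq_mul, hR]
    push_cast
    ring
  have h2 : ev (S.grad S.arr.zeta S.arr.zeta) ≤ p ^ 2 * ev S.twNN / 2 := by
    have e : ev S.arr.twXi = ∑ a, ∑ b, ev (S.arr.AH a b) * ev (S.arr.AH a b) := by
      simp only [Arr.twXi, map_sum, map_mul]
    simp only [grad, hz, Derivation.map_smul, S.D_twXi, twNN, map_sum, map_mul, map_smul,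
      map_ofNat, smul_eq_mul, hn]
    rw [Finset.mul_sum, Finset.sum_div]
    refine Finset.sum_le_sum fun k _ => ?_
    have := Arr.A3_cs2 (fun a b => ev (S.arr.AH a b)) fun a b => ev (S.twN k a b)
    rw [← e, hX] at this
    push_cast
    linarith
  rw [S.L_twSq ev h, h1]
  rcases hp.eq_or_lt with rfl | hp
  · simp
  refine (add_le_add le_rfl (div_le_div_of_nonneg_right h2 (by positivity))).trans (le_of_eq ?_)
  field_simp
  ring

theorem tw_Ls : ev (S.L ((1 / 2 : ℝ) • S.arr.u)) =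
    -ev S.arr.v + ev S.arr.gH / 2 + ev S.arr.Ru / 2 := by
  rw [S.L_smul, S.L_u, hn]
  simp only [map_smul, map_add, map_neg, map_mul, map_ofNat, smul_eq_mul]
  push_cast
  ring

theorem tw_Le : ev (S.L S.arr.e2) = -(ev S.arr.gH / 2) + ev S.arr.Re := by
  rw [S.L_e2, hn]
  simp only [map_smul, map_add, map_neg, smul_eq_mul]
  push_cast
  ring

theorem tw_pt : ∃ x, 0 ≤ x ∧ x ≤ ev S.arr.u / 2 ∧ ev S.arr.zeta ≤ ev S.arr.e2 * x ∧
    ev S.arr.Ru = 8 * (ev S.arr.zeta + (ev S.arr.u / 2) ^ 2 +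
      2 * (x * (ev S.arr.u / 2 - x)) - ev S.arr.u / 2) ∧
    ev S.arr.Re = 4 * (ev S.arr.e2 * ev S.arr.e2 + ev S.arr.zeta + ev S.arr.e2) := by
  obtain ⟨s, x, h1, h2, h3, h4, h5, h6, -⟩ := (S.good_pt ev).tw_inv hn
  simp only [pt, Arr.map_u, Arr.map_zeta, Arr.map_e2, Arr.map_Ru, Arr.map_Re] at h1 h4 h5 h6
  obtain rfl : s = ev S.arr.u / 2 := by linarith
  exact ⟨x, h2, h3, h4, h5, h6⟩

theorem touchAB {m k c r p : ℝ} (hm : 0 ≤ m) (hc : 0 ≤ c) (hk : k ≤ (4 - 4 * m - m ^ 2) / 8)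
    (hr : 0 ≤ r) (hr2 : ev S.arr.e2 = r ^ 2) (hp : 0 ≤ p) (hp2 : ev S.arr.zeta = p ^ 2) {ε : R}
    (hD : ∀ a, S.D a ε = 0) (hT : ev (S.dt ε) = -(5 * ev ε)) (hε : 0 < ev ε)
    (H : ∀ x, x ≤ ev S.arr.u / 2 + ev ε → p ^ 2 ≤ r ^ 2 * x → 0 < r →
      Rc m (2 * k * r - c) r (ev S.arr.u / 2 + ev ε) p x ≤ 0)
    (H0 : r = 0 → ev S.arr.u / 2 ≤ 2 / 3) :
    ¬S.Touch ev ((1 / 2 : ℝ) • S.arr.u + m • twSq S.arr.zeta p - k • S.arr.e2 +
      c • twSq S.arr.e2 r + ε) := by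
  rintro ⟨-, hL⟩
  have h1 := mul_le_mul_of_nonneg_left (S.tw_Lr ev hn hr hr2) hc
  have h2 := mul_le_mul_of_nonneg_left (S.tw_Lp ev hn hp hp2) hm
  have h3 := (S.good_pt ev).tw_grad hn hm hk
  rw [pt, Arr.map_zeta, Arr.tw_map_Cross, Arr.map_v, Arr.map_gH, hp2, Real.sqrt_sq hp] at h3
  rw [S.L_add, S.L_add, S.L_sub, S.L_add, S.L_time hD, S.L_smul m, S.L_smul k, S.L_smul c] at hL
  simp only [map_add, map_sub, S.tw_Ls ev hn, hT] at hL
  simp only [map_smul, smul_eq_mul, S.tw_Le ev hn] at hL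
  obtain ⟨x, x0, x1, x2, x3, x4⟩ := S.tw_pt ev hn
  rw [hr2, hp2] at x2 x4
  rw [hp2] at x3
  rw [hr2] at h2
  have e : m * (ev S.arr.twCross / (4 * p)) = m / (4 * p) * ev S.arr.twCross := by ring
  have key : ev S.arr.Ru / 2 + 4 * m * ((r ^ 2 + ev S.arr.u / 2) * p) - k * ev S.arr.Re +
      c * (ev S.arr.Re / (2 * r)) ≤ 4 * ev ε := by
    rw [x3, x4]
    generalize ev S.arr.u / 2 = s at *
    rcases hr.eq_or_lt with rfl | hr
    · have h4 := H0 rfl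
      obtain rfl : p = 0 := by nlinarith
      nlinarith [sq_nonneg (s - 2 * x), mul_nonneg (x0.trans x1) (sub_nonneg.2 h4)]
    · have h4 := shift hm hr hp x1 (x0.trans x1) hε.le
        (H (x + ev ε) (by linarith) (by nlinarith [mul_pos (pow_pos hr 2) hε]) hr)
      refine le_of_eq_of_le ?_ h4
      ring
  linarith

theorem touchC {θ : R} {c : ℝ} (hD : ∀ a, S.D a θ = 0) (hT : ev (S.dt θ) = -(c * ev θ))
    (h0 : 0 < ev θ) (hc0 : 0 ≤ c) (hc : c < 4 * ((1 - 2 * ev θ) / 3))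
    (he : ev S.arr.u / 2 = ev θ * (4 / 3 + ev S.arr.e2))
    (hG : ev S.arr.u / 2 ≤ 2 / 3 ∨ ev S.arr.u / 2 ≤ 57 / 100 + ev S.arr.e2 / 3) :
    ¬S.Touch ev ((1 / 2 : ℝ) • S.arr.u - θ * (algebraMap ℝ R (4 / 3) + S.arr.e2)) := by
  rintro ⟨-, hL⟩
  have G := S.good_pt ev
  have he2 : 0 ≤ ev S.arr.e2 := Arr.map_e2 S.arr ev ▸ G.e2_nonneg
  have h3 := G.tw_grad hn (m := 0) (k := ev θ) le_rfl (by linarith)
  rw [pt, Arr.map_v, Arr.map_gH] at h3
  rw [S.L_sub, S.L_time_mul hD, S.L_add, S.L_alg, zero_add] at hL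
  simp only [map_add, map_sub, map_mul, S.tw_Ls ev hn, S.tw_Le ev hn, hT, AlgHom.commutes,
    Algebra.algebraMap_self, RingHom.id_apply] at hL
  obtain ⟨x, -, x1, x2, x3, x4⟩ := S.tw_pt ev hn
  have h4 := reactC he2 x1 x2 h0 (by linarith) he hG
  have h5 : 0 < ev S.arr.u / 2 := by rw [he]; positivity
  have h6 := mul_lt_mul_of_pos_right hc h5
  rw [x3, x4] at hL
  have h7 : c * (ev S.arr.u / 2) = c * (ev θ * (4 / 3 + ev S.arr.e2)) := by rw [he]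
  simp only [zero_div, zero_mul, neg_zero] at h3
  linarith

end Pool.Agent.Lib.MP_de485e_gt.Hi.QA
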