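import Pool.Agent.Lib.MP_de485e_gt.Hi.Final
import Pool.Agent.Lib.MP_de485e_gt.Two.M5
import Pool.Agent.Lib.MP_de485e_gt.Two.Touch
import Pool.Agent.Lib.MP_de485e_gt.Two.Start
import Pool.Agent.Lib.MP_de485e_gt.Two.CellsA
import Pool.Agent.Lib.MP_de485e_gt.Two.CellsB

/-! The three barriers along the flow of a surface. -/

open Set Filter Topology
open scoped RealInnerProductSpace InnerProduct Manifold ContDiff

namespace Pool.Agent.Lib.MP_de485e_gt.Hi

open Conv Two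

theorem tw_start {s e ζ x : ℝ} (he : 0 ≤ e) (hx : x ≤ s) (hP : ζ ≤ e * x)
    (h : s + 2 * √ζ + 2 * e < 2 / 3 ∨ s ≤ 123 / 200) :
    s < GB √e ∧ s + 3 / 25 * √ζ < GA √e := by
  have a := aux (Real.sqrt_nonneg e)
  have h1 := a.loB
  have h2 := a.loA
  have h3 := Real.sqrt_nonneg ζ
  rw [Real.sq_sqrt he] at h1 h2
  rcases h with h | h
  · exact ⟨by linarith, by linarith⟩
  · have h4 : √ζ ≤ 157 / 200 * √e := by
      refine Real.sqrt_le_iff.2 ⟨by positivity, ?_⟩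
      rw [mul_pow, Real.sq_sqrt he]
      nlinarith [mul_le_mul_of_nonneg_left (hx.trans h) he]
    exact ⟨by linarith [a.tB], by linarith [a.tA]⟩

theorem tw_decay {s e y : ℝ} (he : 0 ≤ e) (hy : 0 < y) (h1 : s ≤ 2 / 3 + e / 3)
    (h2 : s ≤ y ^ 8 / 2 * (4 / 3 + e)) : 2 * s ≤ 9 / 8 * (79 / 250 * y) * 2 * (14 ^ 2 + e) := by
  rcases le_total (47 / 50) y with h | h
  · nlinarith [mul_le_mul_of_nonneg_right h (show 0 ≤ 14 ^ 2 + e by positivity)]
  · have h3 : y ^ 7 ≤ (47 / 50) ^ 7 := pow_le_pow_left₀ hy.le h 7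
    have h4 : y ^ 8 ≤ 7 / 10 * y := by nlinarith
    have h5 := mul_le_mul h4 (show 4 / 3 + e ≤ 14 ^ 2 + e by linarith) (by positivity)
      (by positivity)
    have h6 : 0 ≤ y * (14 ^ 2 + e) := by positivity
    linarith

variable {P Q : Type} [NormedAddCommGroup P] [InnerProductSpace ℝ P] [CompleteSpace P]
  [FiniteDimensional ℝ P] [NormedAddCommGroup Q] [InnerProductSpace ℝ Q] [CompleteSpace Q]
  [FiniteDimensional ℝ Q] {M : Type} [TopologicalSpace M] [ChartedSpace P M]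
  [IsManifold 𝓘(ℝ, P) ∞ M] {F : ℝ → M → Q} {n : ℕ} {ι : Type} [Fintype ι] [DecidableEq ι]

namespace Flow

variable {J : Set ℝ} (h : Flow P n F J) (b : OrthonormalBasis ι ℝ Q) (hn : n = 2) {t₁ : ℝ}

/-- The quantities `s`, `r`, `p` on space-time. -/
noncomputable def twS (z : ℝ × M) : ℝ := fn (h.S b).arr.u z / 2

noncomputable def twR (z : ℝ × M) : ℝ := √(fn (h.S b).arr.e2 z)

noncomputable def twP (z : ℝ × M) : ℝ := √(fn (h.S b).arr.zeta z)

theorem tw_nn (z : (J ×ˢ (univ : Set M) : Set (ℝ × M))) :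
    0 ≤ ev z (h.S b).arr.e2 ∧ 0 ≤ ev z (h.S b).arr.zeta :=
  ⟨Arr.map_e2 (h.S b).arr (ev z) ▸ ((h.S b).good_pt (ev z)).e2_nonneg,
    Arr.map_zeta (h.S b).arr (ev z) ▸ ((h.S b).pt (ev z)).zeta_nonneg⟩

include hn

theorem tw_bar {G c : ℝ → ℝ} {m k ε₀ t : ℝ} (B : Bar G c k) (hm : 0 ≤ m)
    (hk : k ≤ (4 - 4 * m - m ^ 2) / 8) (hε : 0 < ε₀) (h1 : t₁ ∈ J) (ht : t ∈ J) (htt : t₁ < t)
    (y : M) (hle : ∀ s ∈ Icc t₁ t, ∀ w, h.twS b (s, w) + ε₀ * Real.exp (-(5 * (s - t₁))) +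
      m * h.twP b (s, w) ≤ G (h.twR b (s, w)))
    (he : h.twS b (t, y) + ε₀ * Real.exp (-(5 * (t - t₁))) + m * h.twP b (t, y) =
      G (h.twR b (t, y)))
    (H : ∀ x, x ≤ h.twS b (t, y) + ε₀ * Real.exp (-(5 * (t - t₁))) →
      h.twP b (t, y) ^ 2 ≤ h.twR b (t, y) ^ 2 * x → 0 < h.twR b (t, y) →
      Rc m (2 * k * h.twR b (t, y) - c (h.twR b (t, y))) (h.twR b (t, y))
        (h.twS b (t, y) + ε₀ * Real.exp (-(5 * (t - t₁)))) (h.twP b (t, y)) x ≤ 0)
    (H0 : h.twR b (t, y) = 0 → h.twS b (t, y) ≤ 2 / 3) : False := by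
  obtain ⟨ε, hε0, hεD, hεT⟩ := h.dom.exists_time
    (f := fun r => ε₀ * Real.exp (-(5 * (r - t₁))))
    (f' := fun r => ε₀ * (Real.exp (-(5 * (r - t₁))) * -(5 * 1))) (by fun_prop)
    fun r => ((((hasDerivAt_id r).sub_const t₁).const_mul 5).neg.exp).const_mul ε₀
  let z : (J ×ˢ (univ : Set M) : Set (ℝ × M)) := ⟨(t, y), ht, mem_univ y⟩
  have hr : 0 ≤ h.twR b (t, y) := Real.sqrt_nonneg _
  have hp : 0 ≤ h.twP b (t, y) := Real.sqrt_nonneg _
  have sq : ∀ v : (J ×ˢ (univ : Set M) : Set (ℝ × M)), ev v (h.S b).arr.e2 = h.twR b v ^ 2 ∧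
      ev v (h.S b).arr.zeta = h.twP b v ^ 2 ∧ ev v (h.S b).arr.u / 2 = h.twS b v := fun v => by
    rw [twR, twP, twS, ← ev_eq, ← ev_eq, ← ev_eq, Real.sq_sqrt (h.tw_nn b v).1,
      Real.sq_sqrt (h.tw_nn b v).2]
    exact ⟨rfl, rfl, rfl⟩
  obtain ⟨hr2, hp2, hs2⟩ := sq z
  have hc := B.c0 _ hr
  have hz : ev z ε = ε₀ * Real.exp (-(5 * (t - t₁))) := hε0 z
  refine (h.S b).touchAB (ev z) hn hm hc hk hr hr2 hp hp2 (ε := ε) (fun a => hεD (b a))
    ((hεT z).trans (by rw [hz]; ring)) (by rw [hz]; positivity) (by rw [hz, hs2]; exact H)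
    (by rw [hs2]; exact H0) (h.M5b_touch b _ ht y htt (K := G (h.twR b (t, y)) -
      k * h.twR b (t, y) ^ 2 + c (h.twR b (t, y)) * h.twR b (t, y)) (fun s hs w => ?_) ?_)
  · let v : (J ×ˢ (univ : Set M) : Set (ℝ × M)) := ⟨(s, w), h.ord.out h1 ht hs, mem_univ w⟩
    obtain ⟨q1, -, q3⟩ := sq v
    have e := ev_eq (P := P) v
    simp only [v] at e
    rw [← e]
    simp only [map_add, map_sub, map_smul, smul_eq_mul, QA.ev_twSq, hε0]
    have a1 := mul_le_mul_of_nonneg_left (sqp_le hr (h.tw_nn b v).1) hc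
    have a2 := mul_le_mul_of_nonneg_left (sqp_le hp (h.tw_nn b v).2) hm
    have a3 := B.sup (h.twR b (t, y)) (h.twR b (s, w))
    have a4 := hle s hs w
    have a5 : √(ev v (h.S b).arr.e2) = h.twR b (s, w) := by rw [ev_eq]; rfl
    have a6 : √(ev v (h.S b).arr.zeta) = h.twP b (s, w) := by rw [ev_eq]; rfl
    have a7 := congrArg (k * ·) q1
    rw [a5] at a1
    rw [a6] at a2
    simp only [v] at a1 a2 a7 q3
    linarith
  · have e := ev_eq (P := P) z
    simp only [z] at e hr2 hp2 hs2 hz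
    rw [← e]
    simp only [map_add, map_sub, map_smul, smul_eq_mul, QA.ev_twSq, hz, hr2, hp2, sub_self,
      mul_zero, sqp]
    linarith

variable [CompactSpace M]

theorem pinAB (h1 : t₁ ∈ J) (h0 : ∀ x, StartAt P (F t₁) x) : ∃ ε₀ : ℝ, 0 < ε₀ ∧
    ∀ t ∈ J, t₁ ≤ t → ∀ x, h.twS b (t, x) + ε₀ * Real.exp (-(5 * (t - t₁))) <
      GB (h.twR b (t, x)) := by
  obtain ⟨f, hf⟩ : ∃ f : ℝ × M → ℝ, f = fun z => max (h.twS b z - GB (h.twR b z))
    (h.twS b z + 3 / 25 * h.twP b z - GA (h.twR b z)) := ⟨_, rfl⟩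
  have hc : ContinuousOn f (J ×ˢ univ) := by
    have c1 : ContinuousOn (h.twS b) (J ×ˢ univ) := (h.cont _).div_const 2
    have c2 : ContinuousOn (h.twR b) (J ×ˢ univ) := (h.cont _).sqrt
    have c3 : ContinuousOn (h.twP b) (J ×ˢ univ) := (h.cont _).sqrt
    rw [hf]
    exact continuous_max.comp_continuousOn ((c1.sub (barB.cont.comp_continuousOn c2)).prodMk
      ((c1.add (c3.const_mul _)).sub (barA.cont.comp_continuousOn c2)))
  have hs : ∀ x, f (t₁, x) < 0 := fun x => by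
    let z : (J ×ˢ (univ : Set M) : Set (ℝ × M)) := ⟨(t₁, x), h1, mem_univ x⟩
    have k := pt_start h.dom h.dim h.flw b hn z (h0 x)
    obtain ⟨w, -, w1, w2, -⟩ := (h.S b).tw_pt (ev z) hn
    rw [QA.pt, Arr.map_u, Arr.map_zeta, Arr.map_e2] at k
    have k2 := tw_start (h.tw_nn b z).1 w1 w2 (k.imp_right fun k => by
      have k' : ev z (h.S b).arr.u ≤ 123 / 100 := k
      linarith)
    rw [ev_eq, ev_eq, ev_eq] at k2
    rw [hf]
    exact max_lt (sub_neg.2 k2.1) (sub_neg.2 k2.2)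
  obtain ⟨a, ha, ha'⟩ := isCompact_univ.exists_forall_le' (f := fun x => -f (t₁, x)) (a := 0)
    (hc.comp (continuous_const.prodMk continuous_id).continuousOn
      fun x _ => ⟨h1, mem_univ _⟩).neg fun x _ => neg_pos.2 (hs x)
  have hε : 0 < a / 2 := by linarith
  refine ⟨a / 2, hε, fun t ht htt x => ?_⟩
  have hsub : Icc t₁ t ⊆ J := h.ord.out h1 ht
  have key := maxP (G := fun z : ℝ × M => f z + a / 2 * Real.exp (-(5 * (z.1 - t₁)))) (a := t₁)
    (b := t) (K := 0) ((hc.mono (prod_mono_left hsub)).add (Continuous.continuousOn (by fun_prop)))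
    (fun y => ?_) (fun s hs y hle he => ?_) t ⟨htt, le_rfl⟩ x
  · rw [hf] at key
    linarith [le_max_left (h.twS b (t, x) - GB (h.twR b (t, x)))
      (h.twS b (t, x) + 3 / 25 * h.twP b (t, x) - GA (h.twR b (t, x)))]
  · have := ha' y (mem_univ y)
    simp only [sub_self, mul_zero, neg_zero, Real.exp_zero, mul_one]
    linarith
  · have hsJ : s ∈ J := hsub ⟨hs.1.le, hs.2⟩
    have hB : ∀ r ∈ Icc t₁ s, ∀ w, h.twS b (r, w) + a / 2 * Real.exp (-(5 * (r - t₁))) ≤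
        GB (h.twR b (r, w)) := fun r hr w => by
      have := hle r hr w
      rw [hf] at this
      linarith [le_max_left (h.twS b (r, w) - GB (h.twR b (r, w)))
        (h.twS b (r, w) + 3 / 25 * h.twP b (r, w) - GA (h.twR b (r, w)))]
    have hA : ∀ r ∈ Icc t₁ s, ∀ w, h.twS b (r, w) + a / 2 * Real.exp (-(5 * (r - t₁))) +
        3 / 25 * h.twP b (r, w) ≤ GA (h.twR b (r, w)) := fun r hr w => by
      have := hle r hr w
      rw [hf] at this
      linarith [le_max_right (h.twS b (r, w) - GB (h.twR b (r, w)))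
        (h.twS b (r, w) + 3 / 25 * h.twP b (r, w) - GA (h.twR b (r, w)))]
    have hB' := hB s ⟨hs.1.le, le_rfl⟩ y
    have hA' := hA s ⟨hs.1.le, le_rfl⟩ y
    have H0 : h.twR b (s, y) = 0 → h.twS b (s, y) ≤ 2 / 3 := fun e => by
      have h2 := (aux (le_refl 0)).up
      have h3 : 0 < a / 2 * Real.exp (-(5 * (s - t₁))) := by positivity
      rw [e] at hB'
      rcases h2 with h2 | h2 <;> linarith
    rw [hf] at he
    simp only at he
    rcases max_choice (h.twS b (s, y) - GB (h.twR b (s, y)))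
      (h.twS b (s, y) + 3 / 25 * h.twP b (s, y) - GA (h.twR b (s, y))) with e | e
    · rw [e] at he
      have e1 : h.twS b (s, y) + a / 2 * Real.exp (-(5 * (s - t₁))) = GB (h.twR b (s, y)) := by
        linarith
      refine h.tw_bar b hn barB le_rfl (by norm_num) hε h1 hsJ hs.1 y
        (fun r hr w => by linarith [hB r hr w]) (by linarith) (fun x _ hP hr => ?_) H0
      rw [e1] at hA' ⊢
      exact reactB hr.le (Real.sqrt_nonneg _) hP hA'
    · rw [e] at he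
      exact h.tw_bar b hn barA (by norm_num) (by norm_num) hε h1 hsJ hs.1 y hA (by linarith)
        (fun x hx hP hr => reactA hr hP hx hB' (by linarith)) H0

theorem pin5 (h1 : t₁ ∈ J) (h0 : ∀ x, StartAt P (F t₁) x) : ∃ c, h.Pin5 b c t₁ := by
  obtain ⟨ε₀, hε, hB⟩ := h.pinAB b hn h1 h0
  obtain ⟨δ, hδ, hδ1, hδ2⟩ : ∃ δ : ℝ, 0 < δ ∧ δ ≤ 1 / 6 ∧ δ ≤ ε₀ / 2 :=
    ⟨min (1 / 6) (ε₀ / 2), by positivity, min_le_left _ _, min_le_right _ _⟩
  have up : ∀ v : (J ×ˢ (univ : Set M) : Set (ℝ × M)), t₁ ≤ v.1.1 →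
      ev v (h.S b).arr.u / 2 + ε₀ * Real.exp (-(5 * (v.1.1 - t₁))) ≤ 2 / 3 ∨
      ev v (h.S b).arr.u / 2 + ε₀ * Real.exp (-(5 * (v.1.1 - t₁))) ≤
        57 / 100 + ev v (h.S b).arr.e2 / 3 := fun v hv => by
    have k := hB v.1.1 v.2.1 hv v.1.2
    have a := (aux (Real.sqrt_nonneg (ev v (h.S b).arr.e2))).up
    rw [Real.sq_sqrt (h.tw_nn b v).1] at a
    rw [twS, twR, ← ev_eq (z := v), ← ev_eq (z := v)] at k
    exact a.imp (fun a => by linarith) fun a => by linarith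
  obtain ⟨θ, hθ, hθD, hθT⟩ := h.dom.exists_time
    (f := fun r => (1 / 2 - δ) * Real.exp (-(2 * δ * (r - t₁))))
    (f' := fun r => (1 / 2 - δ) * (Real.exp (-(2 * δ * (r - t₁))) * -(2 * δ * 1))) (by fun_prop)
    fun r => ((((hasDerivAt_id r).sub_const t₁).const_mul (2 * δ)).neg.exp).const_mul (1 / 2 - δ)
  obtain ⟨g, hg⟩ : ∃ g, g = (1 / 2 : ℝ) • (h.S b).arr.u -
    θ * (algebraMap ℝ _ (4 / 3) + (h.S b).arr.e2) := ⟨_, rfl⟩
  have eg : ∀ z : (J ×ˢ (univ : Set M) : Set (ℝ × M)), fn g z =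
      ev z (h.S b).arr.u / 2 - ev z θ * (4 / 3 + ev z (h.S b).arr.e2) := fun z => by
    rw [← ev_eq, hg]
    simp only [map_sub, map_smul, map_mul, map_add, smul_eq_mul, AlgHom.commutes,
      Algebra.algebraMap_self, RingHom.id_apply]
    ring
  refine ⟨δ / 4, hn, by linarith, by linarith, fun t ht htt x => ?_⟩
  have hsub : Icc t₁ t ⊆ J := h.ord.out h1 ht
  have key := maxP (G := fn g) (a := t₁) (b := t) (K := 0)
    ((h.cont g).mono (prod_mono_left hsub)) (fun y => ?_) (fun s hs y hle he => ?_) t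
    ⟨htt, le_rfl⟩ x
  · let z : (J ×ˢ (univ : Set M) : Set (ℝ × M)) := ⟨(t, x), ht, mem_univ x⟩
    have e1 : fn g (t, x) = _ := eg z
    have he := (h.tw_nn b z).1
    have h2 : 0 < ε₀ * Real.exp (-(5 * (t - t₁))) := by positivity
    have h3 : ev z (h.S b).arr.u / 2 ≤ 2 / 3 + ev z (h.S b).arr.e2 / 3 := by
      rcases up z htt with k | k <;> simp only [z] at k he ⊢ <;> linarith
    have hy : Real.exp (-(δ / 4 * (t - t₁))) ≤ 1 :=
      Real.exp_le_one_iff.2 (neg_nonpos.2 (mul_nonneg (by linarith) (by linarith)))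
    have h4 : Real.exp (-(δ / 4 * (t - t₁))) ^ 8 = Real.exp (-(2 * δ * (t - t₁))) := by
      rw [← Real.exp_nat_mul]
      congr 1
      push_cast
      ring
    have h5 := tw_decay he (Real.exp_pos (-(δ / 4 * (t - t₁)))) h3 (by
      rw [h4]
      rw [e1, hθ] at key
      have : 0 ≤ δ * Real.exp (-(2 * δ * (t - t₁))) * (4 / 3 + ev z (h.S b).arr.e2) := by
        positivity
      simp only [z] at key this ⊢
      linarith)
    rw [h.X_eq b z]
    refine ⟨hn, zf_pos _ _ _, by unfold zf; linarith, ?_, ?_⟩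
    · rwa [QA.pt, Arr.map_u, Arr.map_e2]
    · have e2 : (((h.S b).pt (ev z)).n : ℝ) = 2 := by
        have : ((h.S b).pt (ev z)).n = 2 := hn
        rw [this]
        norm_num
      rw [e2, QA.pt, Arr.map_u, Arr.map_e2, zf]
      linarith
  · let z : (J ×ˢ (univ : Set M) : Set (ℝ × M)) := ⟨(t₁, y), h1, mem_univ y⟩
    have e1 : fn g (t₁, y) = _ := eg z
    have he := (h.tw_nn b z).1
    have k := up z le_rfl
    rw [e1, hθ]
    simp only [z, sub_self, mul_zero, neg_zero, Real.exp_zero, mul_one] at k he ⊢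
    have := mul_le_mul_of_nonneg_right hδ1 he
    rcases k with k | k <;> linarith
  · have hsJ : s ∈ J := hsub ⟨hs.1.le, hs.2⟩
    let z : (J ×ˢ (univ : Set M) : Set (ℝ × M)) := ⟨(s, y), hsJ, mem_univ y⟩
    have e1 : fn g (s, y) = _ := eg z
    have hT := h.M5b_touch b g hsJ y hs.1 hle he
    have h2 : 0 < ε₀ * Real.exp (-(5 * (s - t₁))) := by positivity
    have hy : Real.exp (-(2 * δ * (s - t₁))) ≤ 1 :=
      Real.exp_le_one_iff.2 (neg_nonpos.2 (mul_nonneg (by linarith) (by linarith [hs.1])))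
    have hz : ev z θ = (1 / 2 - δ) * Real.exp (-(2 * δ * (s - t₁))) := hθ z
    have h3 : ev z θ ≤ 1 / 2 - δ := by
      rw [hz]
      exact mul_le_of_le_one_right (by linarith) hy
    rw [hg] at hT
    refine (h.S b).touchC (ev z) hn (c := 2 * δ) (fun a => hθD (b a))
      ((hθT z).trans (by rw [hz]; ring)) (by rw [hz]; exact mul_pos (by linarith) (Real.exp_pos _))
      (by linarith) (by linarith) (by linarith) ?_ hT
    exact (up z hs.1.le).imp (fun k => by simp only [z] at k ⊢; linarith)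
      fun k => by simp only [z] at k ⊢; linarith

omit hn in
theorem geoLoc5 {J' : Set ℝ} {c : ℝ} (k : h.Pin5 b c t₁) (hJ : J' ⊆ J ∩ Ici t₁) :
    GeoLoc n P F J' (h.data b) := by
  refine h.geoLoc _ (fun t ht => (hJ ht).1) fun t ht x => ?_
  have h1 := h.u_pin5 _ k (hJ ht).1 (hJ ht).2 x
  have h2 := (k.k t (hJ ht).1 (hJ ht).2 x).hZ1
  have h3 := (h.M5b_pt b (hJ ht).1 x).1
  nlinarith

end Flow

variable [CompactSpace M]

theorem finite_two (hd : Dm P 2) {S : ℝ} (hS : 0 < S) (h : IsSphereMCF P F (Ico 0 S))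
    (h0 : ∀ x, StartAt P (F 0) x) : ∃ a < S, ∃ G, GeoA 2 P F (Ioo a S) G := by
  obtain ⟨a, ha, ha'⟩ := ((start_eventually hS h h0).and (Ioo_mem_nhdsGT hS)).exists
  have f := flow_of_mcf hd h isOpen_Ioo ordConnected_Ioo Ioo_subset_Ico_self
  obtain ⟨c, k⟩ := f.pin5 (stdOrthonormalBasis ℝ Q) rfl ha' ha
  have s : Ioo a S ⊆ Ioo 0 S := Ioo_subset_Ioo_left ha'.1.le
  exact ⟨a, ha'.2, _, f.geoLoc5 _ k fun t ht => ⟨s ht, ht.1.le⟩,
    f.estA5 _ k ha' fun t ht => ⟨s ht, ht.1.le, ht.2⟩, f.est3 _ s ordConnected_Ioo,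
    f.est4 (stdOrthonormalBasis ℝ Q) s⟩

theorem infinite_two (hd : Dm P 2) (h : IsSphereMCF P F (Ici 0))
    (h0 : ∀ x, StartAt P (F 0) x) : ∃ a G, GeoB 2 P F (Ioi a) G := by
  have sub : Ico (0 : ℝ) 1 ⊆ Ici 0 := Ico_subset_Ici_self
  have h' : IsSphereMCF P F (Ico 0 1) := ⟨h.smooth.mono (prod_mono_left sub),
    fun s hs => h.sphere s (sub hs), fun s hs => h.immersion s (sub hs),
    fun s hs x b hb => (h.flow s (sub hs) x b hb).mono sub⟩
  obtain ⟨a, ha, ha'⟩ := ((start_eventually one_pos h' h0).and self_mem_nhdsWithin).exists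
  have f := flow_of_mcf hd h isOpen_Ioi ordConnected_Ioi Ioi_subset_Ici_self
  obtain ⟨c, k⟩ := f.pin5 (stdOrthonormalBasis ℝ Q) rfl ha' ha
  have s : Ioi a ⊆ Ioi 0 := Ioi_subset_Ioi (le_of_lt ha')
  have s' : Ioi a ⊆ Ioi 0 ∩ Ici a := fun t ht => ⟨s ht, Ioi_subset_Ici_self ht⟩
  exact ⟨a, _, f.geoLoc5 _ k s', f.estB5 _ k ha' s', f.est4 (stdOrthonormalBasis ℝ Q) s⟩

end Pool.Agent.Lib.MP_de485e_gt.Hi
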