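import Pool.Agent.Lib.MP_de485e_gt.Two.Alg2

/-! The gradient inequality for surfaces. -/

namespace Pool.Agent.Lib.MP_de485e_gt.Hi.Arr

variable {ι : Type} [Fintype ι]

theorem tw_S1 {κ μ : Type} [Fintype κ] [Fintype μ] {Pr : κ → κ → ℝ} {b : μ → κ → ℝ}
    (hP : ∀ x y, Pr x y = ∑ i, b i x * b i y) {f : κ → ℝ} (hf : ∀ x, ∑ y, Pr x y * f y = f x)
    (g : κ → ℝ) : ∑ x, f x * g x = ∑ i, (∑ x, b i x * f x) * ∑ x, b i x * g x := by
  calc ∑ x, f x * g x = ∑ x, ∑ y, ∑ i, b i y * f y * (b i x * g x) := by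
        refine Finset.sum_congr rfl fun x _ => ?_
        rw [← hf x, Finset.sum_mul]
        refine Finset.sum_congr rfl fun y _ => ?_
        rw [hP, Finset.sum_mul, Finset.sum_mul]
        exact Finset.sum_congr rfl fun i _ => by ring
    _ = ∑ x, ∑ i, ∑ y, b i y * f y * (b i x * g x) :=
        Finset.sum_congr rfl fun _ _ => Finset.sum_comm
    _ = ∑ i, ∑ y, ∑ x, b i y * f y * (b i x * g x) :=
        Finset.sum_comm.trans (Finset.sum_congr rfl fun _ _ => Finset.sum_comm)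
    _ = _ := Finset.sum_congr rfl fun i _ => (Finset.sum_mul_sum _ _ _ _).symm

/-- Components in a frame. -/
def twC2 (b : Fin 2 → ι → ℝ) (Y : ι → ι → ℝ) (j l : Fin 2) : ℝ := ∑ a, ∑ d, b j a * b l d * Y a d

def twC3 (b : Fin 2 → ι → ℝ) (Y : ι → ι → ι → ℝ) (i j l : Fin 2) : ℝ :=
  ∑ k, ∑ a, ∑ d, b i k * b j a * b l d * Y k a d

variable {X : Arr ι ℝ} {b : Fin 2 → ι → ℝ} (hP : ∀ x y, X.P x y = ∑ i, b i x * b i y)
include hP

theorem tw_S2 {Y : ι → ι → ℝ} (h1 : ∀ d, X.Tan fun a => Y a d) (h2 : ∀ a, X.Tan (Y a))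
    (Z : ι → ι → ℝ) : ∑ a, ∑ d, Y a d * Z a d = ∑ j, ∑ l, twC2 b Y j l * twC2 b Z j l := by
  have := tw_S1 (κ := ι × ι) (μ := Fin 2 × Fin 2) (Pr := fun x y => X.P x.1 y.1 * X.P x.2 y.2)
    (b := fun i x => b i.1 x.1 * b i.2 x.2) (f := fun x => Y x.1 x.2) (fun x y => by
      simp only [hP, Fintype.sum_prod_type, Fin.sum_univ_two]
      ring) (fun x => by
      simp only [Fintype.sum_prod_type, mul_assoc, ← Finset.mul_sum]
      simp only [h2 _ x.2]
      exact h1 x.2 x.1) fun x => Z x.1 x.2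
  simpa only [Fintype.sum_prod_type, twC2] using this

theorem tw_S3 {Y : ι → ι → ι → ℝ} (h1 : ∀ a d, X.Tan fun k => Y k a d)
    (h2 : ∀ k d, X.Tan fun a => Y k a d) (h3 : ∀ k a, X.Tan (Y k a)) :
    ∑ k, ∑ a, ∑ d, Y k a d * Y k a d = ∑ i, ∑ j, ∑ l, twC3 b Y i j l * twC3 b Y i j l := by
  have := tw_S1 (κ := ι × ι × ι) (μ := Fin 2 × Fin 2 × Fin 2)
    (Pr := fun x y => X.P x.1 y.1 * X.P x.2.1 y.2.1 * X.P x.2.2 y.2.2)
    (b := fun i x => b i.1 x.1 * b i.2.1 x.2.1 * b i.2.2 x.2.2)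
    (f := fun x => Y x.1 x.2.1 x.2.2) (fun x y => by
      simp only [hP, Fintype.sum_prod_type, Fin.sum_univ_two]
      ring) (fun x => by
      simp only [Fintype.sum_prod_type, mul_assoc, ← Finset.mul_sum]
      simp only [h3 _ _ x.2.2]
      have e : ∀ k, ∑ a, X.P x.2.1 a * Y k a x.2.2 = Y k x.2.1 x.2.2 := fun k => h2 k x.2.2 x.2.1
      simp only [e]
      exact h1 x.2.1 x.2.2 x.1) fun x => Y x.1 x.2.1 x.2.2
  simpa only [Fintype.sum_prod_type, twC3] using this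

omit hP in
theorem tw_C3 (Y : ι → ι → ι → ℝ) (i j l : Fin 2) :
    twC2 b (fun a d => ∑ k, b i k * Y k a d) j l = twC3 b Y i j l := by
  simp only [twC2, twC3, Finset.mul_sum]
  rw [Good.A2_s3]
  exact Finset.sum_congr rfl fun _ _ => Finset.sum_congr rfl fun _ _ =>
    Finset.sum_congr rfl fun _ _ => by ring

theorem tw_trace (Y : ι → ι → ℝ) : ∑ a, ∑ d, X.P a d * Y a d = ∑ j, twC2 b Y j j := by
  simp only [twC2, hP, Finset.sum_mul]
  exact (Finset.sum_congr rfl fun _ _ => Finset.sum_comm).trans Finset.sum_comm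

omit hP

theorem Good.tw_grad (h : X.Good) (hn : X.n = 2) {m k : ℝ} (hm : 0 ≤ m)
    (hk : k ≤ (4 - 4 * m - m ^ 2) / 8) :
    -(m / (4 * √X.zeta) * X.twCross) ≤ X.v - (1 + k) / 2 * X.gH := by
  obtain ⟨b, -, hb⟩ := h.tw_frame hn
  have hP : ∀ x y, X.P x y = ∑ i, b i x * b i y := fun x y => (congrFun (congrFun hb x) y).symm
  have y1 : twC2 b X.AH 1 0 = twC2 b X.AH 0 1 := by
    rw [twC2, twC2, Finset.sum_comm]
    exact Finset.sum_congr rfl fun a _ => Finset.sum_congr rfl fun d _ => by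
      rw [h.tw_symm d a]
      ring
  have y2 : twC2 b X.AH 1 1 = -twC2 b X.AH 0 0 := by
    have h1 := tw_trace hP X.AH
    simp only [mul_comm (X.P _ _)] at h1
    rw [h.tw_P, Fin.sum_univ_two] at h1
    linarith
  have y3 : twC2 b X.AH 0 0 ^ 2 + twC2 b X.AH 0 1 ^ 2 = 4 * √X.zeta ^ 2 := by
    have h1 : X.twXi = _ := tw_S2 hP h.tw_tan h.tw_tan' X.AH
    rw [tw_Xi hn] at h1
    simp only [Fin.sum_univ_two, y1, y2] at h1
    rw [Real.sq_sqrt X.zeta_nonneg]
    linarith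
  have s12 : ∀ c i j l, twC3 b (fun k a d => X.B k a d c) i j l =
      twC3 b (fun k a d => X.B k a d c) j i l := fun c i j l => by
    rw [twC3, twC3, Finset.sum_comm]
    exact Finset.sum_congr rfl fun _ _ => Finset.sum_congr rfl fun _ _ =>
      Finset.sum_congr rfl fun _ _ => by rw [h.B12]; ring
  have s23 : ∀ c i j l, twC3 b (fun k a d => X.B k a d c) i j l =
      twC3 b (fun k a d => X.B k a d c) i l j := fun c i j l => by
    rw [twC3, twC3]
    exact Finset.sum_congr rfl fun _ _ => Finset.sum_comm.trans (Finset.sum_congr rfl fun _ _ =>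
      Finset.sum_congr rfl fun _ _ => by rw [h.B23]; ring)
  have hBt : ∀ c i, ∑ k, b i k * X.Bt k c = ∑ j, twC3 b (fun k a d => X.B k a d c) i j j := by
    intro c i
    simp only [← tw_C3, ← tw_trace hP, ← h.P_B, Finset.mul_sum]
    rw [Good.A2_s3 fun a d k => X.P a d * (b i k * X.B k a d c)]
    exact Finset.sum_congr rfl fun _ _ => Finset.sum_congr rfl fun _ _ =>
      Finset.sum_congr rfl fun _ _ => by ring
  have hv : X.v = ∑ c, ∑ i, ∑ j, ∑ l, twC3 b (fun k a d => X.B k a d c) i j l *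
      twC3 b (fun k a d => X.B k a d c) i j l := by
    rw [v, Good.A2_s4]
    exact Finset.sum_congr rfl fun c _ => tw_S3 hP (Y := fun k a d => X.B k a d c)
      (fun a d => h.Btan a d c) (fun k d => h.Btan2 k d c) fun k a => h.Btan3 k a c
  have hg : X.gH = ∑ c, ∑ i, (∑ j, twC3 b (fun k a d => X.B k a d c) i j j) *
      ∑ j, twC3 b (fun k a d => X.B k a d c) i j j := by
    rw [gH, Finset.sum_comm]
    refine Finset.sum_congr rfl fun c _ => ?_
    rw [tw_S1 hP (h.Bt_tan c)]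
    simp only [hBt]
  have hc : X.twCross = ∑ c, ∑ i, (∑ j, twC3 b (fun k a d => X.B k a d c) i j j) *
      ∑ j, ∑ l, twC2 b X.AH j l * twC3 b (fun k a d => X.B k a d c) i j l := by
    rw [twCross, Finset.sum_comm]
    refine Finset.sum_congr rfl fun c _ => ?_
    simp only [mul_comm _ (X.Bt _ c)]
    rw [tw_S1 hP (h.Bt_tan c)]
    refine Finset.sum_congr rfl fun i _ => ?_
    rw [hBt]
    congr 1
    simp only [← tw_C3, ← tw_S2 hP h.tw_tan h.tw_tan', Finset.mul_sum]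
    rw [Good.A2_s3 fun a d k => X.AH a d * (b i k * X.B k a d c)]
    exact Finset.sum_congr rfl fun _ _ => Finset.sum_congr rfl fun _ _ =>
      Finset.sum_congr rfl fun _ _ => by ring
  rw [hv, hg, hc, Finset.mul_sum, Finset.mul_sum, ← Finset.sum_neg_distrib,
    ← Finset.sum_sub_distrib]
  refine Finset.sum_le_sum fun c _ => ?_
  have e1 := s23 c 0 1 0
  have e2 := (s12 c 1 0 0).trans e1
  have e3 := s12 c 1 0 1
  have e4 := (s23 c 1 1 0).trans e3
  simp only [Fin.sum_univ_two, y1, y2, e1, e2, e3, e4]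
  have := Two.grad_real (x := twC3 b (fun k a d => X.B k a d c) 0 0 0)
    (y := twC3 b (fun k a d => X.B k a d c) 0 0 1) (z := twC3 b (fun k a d => X.B k a d c) 0 1 1)
    (w := twC3 b (fun k a d => X.B k a d c) 1 1 1) (Real.sqrt_nonneg _) y3 hm hk
  refine le_of_eq_of_le ?_ (this.trans_eq ?_) <;> ring

end Pool.Agent.Lib.MP_de485e_gt.Hi.Arr
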