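import Pool.Agent.Lib.MP_de485e_gt.Two.Bar

/-! The polynomial pieces of the barrier curves. -/

namespace Pool.Agent.Lib.MP_de485e_gt.Two

noncomputable def gB0 (r : ℝ) : ℝ :=
  (2 / 3) + (-2) * r ^ 2 + (189 / 500) * r ^ 3

noncomputable def kB0 (r : ℝ) : ℝ :=
  5 * r + (-567 / 500) * r ^ 2

theorem evB0 {r : ℝ} (h1 : 0 ≤ r) (h2 : r ≤ 11 / 500) : GB r = gB0 r ∧ cB r = kB0 r := by
  have m0 : max (r - 11 / 500) 0 = 0 := max_eq_right (by linarith)
  have m1 : max (r - 4 / 125) 0 = 0 := max_eq_right (by linarith)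
  have m2 : max (r - 9 / 200) 0 = 0 := max_eq_right (by linarith)
  have m3 : max (r - 3 / 50) 0 = 0 := max_eq_right (by linarith)
  have m4 : max (r - 3 / 40) 0 = 0 := max_eq_right (by linarith)
  have m5 : max (r - 9 / 100) 0 = 0 := max_eq_right (by linarith)
  have m6 : max (r - 7 / 50) 0 = 0 := max_eq_right (by linarith)
  have m7 : max (r - 9 / 50) 0 = 0 := max_eq_right (by linarith)
  have m8 : max (r - 1 / 4) 0 = 0 := max_eq_right (by linarith)
  have m9 : max (r - 7 / 20) 0 = 0 := max_eq_right (by linarith)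
  have m10 : max (r - 1 / 2) 0 = 0 := max_eq_right (by linarith)
  have m11 : max (r - 7 / 10) 0 = 0 := max_eq_right (by linarith)
  have m12 : max (r - 1) 0 = 0 := max_eq_right (by linarith)
  have m13 : max (r - 7 / 5) 0 = 0 := max_eq_right (by linarith)
  have m14 : max (r - 2) 0 = 0 := max_eq_right (by linarith)
  have mn : min r (11 / 500) = r := min_eq_left h2
  simp only [GB, cB, gB0, kB0, p0, dp0, ps, dps, pl, dpl, m0, m1, m2, m3, m4, m5, m6, m7, m8, m9,
    m10, m11, m12, m13, m14, mn]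
  constructor <;> ring

noncomputable def gB1 (r : ℝ) : ℝ :=
  (62501695573 / 93750000000) + (-228393 / 125000000) * r + (-973 / 500) * r ^ 2

noncomputable def kB1 (r : ℝ) : ℝ :=
  (228393 / 125000000) + (1223 / 250) * r

theorem evB1 {r : ℝ} (h1 : 11 / 500 ≤ r) (h2 : r ≤ 4 / 125) : GB r = gB1 r ∧ cB r = kB1 r := by
  have m0 : max (r - 11 / 500) 0 = r - 11 / 500 := max_eq_left (by linarith)
  have m1 : max (r - 4 / 125) 0 = 0 := max_eq_right (by linarith)
  have m2 : max (r - 9 / 200) 0 = 0 := max_eq_right (by linarith)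
  have m3 : max (r - 3 / 50) 0 = 0 := max_eq_right (by linarith)
  have m4 : max (r - 3 / 40) 0 = 0 := max_eq_right (by linarith)
  have m5 : max (r - 9 / 100) 0 = 0 := max_eq_right (by linarith)
  have m6 : max (r - 7 / 50) 0 = 0 := max_eq_right (by linarith)
  have m7 : max (r - 9 / 50) 0 = 0 := max_eq_right (by linarith)
  have m8 : max (r - 1 / 4) 0 = 0 := max_eq_right (by linarith)
  have m9 : max (r - 7 / 20) 0 = 0 := max_eq_right (by linarith)
  have m10 : max (r - 1 / 2) 0 = 0 := max_eq_right (by linarith)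
  have m11 : max (r - 7 / 10) 0 = 0 := max_eq_right (by linarith)
  have m12 : max (r - 1) 0 = 0 := max_eq_right (by linarith)
  have m13 : max (r - 7 / 5) 0 = 0 := max_eq_right (by linarith)
  have m14 : max (r - 2) 0 = 0 := max_eq_right (by linarith)
  have mn : min r (11 / 500) = 11 / 500 := min_eq_right (by linarith)
  simp only [GB, cB, gB1, kB1, p0, dp0, ps, dps, pl, dpl, m0, m1, m2, m3, m4, m5, m6, m7, m8, m9,
    m10, m11, m12, m13, m14, mn]
  constructor <;> ring

noncomputable def gB2 (r : ℝ) : ℝ :=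
  (62517823573 / 93750000000) + (-1572393 / 125000000) * r + (-889 / 500) * r ^ 2

noncomputable def kB2 (r : ℝ) : ℝ :=
  (1572393 / 125000000) + (1139 / 250) * r

theorem evB2 {r : ℝ} (h1 : 4 / 125 ≤ r) (h2 : r ≤ 9 / 200) : GB r = gB2 r ∧ cB r = kB2 r := by
  have m0 : max (r - 11 / 500) 0 = r - 11 / 500 := max_eq_left (by linarith)
  have m1 : max (r - 4 / 125) 0 = r - 4 / 125 := max_eq_left (by linarith)
  have m2 : max (r - 9 / 200) 0 = 0 := max_eq_right (by linarith)
  have m3 : max (r - 3 / 50) 0 = 0 := max_eq_right (by linarith)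
  have m4 : max (r - 3 / 40) 0 = 0 := max_eq_right (by linarith)
  have m5 : max (r - 9 / 100) 0 = 0 := max_eq_right (by linarith)
  have m6 : max (r - 7 / 50) 0 = 0 := max_eq_right (by linarith)
  have m7 : max (r - 9 / 50) 0 = 0 := max_eq_right (by linarith)
  have m8 : max (r - 1 / 4) 0 = 0 := max_eq_right (by linarith)
  have m9 : max (r - 7 / 20) 0 = 0 := max_eq_right (by linarith)
  have m10 : max (r - 1 / 2) 0 = 0 := max_eq_right (by linarith)
  have m11 : max (r - 7 / 10) 0 = 0 := max_eq_right (by linarith)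
  have m12 : max (r - 1) 0 = 0 := max_eq_right (by linarith)
  have m13 : max (r - 7 / 5) 0 = 0 := max_eq_right (by linarith)
  have m14 : max (r - 2) 0 = 0 := max_eq_right (by linarith)
  have mn : min r (11 / 500) = 11 / 500 := min_eq_right (by linarith)
  simp only [GB, cB, gB2, kB2, p0, dp0, ps, dps, pl, dpl, m0, m1, m2, m3, m4, m5, m6, m7, m8, m9,
    m10, m11, m12, m13, m14, mn]
  constructor <;> ring

noncomputable def gB3 (r : ℝ) : ℝ :=
  (250433516167 / 375000000000) + (-6938643 / 125000000) * r + (-1301 / 1000) * r ^ 2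

noncomputable def kB3 (r : ℝ) : ℝ :=
  (6938643 / 125000000) + (1801 / 500) * r

theorem evB3 {r : ℝ} (h1 : 9 / 200 ≤ r) (h2 : r ≤ 3 / 50) : GB r = gB3 r ∧ cB r = kB3 r := by
  have m0 : max (r - 11 / 500) 0 = r - 11 / 500 := max_eq_left (by linarith)
  have m1 : max (r - 4 / 125) 0 = r - 4 / 125 := max_eq_left (by linarith)
  have m2 : max (r - 9 / 200) 0 = r - 9 / 200 := max_eq_left (by linarith)
  have m3 : max (r - 3 / 50) 0 = 0 := max_eq_right (by linarith)
  have m4 : max (r - 3 / 40) 0 = 0 := max_eq_right (by linarith)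
  have m5 : max (r - 9 / 100) 0 = 0 := max_eq_right (by linarith)
  have m6 : max (r - 7 / 50) 0 = 0 := max_eq_right (by linarith)
  have m7 : max (r - 9 / 50) 0 = 0 := max_eq_right (by linarith)
  have m8 : max (r - 1 / 4) 0 = 0 := max_eq_right (by linarith)
  have m9 : max (r - 7 / 20) 0 = 0 := max_eq_right (by linarith)
  have m10 : max (r - 1 / 2) 0 = 0 := max_eq_right (by linarith)
  have m11 : max (r - 7 / 10) 0 = 0 := max_eq_right (by linarith)
  have m12 : max (r - 1) 0 = 0 := max_eq_right (by linarith)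
  have m13 : max (r - 7 / 5) 0 = 0 := max_eq_right (by linarith)
  have m14 : max (r - 2) 0 = 0 := max_eq_right (by linarith)
  have mn : min r (11 / 500) = 11 / 500 := min_eq_right (by linarith)
  simp only [GB, cB, gB3, kB3, p0, dp0, ps, dps, pl, dpl, m0, m1, m2, m3, m4, m5, m6, m7, m8, m9,
    m10, m11, m12, m13, m14, mn]
  constructor <;> ring

noncomputable def gB4 (r : ℝ) : ℝ :=
  (251288066167 / 375000000000) + (-16433643 / 125000000) * r + (-167 / 250) * r ^ 2

noncomputable def kB4 (r : ℝ) : ℝ :=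
  (16433643 / 125000000) + (292 / 125) * r

theorem evB4 {r : ℝ} (h1 : 3 / 50 ≤ r) (h2 : r ≤ 3 / 40) : GB r = gB4 r ∧ cB r = kB4 r := by
  have m0 : max (r - 11 / 500) 0 = r - 11 / 500 := max_eq_left (by linarith)
  have m1 : max (r - 4 / 125) 0 = r - 4 / 125 := max_eq_left (by linarith)
  have m2 : max (r - 9 / 200) 0 = r - 9 / 200 := max_eq_left (by linarith)
  have m3 : max (r - 3 / 50) 0 = r - 3 / 50 := max_eq_left (by linarith)
  have m4 : max (r - 3 / 40) 0 = 0 := max_eq_right (by linarith)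
  have m5 : max (r - 9 / 100) 0 = 0 := max_eq_right (by linarith)
  have m6 : max (r - 7 / 50) 0 = 0 := max_eq_right (by linarith)
  have m7 : max (r - 9 / 50) 0 = 0 := max_eq_right (by linarith)
  have m8 : max (r - 1 / 4) 0 = 0 := max_eq_right (by linarith)
  have m9 : max (r - 7 / 20) 0 = 0 := max_eq_right (by linarith)
  have m10 : max (r - 1 / 2) 0 = 0 := max_eq_right (by linarith)
  have m11 : max (r - 7 / 10) 0 = 0 := max_eq_right (by linarith)
  have m12 : max (r - 1) 0 = 0 := max_eq_right (by linarith)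
  have m13 : max (r - 7 / 5) 0 = 0 := max_eq_right (by linarith)
  have m14 : max (r - 2) 0 = 0 := max_eq_right (by linarith)
  have mn : min r (11 / 500) = 11 / 500 := min_eq_right (by linarith)
  simp only [GB, cB, gB4, kB4, p0, dp0, ps, dps, pl, dpl, m0, m1, m2, m3, m4, m5, m6, m7, m8, m9,
    m10, m11, m12, m13, m14, mn]
  constructor <;> ring

noncomputable def gB5 (r : ℝ) : ℝ :=
  (252616972417 / 375000000000) + (-28246143 / 125000000) * r + (-19 / 500) * r ^ 2

noncomputable def kB5 (r : ℝ) : ℝ :=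
  (28246143 / 125000000) + (269 / 250) * r

theorem evB5 {r : ℝ} (h1 : 3 / 40 ≤ r) (h2 : r ≤ 9 / 100) : GB r = gB5 r ∧ cB r = kB5 r := by
  have m0 : max (r - 11 / 500) 0 = r - 11 / 500 := max_eq_left (by linarith)
  have m1 : max (r - 4 / 125) 0 = r - 4 / 125 := max_eq_left (by linarith)
  have m2 : max (r - 9 / 200) 0 = r - 9 / 200 := max_eq_left (by linarith)
  have m3 : max (r - 3 / 50) 0 = r - 3 / 50 := max_eq_left (by linarith)
  have m4 : max (r - 3 / 40) 0 = r - 3 / 40 := max_eq_left (by linarith)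
  have m5 : max (r - 9 / 100) 0 = 0 := max_eq_right (by linarith)
  have m6 : max (r - 7 / 50) 0 = 0 := max_eq_right (by linarith)
  have m7 : max (r - 9 / 50) 0 = 0 := max_eq_right (by linarith)
  have m8 : max (r - 1 / 4) 0 = 0 := max_eq_right (by linarith)
  have m9 : max (r - 7 / 20) 0 = 0 := max_eq_right (by linarith)
  have m10 : max (r - 1 / 2) 0 = 0 := max_eq_right (by linarith)
  have m11 : max (r - 7 / 10) 0 = 0 := max_eq_right (by linarith)
  have m12 : max (r - 1) 0 = 0 := max_eq_right (by linarith)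
  have m13 : max (r - 7 / 5) 0 = 0 := max_eq_right (by linarith)
  have m14 : max (r - 2) 0 = 0 := max_eq_right (by linarith)
  have mn : min r (11 / 500) = 11 / 500 := min_eq_right (by linarith)
  simp only [GB, cB, gB5, kB5, p0, dp0, ps, dps, pl, dpl, m0, m1, m2, m3, m4, m5, m6, m7, m8, m9,
    m10, m11, m12, m13, m14, mn]
  constructor <;> ring

noncomputable def gB6 (r : ℝ) : ℝ :=
  (254251147417 / 375000000000) + (-40351143 / 125000000) * r + (1 / 2) * r ^ 2

noncomputable def kB6 (_r : ℝ) : ℝ :=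
  (40351143 / 125000000)

theorem evB6 {r : ℝ} (h1 : 9 / 100 ≤ r) (h2 : r ≤ 11 / 100) : GB r = gB6 r ∧ cB r = kB6 r := by
  have m0 : max (r - 11 / 500) 0 = r - 11 / 500 := max_eq_left (by linarith)
  have m1 : max (r - 4 / 125) 0 = r - 4 / 125 := max_eq_left (by linarith)
  have m2 : max (r - 9 / 200) 0 = r - 9 / 200 := max_eq_left (by linarith)
  have m3 : max (r - 3 / 50) 0 = r - 3 / 50 := max_eq_left (by linarith)
  have m4 : max (r - 3 / 40) 0 = r - 3 / 40 := max_eq_left (by linarith)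
  have m5 : max (r - 9 / 100) 0 = r - 9 / 100 := max_eq_left (by linarith)
  have m6 : max (r - 7 / 50) 0 = 0 := max_eq_right (by linarith)
  have m7 : max (r - 9 / 50) 0 = 0 := max_eq_right (by linarith)
  have m8 : max (r - 1 / 4) 0 = 0 := max_eq_right (by linarith)
  have m9 : max (r - 7 / 20) 0 = 0 := max_eq_right (by linarith)
  have m10 : max (r - 1 / 2) 0 = 0 := max_eq_right (by linarith)
  have m11 : max (r - 7 / 10) 0 = 0 := max_eq_right (by linarith)
  have m12 : max (r - 1) 0 = 0 := max_eq_right (by linarith)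
  have m13 : max (r - 7 / 5) 0 = 0 := max_eq_right (by linarith)
  have m14 : max (r - 2) 0 = 0 := max_eq_right (by linarith)
  have mn : min r (11 / 500) = 11 / 500 := min_eq_right (by linarith)
  simp only [GB, cB, gB6, kB6, p0, dp0, ps, dps, pl, dpl, m0, m1, m2, m3, m4, m5, m6, m7, m8, m9,
    m10, m11, m12, m13, m14, mn]
  constructor <;> ring

noncomputable def gB7 (r : ℝ) : ℝ :=
  (254251147417 / 375000000000) + (-40351143 / 125000000) * r + (1 / 2) * r ^ 2

noncomputable def kB7 (_r : ℝ) : ℝ :=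
  (40351143 / 125000000)

theorem evB7 {r : ℝ} (h1 : 11 / 100 ≤ r) (h2 : r ≤ 7 / 50) : GB r = gB7 r ∧ cB r = kB7 r := by
  have m0 : max (r - 11 / 500) 0 = r - 11 / 500 := max_eq_left (by linarith)
  have m1 : max (r - 4 / 125) 0 = r - 4 / 125 := max_eq_left (by linarith)
  have m2 : max (r - 9 / 200) 0 = r - 9 / 200 := max_eq_left (by linarith)
  have m3 : max (r - 3 / 50) 0 = r - 3 / 50 := max_eq_left (by linarith)
  have m4 : max (r - 3 / 40) 0 = r - 3 / 40 := max_eq_left (by linarith)
  have m5 : max (r - 9 / 100) 0 = r - 9 / 100 := max_eq_left (by linarith)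
  have m6 : max (r - 7 / 50) 0 = 0 := max_eq_right (by linarith)
  have m7 : max (r - 9 / 50) 0 = 0 := max_eq_right (by linarith)
  have m8 : max (r - 1 / 4) 0 = 0 := max_eq_right (by linarith)
  have m9 : max (r - 7 / 20) 0 = 0 := max_eq_right (by linarith)
  have m10 : max (r - 1 / 2) 0 = 0 := max_eq_right (by linarith)
  have m11 : max (r - 7 / 10) 0 = 0 := max_eq_right (by linarith)
  have m12 : max (r - 1) 0 = 0 := max_eq_right (by linarith)
  have m13 : max (r - 7 / 5) 0 = 0 := max_eq_right (by linarith)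
  have m14 : max (r - 2) 0 = 0 := max_eq_right (by linarith)
  have mn : min r (11 / 500) = 11 / 500 := min_eq_right (by linarith)
  simp only [GB, cB, gB7, kB7, p0, dp0, ps, dps, pl, dpl, m0, m1, m2, m3, m4, m5, m6, m7, m8, m9,
    m10, m11, m12, m13, m14, mn]
  constructor <;> ring

noncomputable def gB8 (r : ℝ) : ℝ :=
  (253501447417 / 375000000000) + (-36781143 / 125000000) * r + (199 / 500) * r ^ 2

noncomputable def kB8 (r : ℝ) : ℝ :=
  (36781143 / 125000000) + (51 / 250) * r

theorem evB8 {r : ℝ} (h1 : 7 / 50 ≤ r) (h2 : r ≤ 9 / 50) : GB r = gB8 r ∧ cB r = kB8 r := by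
  have m0 : max (r - 11 / 500) 0 = r - 11 / 500 := max_eq_left (by linarith)
  have m1 : max (r - 4 / 125) 0 = r - 4 / 125 := max_eq_left (by linarith)
  have m2 : max (r - 9 / 200) 0 = r - 9 / 200 := max_eq_left (by linarith)
  have m3 : max (r - 3 / 50) 0 = r - 3 / 50 := max_eq_left (by linarith)
  have m4 : max (r - 3 / 40) 0 = r - 3 / 40 := max_eq_left (by linarith)
  have m5 : max (r - 9 / 100) 0 = r - 9 / 100 := max_eq_left (by linarith)
  have m6 : max (r - 7 / 50) 0 = r - 7 / 50 := max_eq_left (by linarith)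
  have m7 : max (r - 9 / 50) 0 = 0 := max_eq_right (by linarith)
  have m8 : max (r - 1 / 4) 0 = 0 := max_eq_right (by linarith)
  have m9 : max (r - 7 / 20) 0 = 0 := max_eq_right (by linarith)
  have m10 : max (r - 1 / 2) 0 = 0 := max_eq_right (by linarith)
  have m11 : max (r - 7 / 10) 0 = 0 := max_eq_right (by linarith)
  have m12 : max (r - 1) 0 = 0 := max_eq_right (by linarith)
  have m13 : max (r - 7 / 5) 0 = 0 := max_eq_right (by linarith)
  have m14 : max (r - 2) 0 = 0 := max_eq_right (by linarith)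
  have mn : min r (11 / 500) = 11 / 500 := min_eq_right (by linarith)
  simp only [GB, cB, gB8, kB8, p0, dp0, ps, dps, pl, dpl, m0, m1, m2, m3, m4, m5, m6, m7, m8, m9,
    m10, m11, m12, m13, m14, mn]
  constructor <;> ring

noncomputable def gB9 (r : ℝ) : ℝ :=
  (253440697417 / 375000000000) + (-36556143 / 125000000) * r + (393 / 1000) * r ^ 2

noncomputable def kB9 (r : ℝ) : ℝ :=
  (36556143 / 125000000) + (107 / 500) * r

theorem evB9 {r : ℝ} (h1 : 9 / 50 ≤ r) (h2 : r ≤ 1 / 4) : GB r = gB9 r ∧ cB r = kB9 r := by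
  have m0 : max (r - 11 / 500) 0 = r - 11 / 500 := max_eq_left (by linarith)
  have m1 : max (r - 4 / 125) 0 = r - 4 / 125 := max_eq_left (by linarith)
  have m2 : max (r - 9 / 200) 0 = r - 9 / 200 := max_eq_left (by linarith)
  have m3 : max (r - 3 / 50) 0 = r - 3 / 50 := max_eq_left (by linarith)
  have m4 : max (r - 3 / 40) 0 = r - 3 / 40 := max_eq_left (by linarith)
  have m5 : max (r - 9 / 100) 0 = r - 9 / 100 := max_eq_left (by linarith)
  have m6 : max (r - 7 / 50) 0 = r - 7 / 50 := max_eq_left (by linarith)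
  have m7 : max (r - 9 / 50) 0 = r - 9 / 50 := max_eq_left (by linarith)
  have m8 : max (r - 1 / 4) 0 = 0 := max_eq_right (by linarith)
  have m9 : max (r - 7 / 20) 0 = 0 := max_eq_right (by linarith)
  have m10 : max (r - 1 / 2) 0 = 0 := max_eq_right (by linarith)
  have m11 : max (r - 7 / 10) 0 = 0 := max_eq_right (by linarith)
  have m12 : max (r - 1) 0 = 0 := max_eq_right (by linarith)
  have m13 : max (r - 7 / 5) 0 = 0 := max_eq_right (by linarith)
  have m14 : max (r - 2) 0 = 0 := max_eq_right (by linarith)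
  have mn : min r (11 / 500) = 11 / 500 := min_eq_right (by linarith)
  simp only [GB, cB, gB9, kB9, p0, dp0, ps, dps, pl, dpl, m0, m1, m2, m3, m4, m5, m6, m7, m8, m9,
    m10, m11, m12, m13, m14, mn]
  constructor <;> ring

noncomputable def gB10 (r : ℝ) : ℝ :=
  (255128197417 / 375000000000) + (-41056143 / 125000000) * r + (93 / 200) * r ^ 2

noncomputable def kB10 (r : ℝ) : ℝ :=
  (41056143 / 125000000) + (7 / 100) * r

theorem evB10 {r : ℝ} (h1 : 1 / 4 ≤ r) (h2 : r ≤ 7 / 20) : GB r = gB10 r ∧ cB r = kB10 r := by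
  have m0 : max (r - 11 / 500) 0 = r - 11 / 500 := max_eq_left (by linarith)
  have m1 : max (r - 4 / 125) 0 = r - 4 / 125 := max_eq_left (by linarith)
  have m2 : max (r - 9 / 200) 0 = r - 9 / 200 := max_eq_left (by linarith)
  have m3 : max (r - 3 / 50) 0 = r - 3 / 50 := max_eq_left (by linarith)
  have m4 : max (r - 3 / 40) 0 = r - 3 / 40 := max_eq_left (by linarith)
  have m5 : max (r - 9 / 100) 0 = r - 9 / 100 := max_eq_left (by linarith)
  have m6 : max (r - 7 / 50) 0 = r - 7 / 50 := max_eq_left (by linarith)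
  have m7 : max (r - 9 / 50) 0 = r - 9 / 50 := max_eq_left (by linarith)
  have m8 : max (r - 1 / 4) 0 = r - 1 / 4 := max_eq_left (by linarith)
  have m9 : max (r - 7 / 20) 0 = 0 := max_eq_right (by linarith)
  have m10 : max (r - 1 / 2) 0 = 0 := max_eq_right (by linarith)
  have m11 : max (r - 7 / 10) 0 = 0 := max_eq_right (by linarith)
  have m12 : max (r - 1) 0 = 0 := max_eq_right (by linarith)
  have m13 : max (r - 7 / 5) 0 = 0 := max_eq_right (by linarith)
  have m14 : max (r - 2) 0 = 0 := max_eq_right (by linarith)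
  have mn : min r (11 / 500) = 11 / 500 := min_eq_right (by linarith)
  simp only [GB, cB, gB10, kB10, p0, dp0, ps, dps, pl, dpl, m0, m1, m2, m3, m4, m5, m6, m7, m8, m9,
    m10, m11, m12, m13, m14, mn]
  constructor <;> ring

noncomputable def gB11 (r : ℝ) : ℝ :=
  (255587572417 / 375000000000) + (-41931143 / 125000000) * r + (19 / 40) * r ^ 2

noncomputable def kB11 (r : ℝ) : ℝ :=
  (41931143 / 125000000) + (1 / 20) * r

theorem evB11 {r : ℝ} (h1 : 7 / 20 ≤ r) (h2 : r ≤ 1 / 2) : GB r = gB11 r ∧ cB r = kB11 r := by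
  have m0 : max (r - 11 / 500) 0 = r - 11 / 500 := max_eq_left (by linarith)
  have m1 : max (r - 4 / 125) 0 = r - 4 / 125 := max_eq_left (by linarith)
  have m2 : max (r - 9 / 200) 0 = r - 9 / 200 := max_eq_left (by linarith)
  have m3 : max (r - 3 / 50) 0 = r - 3 / 50 := max_eq_left (by linarith)
  have m4 : max (r - 3 / 40) 0 = r - 3 / 40 := max_eq_left (by linarith)
  have m5 : max (r - 9 / 100) 0 = r - 9 / 100 := max_eq_left (by linarith)
  have m6 : max (r - 7 / 50) 0 = r - 7 / 50 := max_eq_left (by linarith)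
  have m7 : max (r - 9 / 50) 0 = r - 9 / 50 := max_eq_left (by linarith)
  have m8 : max (r - 1 / 4) 0 = r - 1 / 4 := max_eq_left (by linarith)
  have m9 : max (r - 7 / 20) 0 = r - 7 / 20 := max_eq_left (by linarith)
  have m10 : max (r - 1 / 2) 0 = 0 := max_eq_right (by linarith)
  have m11 : max (r - 7 / 10) 0 = 0 := max_eq_right (by linarith)
  have m12 : max (r - 1) 0 = 0 := max_eq_right (by linarith)
  have m13 : max (r - 7 / 5) 0 = 0 := max_eq_right (by linarith)
  have m14 : max (r - 2) 0 = 0 := max_eq_right (by linarith)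
  have mn : min r (11 / 500) = 11 / 500 := min_eq_right (by linarith)
  simp only [GB, cB, gB11, kB11, p0, dp0, ps, dps, pl, dpl, m0, m1, m2, m3, m4, m5, m6, m7, m8, m9,
    m10, m11, m12, m13, m14, mn]
  constructor <;> ring

noncomputable def gB12 (r : ℝ) : ℝ :=
  (252025072417 / 375000000000) + (-37181143 / 125000000) * r + (437 / 1000) * r ^ 2

noncomputable def kB12 (r : ℝ) : ℝ :=
  (37181143 / 125000000) + (63 / 500) * r

theorem evB12 {r : ℝ} (h1 : 1 / 2 ≤ r) (h2 : r ≤ 7 / 10) : GB r = gB12 r ∧ cB r = kB12 r := by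
  have m0 : max (r - 11 / 500) 0 = r - 11 / 500 := max_eq_left (by linarith)
  have m1 : max (r - 4 / 125) 0 = r - 4 / 125 := max_eq_left (by linarith)
  have m2 : max (r - 9 / 200) 0 = r - 9 / 200 := max_eq_left (by linarith)
  have m3 : max (r - 3 / 50) 0 = r - 3 / 50 := max_eq_left (by linarith)
  have m4 : max (r - 3 / 40) 0 = r - 3 / 40 := max_eq_left (by linarith)
  have m5 : max (r - 9 / 100) 0 = r - 9 / 100 := max_eq_left (by linarith)
  have m6 : max (r - 7 / 50) 0 = r - 7 / 50 := max_eq_left (by linarith)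
  have m7 : max (r - 9 / 50) 0 = r - 9 / 50 := max_eq_left (by linarith)
  have m8 : max (r - 1 / 4) 0 = r - 1 / 4 := max_eq_left (by linarith)
  have m9 : max (r - 7 / 20) 0 = r - 7 / 20 := max_eq_left (by linarith)
  have m10 : max (r - 1 / 2) 0 = r - 1 / 2 := max_eq_left (by linarith)
  have m11 : max (r - 7 / 10) 0 = 0 := max_eq_right (by linarith)
  have m12 : max (r - 1) 0 = 0 := max_eq_right (by linarith)
  have m13 : max (r - 7 / 5) 0 = 0 := max_eq_right (by linarith)
  have m14 : max (r - 2) 0 = 0 := max_eq_right (by linarith)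
  have mn : min r (11 / 500) = 11 / 500 := min_eq_right (by linarith)
  simp only [GB, cB, gB12, kB12, p0, dp0, ps, dps, pl, dpl, m0, m1, m2, m3, m4, m5, m6, m7, m8, m9,
    m10, m11, m12, m13, m14, mn]
  constructor <;> ring

noncomputable def gB13 (r : ℝ) : ℝ :=
  (242102572417 / 375000000000) + (-27731143 / 125000000) * r + (383 / 1000) * r ^ 2

noncomputable def kB13 (r : ℝ) : ℝ :=
  (27731143 / 125000000) + (117 / 500) * r

theorem evB13 {r : ℝ} (h1 : 7 / 10 ≤ r) (h2 : r ≤ 1) : GB r = gB13 r ∧ cB r = kB13 r := by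
  have m0 : max (r - 11 / 500) 0 = r - 11 / 500 := max_eq_left (by linarith)
  have m1 : max (r - 4 / 125) 0 = r - 4 / 125 := max_eq_left (by linarith)
  have m2 : max (r - 9 / 200) 0 = r - 9 / 200 := max_eq_left (by linarith)
  have m3 : max (r - 3 / 50) 0 = r - 3 / 50 := max_eq_left (by linarith)
  have m4 : max (r - 3 / 40) 0 = r - 3 / 40 := max_eq_left (by linarith)
  have m5 : max (r - 9 / 100) 0 = r - 9 / 100 := max_eq_left (by linarith)
  have m6 : max (r - 7 / 50) 0 = r - 7 / 50 := max_eq_left (by linarith)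
  have m7 : max (r - 9 / 50) 0 = r - 9 / 50 := max_eq_left (by linarith)
  have m8 : max (r - 1 / 4) 0 = r - 1 / 4 := max_eq_left (by linarith)
  have m9 : max (r - 7 / 20) 0 = r - 7 / 20 := max_eq_left (by linarith)
  have m10 : max (r - 1 / 2) 0 = r - 1 / 2 := max_eq_left (by linarith)
  have m11 : max (r - 7 / 10) 0 = r - 7 / 10 := max_eq_left (by linarith)
  have m12 : max (r - 1) 0 = 0 := max_eq_right (by linarith)
  have m13 : max (r - 7 / 5) 0 = 0 := max_eq_right (by linarith)
  have m14 : max (r - 2) 0 = 0 := max_eq_right (by linarith)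
  have mn : min r (11 / 500) = 11 / 500 := min_eq_right (by linarith)
  simp only [GB, cB, gB13, kB13, p0, dp0, ps, dps, pl, dpl, m0, m1, m2, m3, m4, m5, m6, m7, m8, m9,
    m10, m11, m12, m13, m14, mn]
  constructor <;> ring

noncomputable def gB14 (r : ℝ) : ℝ :=
  (227852572417 / 375000000000) + (-18231143 / 125000000) * r + (69 / 200) * r ^ 2

noncomputable def kB14 (r : ℝ) : ℝ :=
  (18231143 / 125000000) + (31 / 100) * r

theorem evB14 {r : ℝ} (h1 : 1 ≤ r) (h2 : r ≤ 7 / 5) : GB r = gB14 r ∧ cB r = kB14 r := by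
  have m0 : max (r - 11 / 500) 0 = r - 11 / 500 := max_eq_left (by linarith)
  have m1 : max (r - 4 / 125) 0 = r - 4 / 125 := max_eq_left (by linarith)
  have m2 : max (r - 9 / 200) 0 = r - 9 / 200 := max_eq_left (by linarith)
  have m3 : max (r - 3 / 50) 0 = r - 3 / 50 := max_eq_left (by linarith)
  have m4 : max (r - 3 / 40) 0 = r - 3 / 40 := max_eq_left (by linarith)
  have m5 : max (r - 9 / 100) 0 = r - 9 / 100 := max_eq_left (by linarith)
  have m6 : max (r - 7 / 50) 0 = r - 7 / 50 := max_eq_left (by linarith)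
  have m7 : max (r - 9 / 50) 0 = r - 9 / 50 := max_eq_left (by linarith)
  have m8 : max (r - 1 / 4) 0 = r - 1 / 4 := max_eq_left (by linarith)
  have m9 : max (r - 7 / 20) 0 = r - 7 / 20 := max_eq_left (by linarith)
  have m10 : max (r - 1 / 2) 0 = r - 1 / 2 := max_eq_left (by linarith)
  have m11 : max (r - 7 / 10) 0 = r - 7 / 10 := max_eq_left (by linarith)
  have m12 : max (r - 1) 0 = r - 1 := max_eq_left (by linarith)
  have m13 : max (r - 7 / 5) 0 = 0 := max_eq_right (by linarith)
  have m14 : max (r - 2) 0 = 0 := max_eq_right (by linarith)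
  have mn : min r (11 / 500) = 11 / 500 := min_eq_right (by linarith)
  simp only [GB, cB, gB14, kB14, p0, dp0, ps, dps, pl, dpl, m0, m1, m2, m3, m4, m5, m6, m7, m8, m9,
    m10, m11, m12, m13, m14, mn]
  constructor <;> ring

noncomputable def gB15 (r : ℝ) : ℝ :=
  (210212572417 / 375000000000) + (-9831143 / 125000000) * r + (321 / 1000) * r ^ 2

noncomputable def kB15 (r : ℝ) : ℝ :=
  (9831143 / 125000000) + (179 / 500) * r

theorem evB15 {r : ℝ} (h1 : 7 / 5 ≤ r) (h2 : r ≤ 2) : GB r = gB15 r ∧ cB r = kB15 r := by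
  have m0 : max (r - 11 / 500) 0 = r - 11 / 500 := max_eq_left (by linarith)
  have m1 : max (r - 4 / 125) 0 = r - 4 / 125 := max_eq_left (by linarith)
  have m2 : max (r - 9 / 200) 0 = r - 9 / 200 := max_eq_left (by linarith)
  have m3 : max (r - 3 / 50) 0 = r - 3 / 50 := max_eq_left (by linarith)
  have m4 : max (r - 3 / 40) 0 = r - 3 / 40 := max_eq_left (by linarith)
  have m5 : max (r - 9 / 100) 0 = r - 9 / 100 := max_eq_left (by linarith)
  have m6 : max (r - 7 / 50) 0 = r - 7 / 50 := max_eq_left (by linarith)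
  have m7 : max (r - 9 / 50) 0 = r - 9 / 50 := max_eq_left (by linarith)
  have m8 : max (r - 1 / 4) 0 = r - 1 / 4 := max_eq_left (by linarith)
  have m9 : max (r - 7 / 20) 0 = r - 7 / 20 := max_eq_left (by linarith)
  have m10 : max (r - 1 / 2) 0 = r - 1 / 2 := max_eq_left (by linarith)
  have m11 : max (r - 7 / 10) 0 = r - 7 / 10 := max_eq_left (by linarith)
  have m12 : max (r - 1) 0 = r - 1 := max_eq_left (by linarith)
  have m13 : max (r - 7 / 5) 0 = r - 7 / 5 := max_eq_left (by linarith)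
  have m14 : max (r - 2) 0 = 0 := max_eq_right (by linarith)
  have mn : min r (11 / 500) = 11 / 500 := min_eq_right (by linarith)
  simp only [GB, cB, gB15, kB15, p0, dp0, ps, dps, pl, dpl, m0, m1, m2, m3, m4, m5, m6, m7, m8, m9,
    m10, m11, m12, m13, m14, mn]
  constructor <;> ring

noncomputable def gB16 (r : ℝ) : ℝ :=
  (76237524139 / 125000000000) + (-47993429 / 375000000) * r + (1 / 3) * r ^ 2

noncomputable def kB16 (r : ℝ) : ℝ :=
  (47993429 / 375000000) + (1 / 3) * r

theorem evB16 {r : ℝ} (h1 : 2 ≤ r) : GB r = gB16 r ∧ cB r = kB16 r := by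
  have m0 : max (r - 11 / 500) 0 = r - 11 / 500 := max_eq_left (by linarith)
  have m1 : max (r - 4 / 125) 0 = r - 4 / 125 := max_eq_left (by linarith)
  have m2 : max (r - 9 / 200) 0 = r - 9 / 200 := max_eq_left (by linarith)
  have m3 : max (r - 3 / 50) 0 = r - 3 / 50 := max_eq_left (by linarith)
  have m4 : max (r - 3 / 40) 0 = r - 3 / 40 := max_eq_left (by linarith)
  have m5 : max (r - 9 / 100) 0 = r - 9 / 100 := max_eq_left (by linarith)
  have m6 : max (r - 7 / 50) 0 = r - 7 / 50 := max_eq_left (by linarith)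
  have m7 : max (r - 9 / 50) 0 = r - 9 / 50 := max_eq_left (by linarith)
  have m8 : max (r - 1 / 4) 0 = r - 1 / 4 := max_eq_left (by linarith)
  have m9 : max (r - 7 / 20) 0 = r - 7 / 20 := max_eq_left (by linarith)
  have m10 : max (r - 1 / 2) 0 = r - 1 / 2 := max_eq_left (by linarith)
  have m11 : max (r - 7 / 10) 0 = r - 7 / 10 := max_eq_left (by linarith)
  have m12 : max (r - 1) 0 = r - 1 := max_eq_left (by linarith)
  have m13 : max (r - 7 / 5) 0 = r - 7 / 5 := max_eq_left (by linarith)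
  have m14 : max (r - 2) 0 = r - 2 := max_eq_left (by linarith)
  have mn : min r (11 / 500) = 11 / 500 := min_eq_right (by linarith)
  simp only [GB, cB, gB16, kB16, p0, dp0, ps, dps, pl, dpl, m0, m1, m2, m3, m4, m5, m6, m7, m8, m9,
    m10, m11, m12, m13, m14, mn]
  constructor <;> ring

noncomputable def gA0 (r : ℝ) : ℝ :=
  (2 / 3) + (-99 / 50) * r ^ 2

noncomputable def kA0 (r : ℝ) : ℝ :=
  (1209 / 250) * r

theorem evA0 {r : ℝ} (h1 : 0 ≤ r) (h2 : r ≤ 11 / 500) : GA r = gA0 r ∧ cA r = kA0 r := by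
  have m0 : max (r - 0) 0 = r - 0 := max_eq_left (by linarith)
  have m1 : max (r - 11 / 500) 0 = 0 := max_eq_right (by linarith)
  have m2 : max (r - 4 / 125) 0 = 0 := max_eq_right (by linarith)
  have m3 : max (r - 9 / 200) 0 = 0 := max_eq_right (by linarith)
  have m4 : max (r - 3 / 50) 0 = 0 := max_eq_right (by linarith)
  have m5 : max (r - 3 / 40) 0 = 0 := max_eq_right (by linarith)
  simp only [GA, cA, gA0, kA0, ps, dps, m0, m1, m2, m3, m4, m5]
  constructor <;> ring

noncomputable def gA1 (r : ℝ) : ℝ :=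
  (500343761 / 750000000) + (-10417 / 250000) * r + (-1033 / 1000) * r ^ 2

noncomputable def kA1 (r : ℝ) : ℝ :=
  (10417 / 250000) + (1471 / 500) * r

theorem evA1 {r : ℝ} (h1 : 11 / 500 ≤ r) (h2 : r ≤ 4 / 125) : GA r = gA1 r ∧ cA r = kA1 r := by
  have m0 : max (r - 0) 0 = r - 0 := max_eq_left (by linarith)
  have m1 : max (r - 11 / 500) 0 = r - 11 / 500 := max_eq_left (by linarith)
  have m2 : max (r - 4 / 125) 0 = 0 := max_eq_right (by linarith)
  have m3 : max (r - 9 / 200) 0 = 0 := max_eq_right (by linarith)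
  have m4 : max (r - 3 / 50) 0 = 0 := max_eq_right (by linarith)
  have m5 : max (r - 3 / 40) 0 = 0 := max_eq_right (by linarith)
  simp only [GA, cA, gA1, kA1, ps, dps, m0, m1, m2, m3, m4, m5]
  constructor <;> ring

noncomputable def gA2 (r : ℝ) : ℝ :=
  (500634833 / 750000000) + (-16481 / 250000) * r + (-327 / 500) * r ^ 2

noncomputable def kA2 (r : ℝ) : ℝ :=
  (16481 / 250000) + (273 / 125) * r

theorem evA2 {r : ℝ} (h1 : 4 / 125 ≤ r) (h2 : r ≤ 9 / 200) : GA r = gA2 r ∧ cA r = kA2 r := by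
  have m0 : max (r - 0) 0 = r - 0 := max_eq_left (by linarith)
  have m1 : max (r - 11 / 500) 0 = r - 11 / 500 := max_eq_left (by linarith)
  have m2 : max (r - 4 / 125) 0 = r - 4 / 125 := max_eq_left (by linarith)
  have m3 : max (r - 9 / 200) 0 = 0 := max_eq_right (by linarith)
  have m4 : max (r - 3 / 50) 0 = 0 := max_eq_right (by linarith)
  have m5 : max (r - 3 / 40) 0 = 0 := max_eq_right (by linarith)
  simp only [GA, cA, gA2, kA2, ps, dps, m0, m1, m2, m3, m4, m5]
  constructor <;> ring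

noncomputable def gA3 (r : ℝ) : ℝ :=
  (125257427 / 187500000) + (-22331 / 250000) * r + (-197 / 500) * r ^ 2

noncomputable def kA3 (r : ℝ) : ℝ :=
  (22331 / 250000) + (208 / 125) * r

theorem evA3 {r : ℝ} (h1 : 9 / 200 ≤ r) (h2 : r ≤ 3 / 50) : GA r = gA3 r ∧ cA r = kA3 r := by
  have m0 : max (r - 0) 0 = r - 0 := max_eq_left (by linarith)
  have m1 : max (r - 11 / 500) 0 = r - 11 / 500 := max_eq_left (by linarith)
  have m2 : max (r - 4 / 125) 0 = r - 4 / 125 := max_eq_left (by linarith)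
  have m3 : max (r - 9 / 200) 0 = r - 9 / 200 := max_eq_left (by linarith)
  have m4 : max (r - 3 / 50) 0 = 0 := max_eq_right (by linarith)
  have m5 : max (r - 3 / 40) 0 = 0 := max_eq_right (by linarith)
  simp only [GA, cA, gA3, kA3, ps, dps, m0, m1, m2, m3, m4, m5]
  constructor <;> ring

noncomputable def gA4 (r : ℝ) : ℝ :=
  (31345913 / 46875000) + (-27941 / 250000) * r + (-207 / 1000) * r ^ 2

noncomputable def kA4 (r : ℝ) : ℝ :=
  (27941 / 250000) + (129 / 100) * r

theorem evA4 {r : ℝ} (h1 : 3 / 50 ≤ r) (h2 : r ≤ 3 / 40) : GA r = gA4 r ∧ cA r = kA4 r := by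
  have m0 : max (r - 0) 0 = r - 0 := max_eq_left (by linarith)
  have m1 : max (r - 11 / 500) 0 = r - 11 / 500 := max_eq_left (by linarith)
  have m2 : max (r - 4 / 125) 0 = r - 4 / 125 := max_eq_left (by linarith)
  have m3 : max (r - 9 / 200) 0 = r - 9 / 200 := max_eq_left (by linarith)
  have m4 : max (r - 3 / 50) 0 = r - 3 / 50 := max_eq_left (by linarith)
  have m5 : max (r - 3 / 40) 0 = 0 := max_eq_right (by linarith)
  simp only [GA, cA, gA4, kA4, ps, dps, m0, m1, m2, m3, m4, m5]
  constructor <;> ring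

noncomputable def gA5 (r : ℝ) : ℝ :=
  (2017022807 / 3000000000) + (-104257 / 500000) * r + (219 / 500) * r ^ 2

noncomputable def kA5 (_r : ℝ) : ℝ :=
  (104257 / 500000)

theorem evA5 {r : ℝ} (h1 : 3 / 40 ≤ r) : GA r = gA5 r ∧ cA r = kA5 r := by
  have m0 : max (r - 0) 0 = r - 0 := max_eq_left (by linarith)
  have m1 : max (r - 11 / 500) 0 = r - 11 / 500 := max_eq_left (by linarith)
  have m2 : max (r - 4 / 125) 0 = r - 4 / 125 := max_eq_left (by linarith)
  have m3 : max (r - 9 / 200) 0 = r - 9 / 200 := max_eq_left (by linarith)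
  have m4 : max (r - 3 / 50) 0 = r - 3 / 50 := max_eq_left (by linarith)
  have m5 : max (r - 3 / 40) 0 = r - 3 / 40 := max_eq_left (by linarith)
  simp only [GA, cA, gA5, kA5, ps, dps, m0, m1, m2, m3, m4, m5]
  constructor <;> ring

end Pool.Agent.Lib.MP_de485e_gt.Two
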